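import Mathlib
import Pool.Agent.Lib_MP_394d50_pb.VDefs

/-!
# Piece OC-H1: Burns-Hale, signs (about 80 lines)

Induction on `F.card` (strong). `F = ∅`: the closure of `∅` is empty. Otherwise `H = Subgroup.closure F` is finitely generated and `≠ ⊥`; `LocInd` gives
`N`, `χ`, `s` with `Chi H N χ s`. `F' = {x ∈ F | χ x = 0}` is a proper subset (otherwise `F ⊆ N`, so `H ≤ N`, but `s ∈ H`, `χ s = 1`). `e'` for `F'`.
Put `e x = e' x` if `χ x = 0`, and `e x = true` iff `0 < χ x` otherwise. Every `y` in the semigroup generated by the
`x ^ {e x}`, `x ∈ F` satisfies: `y ∈ H`, and (`0 < χ y`, or `χ y = 0` and `y` is in the semigroup of `F'`, `e'`)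
(`Subsemigroup.closure_induction`, `Chi.mul`, `Chi.map_inv`). For `y = 1`, `χ 1 = 0` (`Chi.map_one`), contradiction with `e'`.
-/

namespace SingerBO

theorem bh_signs {G : Type} [Group G] (h : LocInd G) (F : Finset G) (hF : ∀ x ∈ F, x ≠ 1) :
    ∃ e : G → Bool, (1 : G) ∉ Subsemigroup.closure {y | ∃ x ∈ F, y = if e x then x else x⁻¹} := by
  classical
  induction F using Finset.strongInduction with
  | H F ih =>
    rcases F.eq_empty_or_nonempty with rfl | ⟨x₀, hx₀⟩
    · refine ⟨fun _ => true, fun h1 => ?_⟩
      have h2 : {y : G | ∃ x ∈ (∅ : Finset G), y = if (true : Bool) then x else x⁻¹} = ∅ := by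
        ext y
        constructor
        · rintro ⟨x, hx, -⟩
          exact absurd hx (Finset.notMem_empty x)
        · exact fun hy => absurd hy (Set.notMem_empty y)
      rw [h2, Subsemigroup.closure_empty] at h1
      exact Subsemigroup.notMem_bot h1
    · have hmem : ∀ x ∈ F, x ∈ Subgroup.closure (F : Set G) := fun x hx =>
        Subgroup.subset_closure (Finset.mem_coe.mpr hx)
      have hne : Subgroup.closure (F : Set G) ≠ ⊥ := by
        intro h1
        have h2 := hmem x₀ hx₀
        rw [h1, Subgroup.mem_bot] at h2
        exact hF x₀ hx₀ h2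
      obtain ⟨N, χ, s, hc⟩ := h _ ⟨F, rfl⟩ hne
      have hss : F.filter (fun x => χ x = 0) ⊂ F := by
        refine (Finset.filter_subset _ F).ssubset_of_ne fun h1 => ?_
        have h2 : Subgroup.closure (F : Set G) ≤ N := by
          rw [Subgroup.closure_le]
          intro x hx
          have hx' : x ∈ F := Finset.mem_coe.mp hx
          have h3 := hx'
          rw [← h1] at h3
          exact (hc.ker x).mpr ⟨hmem x hx', (Finset.mem_filter.mp h3).2⟩
        have h3 := hc.zero (h2 hc.mem)
        rw [hc.one] at h3
        exact one_ne_zero h3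
      obtain ⟨e', he'⟩ := ih _ hss fun x hx => hF x (Finset.mem_filter.mp hx).1
      obtain ⟨e, he⟩ : ∃ e : G → Bool, e = fun x => if χ x = 0 then e' x else decide (0 < χ x) :=
        ⟨_, rfl⟩
      refine ⟨e, fun h1 => ?_⟩
      have key : ∀ y ∈ Subsemigroup.closure {y : G | ∃ x ∈ F, y = if e x then x else x⁻¹},
          y ∈ Subgroup.closure (F : Set G) ∧ (0 < χ y ∨ (χ y = 0 ∧ y ∈ Subsemigroup.closure
            {y : G | ∃ x ∈ F.filter (fun x => χ x = 0), y = if e' x then x else x⁻¹})) := by
        intro y hy
        induction hy using Subsemigroup.closure_induction with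
        | mem y hy =>
          obtain ⟨x, hx, rfl⟩ := hy
          have hxH := hmem x hx
          rcases lt_trichotomy (χ x) 0 with h2 | h2 | h2
          · have e1 : e x = false := by
              rw [he]
              show (if χ x = 0 then e' x else decide (0 < χ x)) = false
              rw [if_neg h2.ne, decide_eq_false (not_lt.mpr h2.le)]
            rw [e1, if_neg Bool.false_ne_true]
            refine ⟨Subgroup.inv_mem _ hxH, Or.inl ?_⟩
            rw [hc.map_inv hxH]
            omega
          · have e1 : e x = e' x := by
              rw [he]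
              show (if χ x = 0 then e' x else decide (0 < χ x)) = e' x
              rw [if_pos h2]
            rw [e1]
            have h3 : (if e' x then x else x⁻¹) ∈ Subsemigroup.closure
                {y : G | ∃ x ∈ F.filter (fun x => χ x = 0), y = if e' x then x else x⁻¹} :=
              Subsemigroup.subset_closure ⟨x, Finset.mem_filter.mpr ⟨hx, h2⟩, rfl⟩
            have h4 : (if e' x then x else x⁻¹) ∈ Subgroup.closure (F : Set G) ∧
                χ (if e' x then x else x⁻¹) = 0 := by
              split_ifs
              · exact ⟨hxH, h2⟩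
              · exact ⟨Subgroup.inv_mem _ hxH, by rw [hc.map_inv hxH, h2, neg_zero]⟩
            exact ⟨h4.1, Or.inr ⟨h4.2, h3⟩⟩
          · have e1 : e x = true := by
              rw [he]
              show (if χ x = 0 then e' x else decide (0 < χ x)) = true
              rw [if_neg h2.ne', decide_eq_true h2]
            rw [e1, if_pos rfl]
            exact ⟨hxH, Or.inl h2⟩
        | mul y z _ _ ihy ihz =>
          obtain ⟨y1, y2⟩ := ihy
          obtain ⟨z1, z2⟩ := ihz
          refine ⟨Subgroup.mul_mem _ y1 z1, ?_⟩
          rw [hc.mul y y1 z z1]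
          rcases y2 with y2 | ⟨y2, y3⟩
          · rcases z2 with z2 | ⟨z2, z3⟩
            · left
              omega
            · left
              omega
          · rcases z2 with z2 | ⟨z2, z3⟩
            · left
              omega
            · right
              exact ⟨by omega, Subsemigroup.mul_mem _ y3 z3⟩
      obtain ⟨-, h2 | ⟨-, h2⟩⟩ := key 1 h1
      · rw [hc.map_one] at h2
        exact lt_irrefl _ h2
      · exact he' h2

end SingerBO
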