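import Mathlib
import Pool.Agent.Lib_MP_394d50_oc.ABH1

/-!
# Piece OC-H2: Burns-Hale, compactness (about 110 lines)

For finite `F ⊆ G \ {1}` let `C F ⊆ (G → Bool)` be the set of the `e` with
`1 ∉ Subsemigroup.closure {y | ∃ x ∈ F, y = if e x then x else x⁻¹}`. It is closed (it depends only on the finitely many values `e x`, `x ∈ F`: it is the
preimage of a set under the continuous restriction map to the discrete space `F → Bool`), non-empty (`bh_signs`), and decreasing in `F` (`Subsemigroup.closure_mono`). By compactness of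
`G → Bool` there is `e` in all `C F` (`IsCompact.nonempty_iInter_of_directed_nonempty_isCompact_isClosed` or
`IsCompact.nonempty_sInter...`; directed by unions). (Or use an ultrafilter on the finite sets, or Rado's selection lemma.) Let
`M = Subsemigroup.closure {y | ∃ x ≠ 1, y = if e x then x else x⁻¹}`. Then `1 ∉ M` (an element of `M` lies in the closure for a finite subset: closure induction),
for every `x ≠ 1` one of `x`, `x⁻¹` is in `M`. Order: `r x y ↔ x⁻¹ * y ∈ M`: irreflexive (`1 ∉ M`), transitive (`M` is a semigroup), total, left invariant.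
-/

namespace SingerBO

/-- **Burns-Hale.** Locally indicable groups are left orderable. -/
theorem lo_of_locInd {G : Type} [Group G] (h : LocInd G) : ∃ r : G → G → Prop, LO r := by
  classical
  have hc : ∀ F : Finset G, ∃ e : G → Bool, (1 : G) ∉ Subsemigroup.closure
      {y | ∃ x ∈ F.filter (fun x => x ≠ 1), y = if e x then x else x⁻¹} := fun F =>
    bh_signs h (F.filter fun x => x ≠ 1) fun x hx => (Finset.mem_filter.1 hx).2
  choose ee hee using hc
  obtain ⟨U, hU⟩ : ∃ U : Ultrafilter (Finset G), (U : Filter (Finset G)) ≤ Filter.atTop :=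
    ⟨Ultrafilter.of Filter.atTop, Ultrafilter.of_le Filter.atTop⟩
  obtain ⟨e, he⟩ : ∃ e : G → Bool, ∀ x, e x = true ↔ ∀ᶠ F in (U : Filter (Finset G)), ee F x = true :=
    ⟨fun x => decide (∀ᶠ F in (U : Filter (Finset G)), ee F x = true), fun x => by simp⟩
  have hev : ∀ x, ∀ᶠ F in (U : Filter (Finset G)), ee F x = e x := by
    intro x
    rcases hx : e x with _ | _
    · have h1 : ¬ ∀ᶠ F in (U : Filter (Finset G)), ee F x = true := by
        rw [← he x, hx]
        simp
      have h2 := Ultrafilter.eventually_not.2 h1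
      exact h2.mono fun F hF => by simpa using hF
    · exact (he x).1 hx
  obtain ⟨M, hM⟩ : ∃ M : Subsemigroup G, M = Subsemigroup.closure
      {y | ∃ x : G, x ≠ 1 ∧ y = if e x then x else x⁻¹} := ⟨_, rfl⟩
  have hfin : ∀ y ∈ M, ∀ᶠ F in (U : Filter (Finset G)), y ∈ Subsemigroup.closure
      {y | ∃ x ∈ F.filter (fun x => x ≠ 1), y = if ee F x then x else x⁻¹} := by
    intro y hy
    rw [hM] at hy
    induction hy using Subsemigroup.closure_induction with
    | mem y hy =>
      obtain ⟨x, hx, rfl⟩ := hy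
      have h1 : ∀ᶠ F in (U : Filter (Finset G)), x ∈ F :=
        hU ((Filter.eventually_ge_atTop ({x} : Finset G)).mono fun F hF => hF (Finset.mem_singleton_self x))
      filter_upwards [h1, hev x] with F h2 h3
      refine Subsemigroup.subset_closure ⟨x, Finset.mem_filter.2 ⟨h2, hx⟩, ?_⟩
      rw [h3]
    | mul y z _ _ hy hz =>
      filter_upwards [hy, hz] with F h2 h3
      exact mul_mem h2 h3
  have h1M : (1 : G) ∉ M := by
    intro h1
    obtain ⟨F, hF⟩ := (hfin 1 h1).exists
    exact hee F hF
  refine ⟨fun x y => x⁻¹ * y ∈ M, ?_, ?_, ?_, ?_⟩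
  · intro x hx
    rw [inv_mul_cancel] at hx
    exact h1M hx
  · intro x y z hxy hyz
    have h2 := mul_mem hxy hyz
    have h3 : x⁻¹ * y * (y⁻¹ * z) = x⁻¹ * z := by group
    rwa [h3] at h2
  · intro x y hxy
    have hg : x⁻¹ * y ≠ 1 := fun h2 => hxy (inv_mul_eq_one.1 h2)
    have h2 : (if e (x⁻¹ * y) then x⁻¹ * y else (x⁻¹ * y)⁻¹) ∈ M := by
      rw [hM]
      exact Subsemigroup.subset_closure ⟨x⁻¹ * y, hg, rfl⟩
    rcases h3 : e (x⁻¹ * y) with _ | _
    · right
      rw [h3] at h2
      have h4 : (x⁻¹ * y)⁻¹ = y⁻¹ * x := by group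
      rw [h4] at h2
      simpa using h2
    · left
      rw [h3] at h2
      simpa using h2
  · intro g x y hxy
    have h2 : (g * x)⁻¹ * (g * y) = x⁻¹ * y := by group
    show (g * x)⁻¹ * (g * y) ∈ M
    rw [h2]
    exact hxy

end SingerBO
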