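import Mathlib
import Pool.Agent.Lib_MP_394d50_pb.VDefs

/-!
# Piece OC-D6: directed unions of locally indicable groups (about 60 lines)

A finitely generated `K ≤ G`, `K ≠ ⊥`, is contained in some `H ∈ S`: `K = Subgroup.closure F`, `F` finite; induction on `F` (directedness; `S` is non-empty by `hc 1`). `K' = K.subgroupOf H` is finitely generated and
`≠ ⊥` (see `li_ext` in `Lib_MP_394d50_pb/GLi.lean` for the same step), `LocInd H` gives `N'`, `χ'`, `s'`; `N = N'.map H.subtype`, `χ x = if h : x ∈ H then χ' ⟨x, h⟩ else 0`, `s = s'`.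
-/

namespace SingerBO

/-- a finite set is contained in a member of the directed family -/
private theorem DLi_fin {G : Type} [Group G] (S : Set (Subgroup G)) (hS : DirectedOn (· ≤ ·) S)
    (hc : ∀ g : G, ∃ H ∈ S, g ∈ H) (F : Finset G) : ∃ H ∈ S, ∀ x ∈ F, x ∈ H := by
  classical
  induction F using Finset.induction_on with
  | empty =>
    obtain ⟨H, hH, _⟩ := hc 1
    exact ⟨H, hH, fun x hx => absurd hx (Finset.notMem_empty x)⟩
  | insert a s _ ih =>
    obtain ⟨H1, hH1, h1⟩ := hc a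
    obtain ⟨H2, hH2, h2⟩ := ih
    obtain ⟨H3, hH3, h13, h23⟩ := hS H1 hH1 H2 hH2
    refine ⟨H3, hH3, fun x hx => ?_⟩
    rcases Finset.mem_insert.1 hx with hx | hx
    · rw [hx]
      exact h13 h1
    · exact h23 (h2 x hx)

open Classical in
/-- a finitely generated subgroup of a locally indicable subgroup -/
private theorem DLi_sub {G : Type} [Group G] (L : Subgroup G) (hN : LocInd L)
    (H : Subgroup G) (hfg : H.FG) (hne : H ≠ ⊥) (hle : H ≤ L) :
    ∃ (N : Subgroup G) (χ : G → ℤ) (s : G), Chi H N χ s := by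
  have hmap : (H.subgroupOf L).map L.subtype = H := Subgroup.map_subgroupOf_eq_of_le hle
  have hfg' : (H.subgroupOf L).FG := by
    have h1 : Group.FG H := (Group.fg_iff_subgroup_fg H).2 hfg
    have h2 : Group.FG (H.subgroupOf L) :=
      Group.fg_of_surjective (f := (Subgroup.subgroupOfEquivOfLe hle).symm.toMonoidHom)
        (Subgroup.subgroupOfEquivOfLe hle).symm.surjective
    exact (Group.fg_iff_subgroup_fg _).1 h2
  have hne' : H.subgroupOf L ≠ ⊥ := by
    intro h0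
    apply hne
    rw [← hmap, h0, Subgroup.map_bot]
  obtain ⟨N', χ', s', hC⟩ := hN (H.subgroupOf L) hfg' hne'
  have hmem : ∀ x : G, ∀ hx : x ∈ L, (⟨x, hx⟩ : L) ∈ H.subgroupOf L ↔ x ∈ H := by
    intro x hx
    rw [Subgroup.mem_subgroupOf]
  refine ⟨N'.map L.subtype, fun x => if h : x ∈ L then χ' ⟨x, h⟩ else 0, (s' : G), ?_, ?_, ?_, ?_⟩
  · intro x hx y hy
    have h1 := hle hx
    have h2 := hle hy
    have h3 : x * y ∈ L := L.mul_mem h1 h2
    show (if h : x * y ∈ L then χ' ⟨x * y, h⟩ else 0) = (if h : x ∈ L then χ' ⟨x, h⟩ else 0) +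
      (if h : y ∈ L then χ' ⟨y, h⟩ else 0)
    rw [dif_pos h1, dif_pos h2, dif_pos h3]
    exact hC.mul ⟨x, h1⟩ ((hmem x h1).2 hx) ⟨y, h2⟩ ((hmem y h2).2 hy)
  · intro x
    show x ∈ N'.map L.subtype ↔ x ∈ H ∧ (if h : x ∈ L then χ' ⟨x, h⟩ else 0) = 0
    constructor
    · intro hx
      obtain ⟨y, hy, rfl⟩ := Subgroup.mem_map.1 hx
      have h1 := (hC.ker y).1 hy
      refine ⟨(hmem y.1 y.2).1 h1.1, ?_⟩
      have h2 : L.subtype y ∈ L := y.2
      rw [dif_pos h2]
      exact h1.2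
    · rintro ⟨h1, h2⟩
      have h3 := hle h1
      rw [dif_pos h3] at h2
      exact Subgroup.mem_map.2 ⟨⟨x, h3⟩, (hC.ker _).2 ⟨(hmem x h3).2 h1, h2⟩, rfl⟩
  · exact (hmem s'.1 s'.2).1 hC.mem
  · have h2 : (s' : G) ∈ L := s'.2
    show (if h : (s' : G) ∈ L then χ' ⟨s', h⟩ else 0) = 1
    rw [dif_pos h2]
    exact hC.one

theorem li_union {G : Type} [Group G] (S : Set (Subgroup G)) (hS : DirectedOn (· ≤ ·) S)
    (hc : ∀ g : G, ∃ H ∈ S, g ∈ H) (h : ∀ H ∈ S, LocInd H) : LocInd G := by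
  intro K hK hne
  obtain ⟨F, hF⟩ := id hK
  obtain ⟨H, hH, hFH⟩ := DLi_fin S hS hc F
  have hKH : K ≤ H := by
    rw [← hF]
    exact (Subgroup.closure_le H).2 (fun x hx => hFH x (Finset.mem_coe.1 hx))
  exact DLi_sub H (h H hH) K hK hne hKH

end SingerBO
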