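import Mathlib
import Pool.Agent.Lib_MP_394d50_pb.VFree

/-!
# MP_394d50_gt: directed unions of good groups (definitions)
-/

namespace SingerBO

/-- A directed system of valued free embeddings for the subgroups of a directed family with union `G`. -/
structure DSys (G I : Type) [Group G] [Preorder I] where
  K : I → Subgroup G
  mono : ∀ i j, i ≤ j → K i ≤ K j
  cov : ∀ g : G, ∃ i, g ∈ K i
  E : I → Type
  div : ∀ i, DivisionRing (E i)
  O : ∀ i, Subring (E i)
  t : ∀ i, K i →* (E i)ˣ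
  vr : ∀ i, VR (O i)
  vfe : ∀ i, VFE (O i) (t i)
  φ : ∀ i j, i ≤ j → (E i →+* E j)
  φt : ∀ i j (h : i ≤ j) (g : K i),
    φ i j h ((t i g : (E i)ˣ) : E i) = ((t j (Subgroup.inclusion (mono i j h) g) : (E j)ˣ) : E j)
  φO : ∀ i j (h : i ≤ j) (x : E i), φ i j h x ∈ O j ↔ x ∈ O i
  φid : ∀ i (x : E i), φ i i le_rfl x = x
  φφ : ∀ i j k (hij : i ≤ j) (hjk : j ≤ k) (x : E i),
    φ j k hjk (φ i j hij x) = φ i k (hij.trans hjk) x

attribute [instance] DSys.div

/-- The limit. -/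
structure DLim {G I L : Type} [Group G] [Preorder I] [DivisionRing L] (D : DSys G I)
    (μ : ∀ i, D.E i →+* L) (OL : Subring L) (T : G →* Lˣ) : Prop where
  com : ∀ i j (h : i ≤ j) (x : D.E i), μ j (D.φ i j h x) = μ i x
  sur : ∀ x : L, ∃ i, ∃ y : D.E i, μ i y = x
  O : ∀ i (x : D.E i), μ i x ∈ OL ↔ x ∈ D.O i
  t : ∀ i (g : D.K i), ((T (g : G) : Lˣ) : L) = μ i ((D.t i g : (D.E i)ˣ) : D.E i)

end SingerBO
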