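import Mathlib
import Pool.Agent.Lib_MP_394d50_oc.DDefs

/-!
# Piece OC-D3: the direct limit (about 150 lines)

`L = DirectLimit D.E (fun i j h => D.φ i j h)` (Mathlib/Algebra/Colimit/DirectLimit.lean: needs `DirectedSystem`, `IsDirected`/`IsDirectedOrder`, `Nonempty`; it has an instance `DivisionRing`; or: build the quotient of
`Σ i, D.E i` by hand). `μ i` the canonical maps (ring homomorphisms; injective since `D.E i` is a division ring). `OL = {x | ∃ i, ∃ y ∈ D.O i, μ i y = x}`, a subring by directedness. `O`: if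
`μ i x = μ j y`, `y ∈ D.O j`, take `k ≥ i, j`: `μ k (φ x) = μ k (φ y)`, so `φ i k x = φ j k y ∈ O k`, `x ∈ O i` (`φO`). `T g = μ i (t i ⟨g, _⟩)` for any `i` with `g ∈ K i` (independent of `i` by `φt`, `com`,
directedness; choose `i` by `D.cov`); multiplicative: for `g`, `h` take a common `i`. (To build `T`: `MonoidHom` to `Lˣ` via `Units.map (μ i)`.)
-/

namespace SingerBO

/-- the construction from a cocone of injective homomorphisms -/
private theorem exists_lim_aux {G I L : Type} [Group G] [Preorder I] [IsDirected I (· ≤ ·)] [Nonempty I]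
    [DivisionRing L] (D : DSys G I) (μ : ∀ i, D.E i →+* L)
    (com : ∀ i j (h : i ≤ j) (x : D.E i), μ j (D.φ i j h x) = μ i x)
    (sur : ∀ x : L, ∃ i, ∃ y : D.E i, μ i y = x) :
    ∃ (OL : Subring L) (T : G →* Lˣ), DLim D μ OL T := by
  classical
  have inj : ∀ i, Function.Injective (μ i) := fun i => (μ i).injective
  let OL : Subring L :=
    { carrier := {x | ∃ i, ∃ y ∈ D.O i, μ i y = x}
      mul_mem' := by
        rintro _ _ ⟨i, y, hy, rfl⟩ ⟨j, z, hz, rfl⟩
        obtain ⟨k, hik, hjk⟩ := exists_ge_ge i j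
        refine ⟨k, D.φ i k hik y * D.φ j k hjk z, mul_mem ((D.φO i k hik y).2 hy)
          ((D.φO j k hjk z).2 hz), ?_⟩
        rw [map_mul, com, com]
      one_mem' := by
        obtain ⟨i⟩ := ‹Nonempty I›
        exact ⟨i, 1, one_mem _, map_one _⟩
      add_mem' := by
        rintro _ _ ⟨i, y, hy, rfl⟩ ⟨j, z, hz, rfl⟩
        obtain ⟨k, hik, hjk⟩ := exists_ge_ge i j
        refine ⟨k, D.φ i k hik y + D.φ j k hjk z, add_mem ((D.φO i k hik y).2 hy)
          ((D.φO j k hjk z).2 hz), ?_⟩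
        rw [map_add, com, com]
      zero_mem' := by
        obtain ⟨i⟩ := ‹Nonempty I›
        exact ⟨i, 0, zero_mem _, map_zero _⟩
      neg_mem' := by
        rintro _ ⟨i, y, hy, rfl⟩
        exact ⟨i, -y, neg_mem hy, map_neg _ _⟩ }
  have key : ∀ (g : G) (i j : I) (hi : g ∈ D.K i) (hj : g ∈ D.K j),
      μ i ((D.t i ⟨g, hi⟩ : (D.E i)ˣ) : D.E i) = μ j ((D.t j ⟨g, hj⟩ : (D.E j)ˣ) : D.E j) := by
    intro g i j hi hj
    obtain ⟨k, hik, hjk⟩ := exists_ge_ge i j
    rw [← com i k hik, ← com j k hjk, D.φt, D.φt]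
    rfl
  let ix : G → I := fun g => (D.cov g).choose
  have hix : ∀ g, g ∈ D.K (ix g) := fun g => (D.cov g).choose_spec
  let Tf : G → Lˣ := fun g => Units.map (μ (ix g)).toMonoidHom (D.t (ix g) ⟨g, hix g⟩)
  have hTf : ∀ g i (hi : g ∈ D.K i), ((Tf g : Lˣ) : L) = μ i ((D.t i ⟨g, hi⟩ : (D.E i)ˣ) : D.E i) :=
    fun g i hi => key g (ix g) i (hix g) hi
  let T : G →* Lˣ :=
    { toFun := Tf
      map_one' := by
        obtain ⟨i⟩ := ‹Nonempty I›
        refine Units.ext ?_
        rw [hTf 1 i (one_mem _)]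
        have h1 : (⟨1, one_mem _⟩ : D.K i) = 1 := rfl
        rw [h1, map_one, Units.val_one, map_one, Units.val_one]
      map_mul' := by
        intro g h
        obtain ⟨k, hik, hjk⟩ := exists_ge_ge (ix g) (ix h)
        have hg : g ∈ D.K k := D.mono _ _ hik (hix g)
        have hh : h ∈ D.K k := D.mono _ _ hjk (hix h)
        refine Units.ext ?_
        rw [Units.val_mul, hTf g k hg, hTf h k hh, hTf (g * h) k (mul_mem hg hh)]
        have h1 : (⟨g * h, mul_mem hg hh⟩ : D.K k) = ⟨g, hg⟩ * ⟨h, hh⟩ := rfl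
        rw [h1, map_mul, Units.val_mul, map_mul] }
  refine ⟨OL, T, com, sur, ?_, ?_⟩
  · intro i x
    constructor
    · rintro ⟨j, y, hy, hxy⟩
      obtain ⟨k, hik, hjk⟩ := exists_ge_ge i j
      rw [← com i k hik, ← com j k hjk] at hxy
      have h1 := inj k hxy
      rw [← D.φO i k hik, ← h1, D.φO]
      exact hy
    · intro hx
      exact ⟨i, x, hx, rfl⟩
  · intro i g
    exact hTf g i g.2

theorem exists_lim {G I : Type} [Group G] [Preorder I] [IsDirected I (· ≤ ·)] [Nonempty I]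
    (D : DSys G I) : ∃ (L : Type) (_ : DivisionRing L) (μ : ∀ i, D.E i →+* L) (OL : Subring L)
      (T : G →* Lˣ), DLim D μ OL T := by
  have : DirectedSystem D.E (fun i j h => D.φ i j h) :=
    ⟨fun i x => D.φid i x, fun i j k hij hjk x => D.φφ _ _ _ hij hjk x⟩
  obtain ⟨OL, T, h⟩ := exists_lim_aux D
    (DirectLimit.Ring.of D.E (fun i j h => D.φ i j h))
    (fun i j hij x => DirectLimit.Ring.of_f hij x)
    (fun x => by
      obtain ⟨i, y, hy⟩ := DirectLimit.exists_eq_mk _ x
      exact ⟨i, y, hy.symm⟩)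
  exact ⟨_, _, _, OL, T, h⟩

end SingerBO
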