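import Mathlib
import Pool.Agent.Lib_MP_394d50_oc.DDefs

/-!
# Piece OC-D4: the valuation ring of the limit, elements of `DH` (about 110 lines)

* `lim_vr`: `half`: `2⁻¹ = μ i 2⁻¹` (any `i`), `hD.O`. `fac`: `x = μ i y`, `y ≠ 0`, `(D.vr i).fac`.
* `lim_dv`: `2 ^ (-k) * μ i x = μ i (2 ^ (-k) * x)` (`map_mul`, `map_zpow₀`, `map_ofNat`), `hD.O`.
* `lim_DH`: for `x ∈ DH T H` there is `i` such that for all `j ≥ i` `x = μ j y` with `y ∈ DH (D.t j) (H.subgroupOf (D.K j))`: `Subfield.closure_induction`; generator `T h`, `h ∈ H`: `i` with `h ∈ D.K i`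
  (`D.cov`, `D.mono`, `hD.t`); sums, products: take an upper bound of the two indices.
* `lim_fam`: for finitely many elements one common `i`: induction on `F`; in addition `g ∈ D.K i` for `g ∈ F`.
-/

namespace SingerBO

variable {G I L : Type} [Group G] [Preorder I] [DivisionRing L] {D : DSys G I}
  {μ : ∀ i, D.E i →+* L} {OL : Subring L} {T : G →* Lˣ}

theorem lim_vr (hD : DLim D μ OL T) : VR OL := by
  constructor
  · intro h
    obtain ⟨i, -, -⟩ := hD.sur 0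
    have h1 : μ i ((2 : D.E i)⁻¹) = (2 : L)⁻¹ := by
      rw [map_inv₀, map_ofNat]
    rw [← h1, hD.O] at h
    exact (D.vr i).half h
  · intro x hx
    obtain ⟨i, y, rfl⟩ := hD.sur x
    have hy : y ≠ 0 := by
      rintro rfl
      exact hx (map_zero _)
    obtain ⟨j, u, hu, hu', hyu⟩ := (D.vr i).fac y hy
    refine ⟨j, μ i u, (hD.O i u).2 hu, ?_, ?_⟩
    · rw [← map_inv₀, hD.O]
      exact hu'
    · rw [hyu, map_mul, map_zpow₀, map_ofNat]

theorem lim_dv (hD : DLim D μ OL T) (i : I) (k : ℤ) (x : D.E i) :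
    Dv OL k (μ i x) ↔ Dv (D.O i) k x := by
  unfold Dv
  have h1 : (2 : L) ^ (-k) * μ i x = μ i (2 ^ (-k) * x) := by
    rw [map_mul, map_zpow₀, map_ofNat]
  rw [h1, hD.O]

theorem lim_DH [IsDirected I (· ≤ ·)] (hD : DLim D μ OL T) (H : Subgroup G) {x : L}
    (hx : x ∈ DH T H) : ∃ i, ∀ j, i ≤ j → ∃ y ∈ DH (D.t j) (H.subgroupOf (D.K j)), μ j y = x := by
  unfold DH at hx
  induction hx using Subfield.closure_induction with
  | mem x hx =>
    obtain ⟨h, hh, rfl⟩ := hx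
    obtain ⟨i, hi⟩ := D.cov h
    refine ⟨i, fun j hij => ⟨((D.t j ⟨h, D.mono i j hij hi⟩ : (D.E j)ˣ) : D.E j), ?_, ?_⟩⟩
    · exact mem_DH _ (Subgroup.mem_subgroupOf.2 hh)
    · exact (hD.t j ⟨h, D.mono i j hij hi⟩).symm
  | one =>
    obtain ⟨i, -, -⟩ := hD.sur 0
    exact ⟨i, fun j _ => ⟨1, one_mem _, map_one _⟩⟩
  | add x y _ _ hx hy =>
    obtain ⟨i, hi⟩ := hx
    obtain ⟨j, hj⟩ := hy
    obtain ⟨k, hik, hjk⟩ := directed_of (· ≤ ·) i j
    refine ⟨k, fun l hl => ?_⟩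
    obtain ⟨a, ha, rfl⟩ := hi l (hik.trans hl)
    obtain ⟨b, hb, rfl⟩ := hj l (hjk.trans hl)
    exact ⟨a + b, add_mem ha hb, map_add _ _ _⟩
  | neg x _ hx =>
    obtain ⟨i, hi⟩ := hx
    refine ⟨i, fun l hl => ?_⟩
    obtain ⟨a, ha, rfl⟩ := hi l hl
    exact ⟨-a, neg_mem ha, map_neg _ _⟩
  | inv x _ hx =>
    obtain ⟨i, hi⟩ := hx
    refine ⟨i, fun l hl => ?_⟩
    obtain ⟨a, ha, rfl⟩ := hi l hl
    exact ⟨a⁻¹, inv_mem ha, map_inv₀ _ _⟩
  | mul x y _ _ hx hy =>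
    obtain ⟨i, hi⟩ := hx
    obtain ⟨j, hj⟩ := hy
    obtain ⟨k, hik, hjk⟩ := directed_of (· ≤ ·) i j
    refine ⟨k, fun l hl => ?_⟩
    obtain ⟨a, ha, rfl⟩ := hi l (hik.trans hl)
    obtain ⟨b, hb, rfl⟩ := hj l (hjk.trans hl)
    exact ⟨a * b, mul_mem ha hb, map_mul _ _ _⟩

theorem lim_fam [IsDirected I (· ≤ ·)] (hD : DLim D μ OL T) (H : Subgroup G) (F : Finset G)
    (d : G → L) (hd : ∀ g ∈ F, d g ∈ DH T H ∧ d g ∈ OL) (i₀ : I) :
    ∃ i, (∀ g ∈ F, g ∈ D.K i) ∧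
      ∃ y : G → D.E i, ∀ g ∈ F, (y g ∈ DH (D.t i) (H.subgroupOf (D.K i)) ∧ y g ∈ D.O i) ∧
        μ i (y g) = d g := by
  classical
  have key : ∃ i, ∀ j, i ≤ j → ∀ g ∈ F, g ∈ D.K j ∧
      ∃ y ∈ DH (D.t j) (H.subgroupOf (D.K j)), μ j y = d g := by
    induction F using Finset.induction_on with
    | empty => exact ⟨i₀, fun j _ g hg => absurd hg (Finset.notMem_empty g)⟩
    | insert a s ha ih =>
      obtain ⟨i, hi⟩ := ih (fun g hg => hd g (Finset.mem_insert_of_mem hg))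
      obtain ⟨j, hj⟩ := lim_DH hD H (hd a (Finset.mem_insert_self a s)).1
      obtain ⟨m, hm⟩ := D.cov a
      obtain ⟨k, hik, hjk⟩ := directed_of (· ≤ ·) i j
      obtain ⟨l, hkl, hml⟩ := directed_of (· ≤ ·) k m
      refine ⟨l, fun n hn g hg => ?_⟩
      rcases Finset.mem_insert.1 hg with rfl | hg
      · exact ⟨D.mono m n (hml.trans hn) hm, hj n (hjk.trans (hkl.trans hn))⟩
      · exact hi n (hik.trans (hkl.trans hn)) g hg
  obtain ⟨i, hi⟩ := key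
  have h1 := hi i le_rfl
  refine ⟨i, fun g hg => (h1 g hg).1, fun g => if hg : g ∈ F then (h1 g hg).2.choose else 0, ?_⟩
  intro g hg
  obtain ⟨h2, h3⟩ := (h1 g hg).2.choose_spec
  simp only [dif_pos hg]
  refine ⟨⟨h2, ?_⟩, h3⟩
  rw [← hD.O, h3]
  exact (hd g hg).2

end SingerBO
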