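import Mathlib
import Pool.Agent.Lib_MP_394d50_oc.DLim2

/-!
# Piece OC-D5: the limit is a valued free embedding (about 100 lines)

`mem`: `hD.t`, `hD.O`, `(D.vfe i).mem`. `left`: `i`, `y` from `lim_fam`; the sum is `μ i (∑ g ∈ F, t i ⟨g, _⟩ * y g)` (use `F.attach`, or an index set `s : Finset F`), so by `lim_dv` `Dv (D.O i) 1` of that; `vfe_left_idx` for
`D.vfe i`, the subgroup `H.subgroupOf (D.K i)`, `s = F.attach`, `n g = ⟨g, _⟩`, `d = y`: `n g⁻¹ * n g' ∈ H.subgroupOf _` means `g⁻¹ * g' ∈ H`. So `Dv (D.O i) 1 (y g)`, `lim_dv`. `right`: the same with `vfe_right_idx`.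
(`Nonempty I` gives the `i₀` of `lim_fam`.)
-/

namespace SingerBO

theorem lim_vfe {G I L : Type} [Group G] [Preorder I] [DivisionRing L] {D : DSys G I}
    {μ : ∀ i, D.E i →+* L} {OL : Subring L} {T : G →* Lˣ} [IsDirected I (· ≤ ·)] [Nonempty I]
    (hD : DLim D μ OL T) : VFE OL T := by
  obtain ⟨i₀⟩ := ‹Nonempty I›
  refine ⟨fun g => ?_, fun H F d h1 h2 h3 => ?_, fun H F d h1 h2 h3 => ?_⟩
  · obtain ⟨i, hi⟩ := D.cov g
    have h := hD.t i ⟨g, hi⟩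
    rw [h, hD.O]
    exact (D.vfe i).mem _
  · obtain ⟨i, hK, y, hy⟩ := lim_fam hD H F d h2 i₀
    have hsum : ∑ g ∈ F, ((T g : Lˣ) : L) * d g =
        μ i (∑ x ∈ F.attach, ((D.t i ⟨x.1, hK x.1 x.2⟩ : (D.E i)ˣ) : D.E i) * y x.1) := by
      rw [map_sum, ← Finset.sum_attach]
      refine Finset.sum_congr rfl fun x _ => ?_
      rw [map_mul, (hy x.1 x.2).2, ← hD.t i ⟨x.1, hK x.1 x.2⟩]
    rw [hsum, lim_dv hD] at h3
    have h4 := vfe_left_idx (D.vfe i) (H.subgroupOf (D.K i)) F.attach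
      (fun x => ⟨x.1, hK x.1 x.2⟩) (fun x => y x.1)
      (fun a _ b _ hab => Subtype.ext (h1 a.1 a.2 b.1 b.2 hab))
      (fun a _ => (hy a.1 a.2).1) h3
    intro g hg
    have h5 := h4 ⟨g, hg⟩ (Finset.mem_attach _ _)
    rw [← (hy g hg).2, lim_dv hD]
    exact h5
  · obtain ⟨i, hK, y, hy⟩ := lim_fam hD H F d h2 i₀
    have hsum : ∑ g ∈ F, d g * ((T g : Lˣ) : L) =
        μ i (∑ x ∈ F.attach, y x.1 * ((D.t i ⟨x.1, hK x.1 x.2⟩ : (D.E i)ˣ) : D.E i)) := by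
      rw [map_sum, ← Finset.sum_attach]
      refine Finset.sum_congr rfl fun x _ => ?_
      rw [map_mul, (hy x.1 x.2).2, ← hD.t i ⟨x.1, hK x.1 x.2⟩]
    rw [hsum, lim_dv hD] at h3
    have h4 := vfe_right_idx (D.vfe i) (H.subgroupOf (D.K i)) F.attach
      (fun x => ⟨x.1, hK x.1 x.2⟩) (fun x => y x.1)
      (fun a _ b _ hab => Subtype.ext (h1 a.1 a.2 b.1 b.2 hab))
      (fun a _ => (hy a.1 a.2).1) h3
    intro g hg
    have h5 := h4 ⟨g, hg⟩ (Finset.mem_attach _ _)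
    rw [← (hy g hg).2, lim_dv hD]
    exact h5

end SingerBO
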