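import Mathlib
import Pool.Agent.Lib_MP_394d50_pb.VFree

/-!
# Piece OC-D1: subgroups of good groups (about 110 lines)

* `vfe_inj`: `DH (t.comp j) H' = DH t (H'.map j)` (the generating sets are the same: `Subgroup.mem_map`). `left`: `vfe_left_idx` for `H'.map j`, `s = F`, `n = j`; `(j g)⁻¹ * j g' ∈ H'.map j`
  gives `g⁻¹ * g' ∈ H'` (`j` injective). `right` the same (`vfe_right_idx`). (`vfe_conj` in UTw.lean is the case of an automorphism: its proof is a model.)
* `li_inj`: `K ≤ H` finitely generated, `≠ ⊥`: `K.map j` (`Subgroup.FG.map`; `≠ ⊥` by injectivity) gives `N`, `χ`, `s = j s'`; take `N.comap j`, `χ ∘ j`, `s'`.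
* `good_inj`: `fe` from `vfe_inj`, `vfe_sub`. `lo`: pull back the order.
-/

namespace SingerBO

private theorem dh_comp_din {G H E : Type} [Group G] [Group H] [DivisionRing E] (t : G →* Eˣ)
    (j : H →* G) (K : Subgroup H) : DH (t.comp j) K = DH t (K.map j) := by
  unfold DH
  congr 1
  ext x
  constructor
  · rintro ⟨h, hh, rfl⟩
    exact ⟨j h, Subgroup.mem_map_of_mem j hh, rfl⟩
  · rintro ⟨k, hk, rfl⟩
    obtain ⟨h, hh, rfl⟩ := Subgroup.mem_map.1 hk
    exact ⟨h, hh, rfl⟩

private theorem mem_map_din {G H : Type} [Group G] [Group H] (j : H →* G)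
    (hj : Function.Injective j) {K : Subgroup H} {x : H} (h : j x ∈ K.map j) : x ∈ K := by
  obtain ⟨y, hy, he⟩ := Subgroup.mem_map.1 h
  rwa [← hj he]

theorem vfe_inj {G H E : Type} [Group G] [Group H] [DivisionRing E] {O : Subring E} {t : G →* Eˣ}
    (hF : VFE O t) (j : H →* G) (hj : Function.Injective j) : VFE O (t.comp j) := by
  refine ⟨fun g => hF.mem (j g), ?_, ?_⟩
  · intro K F d h1 h2 h3
    rw [dh_comp_din] at h2
    refine vfe_left_idx hF (K.map j) F j d ?_ h2 h3
    intro i hi k hk hik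
    rw [← map_inv, ← map_mul] at hik
    exact h1 i hi k hk (mem_map_din j hj hik)
  · intro K F d h1 h2 h3
    rw [dh_comp_din] at h2
    refine vfe_right_idx hF (K.map j) F j d ?_ h2 h3
    intro i hi k hk hik
    rw [← map_inv, ← map_mul] at hik
    exact h1 i hi k hk (mem_map_din j hj hik)

theorem li_inj {G H : Type} [Group G] [Group H] (h : LocInd G) (j : H →* G)
    (hj : Function.Injective j) : LocInd H := by
  intro K hK hne
  have hfg : (K.map j).FG := by
    rw [Subgroup.fg_iff_submonoid_fg] at hK ⊢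
    exact Submonoid.FG.map hK j
  have hnb : K.map j ≠ ⊥ := by
    intro hb
    refine hne ((Subgroup.eq_bot_iff_forall K).2 fun x hx => ?_)
    have h1 : j x ∈ K.map j := Subgroup.mem_map_of_mem j hx
    rw [hb, Subgroup.mem_bot] at h1
    exact hj (by rw [h1, map_one])
  obtain ⟨N, χ, s, hc⟩ := h (K.map j) hfg hnb
  obtain ⟨s', hs', rfl⟩ := Subgroup.mem_map.1 hc.mem
  refine ⟨N.comap j, fun x => χ (j x), s', ?_, ?_, hs', hc.one⟩
  · intro x hx y hy
    show χ (j (x * y)) = χ (j x) + χ (j y)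
    rw [map_mul]
    exact hc.mul _ (Subgroup.mem_map_of_mem j hx) _ (Subgroup.mem_map_of_mem j hy)
  · intro x
    rw [Subgroup.mem_comap, hc.ker]
    exact ⟨fun hx => ⟨mem_map_din j hj hx.1, hx.2⟩,
      fun hx => ⟨Subgroup.mem_map_of_mem j hx.1, hx.2⟩⟩

theorem good_inj {G H : Type} [Group G] [Group H] (h : Good G) (j : H →* G)
    (hj : Function.Injective j) : Good H := by
  refine ⟨li_inj h.li j hj, ?_, ?_⟩
  · obtain ⟨r, hr⟩ := h.lo
    refine ⟨fun x y => r (j x) (j y), fun x => hr.irrefl (j x),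
      fun x y z h1 h2 => hr.trans (j x) (j y) (j z) h1 h2,
      fun x y hxy => hr.total (j x) (j y) fun he => hxy (hj he), ?_⟩
    intro g x y hxy
    show r (j (g * x)) (j (g * y))
    rw [map_mul, map_mul]
    exact hr.left (j g) (j x) (j y) hxy
  · obtain ⟨E, _, O, t, hO, hF, _⟩ := h.fe
    exact vfe_sub hO (vfe_inj hF j hj)

end SingerBO
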