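import Mathlib
import Pool.Agent.Lib_MP_394d50_oc.DDefs
import Pool.Agent.Lib_MP_394d50_oc.DInj
import Pool.Agent.Lib_MP_394d50_pb.UMain

/-!
# Piece OC-D2: the directed system (about 100 lines)

For `i : S` (`↥S` with the order of subgroups) choose from `(h i).fe` (`choose`; the instance too) `E i`, `O i`, `t i : i.1 →* (E i)ˣ` with `VR`, `VFE` and `∀ x, x ∈ DH (t i) ⊤`. For
`i ≤ j` `exists_hom` (UMain.lean) for `t = t i`, `t' = (t j).comp (Subgroup.inclusion h)` (`VFE` by `vfe_inj`, `Subgroup.inclusion_injective`; `LocInd i` from `(h i).li`) gives `φ i j h` with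
`φt`, `φO`. `φid`, `φφ` from `hom_unique` (both sides agree on the `t i g`).
-/

namespace SingerBO

theorem exists_dsys {G : Type} [Group G] (S : Set (Subgroup G)) (hc : ∀ g : G, ∃ H ∈ S, g ∈ H)
    (h : ∀ H ∈ S, Good H) : ∃ D : DSys G S, ∀ i : S, D.K i = i.1 := by
  choose E inst O t hVR hVFE hgen using fun i : S => (h i.1 i.2).fe
  have hex : ∀ (i j : S) (hij : i ≤ j), ∃ φ : E i →+* E j,
      (∀ g : i.1, φ ((t i g : (E i)ˣ) : E i) =
        ((((t j).comp (Subgroup.inclusion (show i.1 ≤ j.1 from hij))) g : (E j)ˣ) : E j)) ∧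
      ∀ x, φ x ∈ O j ↔ x ∈ O i := fun i j hij =>
    exists_hom (hVR i) (hVR j) (hVFE i)
      (vfe_inj (hVFE j) (Subgroup.inclusion (show i.1 ≤ j.1 from hij)) (Subgroup.inclusion_injective _))
      (h i.1 i.2).li (hgen i)
  choose φ hφt hφO using hex
  refine ⟨{ K := fun i => i.1
            mono := fun i j hij => hij
            cov := fun g => ?_
            E := E
            div := inst
            O := O
            t := t
            vr := hVR
            vfe := hVFE
            φ := φ
            φt := fun i j hij g => hφt i j hij g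
            φO := fun i j hij x => hφO i j hij x
            φid := fun i x => ?_
            φφ := fun i j k hij hjk x => ?_ }, fun i => rfl⟩
  · obtain ⟨H, hH, hg⟩ := hc g
    exact ⟨⟨H, hH⟩, hg⟩
  · refine hom_unique (hgen i) (φ i i le_rfl) (RingHom.id (E i)) (fun g => ?_) x
    rw [hφt i i le_rfl g]
    rfl
  · refine hom_unique (hgen i) ((φ j k hjk).comp (φ i j hij)) (φ i k (hij.trans hjk)) (fun g => ?_) x
    rw [RingHom.comp_apply, hφt i j hij g, hφt i k (hij.trans hjk) g]
    exact hφt j k hjk _

end SingerBO
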