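import Mathlib
import Pool.Agent.Lib_MP_394d50_oc.DSys1
import Pool.Agent.Lib_MP_394d50_oc.DLim1
import Pool.Agent.Lib_MP_394d50_oc.DLim3
import Pool.Agent.Lib_MP_394d50_oc.DLi
import Pool.Agent.Lib_MP_394d50_oc.ABH2

/-!
# Directed unions of good groups
-/

namespace SingerBO

theorem good_union {G : Type} [Group G] (S : Set (Subgroup G)) (hS : DirectedOn (· ≤ ·) S)
    (hc : ∀ g : G, ∃ H ∈ S, g ∈ H) (h : ∀ H ∈ S, Good H) : Good G := by
  have hli : LocInd G := li_union S hS hc fun H hH => (h H hH).li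
  refine ⟨hli, lo_of_locInd hli, ?_⟩
  obtain ⟨D, _⟩ := exists_dsys S hc h
  haveI : Nonempty S := by
    obtain ⟨H, hH, _⟩ := hc 1
    exact ⟨⟨H, hH⟩⟩
  haveI : IsDirected S (· ≤ ·) := ⟨fun a b => by
    obtain ⟨c, hc1, h1, h2⟩ := hS a.1 a.2 b.1 b.2
    exact ⟨⟨c, hc1⟩, h1, h2⟩⟩
  obtain ⟨L, _, μ, OL, T, hD⟩ := exists_lim D
  exact vfe_sub (lim_vr hD) (lim_vfe hD)

end SingerBO
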