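import Mathlib
import Pool.Agent.Lib_MP_394d50_pb.WDefs
import Pool.Agent.Lib_MP_394d50_pb.VBasic
import Pool.Agent.Lib_MP_394d50_rn.RDefs

/-!
# MP_394d50_gt, the closure of the bi-orderable and the locally indicable amenable groups: 2-adic Ore domains (definitions)

`T2 x`: `x` is divisible by `2`. `OD S`: `S` is a 2-adic Ore domain. `PP hA`: the graded ring (finite sums of homogeneous elements).
-/

namespace SingerBO

/-- `x` is divisible by `2`. -/
def T2 {S : Type} [Ring S] (x : S) : Prop := ∃ z : S, x = 2 * z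

/-- 2-adic Ore domains. -/
structure OD (S : Type) [Ring S] : Prop where
  tf : ∀ x : S, 2 * x = 0 → x = 0
  nt : ¬ T2 (1 : S)
  prime : ∀ x y : S, T2 (x * y) → T2 x ∨ T2 y
  fac : ∀ x : S, x ≠ 0 → ∃ (j : ℕ) (y : S), ¬ T2 y ∧ x = 2 ^ j * y
  oreR : ∀ x y : S, ∃ u w : S, (u ≠ 0 ∨ w ≠ 0) ∧ x * u = y * w
  oreL : ∀ x y : S, ∃ u w : S, (u ≠ 0 ∨ w ≠ 0) ∧ u * x = w * y

/-- Finite subsets of the subgroup `P` which are less than doubled by the multiplications with a given finite subset. -/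
structure Fol2 {V : Type} [Group V] (P : Subgroup V) : Prop where
  left : ∀ S : Finset V, (∀ s ∈ S, s ∈ P) → ∃ F D : Finset V, (∀ x ∈ F, x ∈ P) ∧ (∀ x ∈ D, x ∈ P) ∧
    (∀ s ∈ S, ∀ x ∈ F, s * x ∈ D) ∧ D.card < 2 * F.card
  right : ∀ S : Finset V, (∀ s ∈ S, s ∈ P) → ∃ F D : Finset V, (∀ x ∈ F, x ∈ P) ∧ (∀ x ∈ D, x ∈ P) ∧
    (∀ s ∈ S, ∀ x ∈ F, x * s ∈ D) ∧ D.card < 2 * F.card

/-- Graded families with the additional conditions: homogeneous elements are powers of `2` times units, and the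
support is `P`. -/
structure GrF {R V : Type} [Ring R] [Group V] (A : V → AddSubgroup R) (P : Subgroup V) : Prop
    extends Gr A where
  fac : ∀ v x, x ∈ A v → x ≠ 0 → ∃ (j : ℕ) (y : R), y ∈ A v ∧ ¬ T2 y ∧ x = 2 ^ j * y
  full : ∀ v ∈ P, ∃ x ∈ A v, ¬ T2 x
  van : ∀ v, v ∉ P → ∀ x ∈ A v, x = 0

section

variable {R V : Type} [Ring R] [Group V] {A : V → AddSubgroup R}

/-- The graded ring. -/
noncomputable def PP (hA : Gr A) : Subring (MonoidAlgebra R V) where
  carrier := {x | ∀ v, x.coeff v ∈ A v}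
  mul_mem' := fun {x y} hx hy v => by
    rw [MonoidAlgebra.coeff_mul_apply_left, Finsupp.sum]
    refine AddSubgroup.sum_mem _ fun a _ => ?_
    have h := hA.mul _ _ _ _ (hx a) (hy (a⁻¹ * v))
    rwa [mul_inv_cancel_left] at h
  one_mem' := fun v => by
    classical
    rw [MonoidAlgebra.one_def, MonoidAlgebra.coeff_single, Finsupp.single_apply]
    split_ifs with h
    · rw [← h]
      exact hA.one
    · exact zero_mem _
  add_mem' := fun {x y} hx hy v => by
    rw [MonoidAlgebra.coeff_add, Finsupp.add_apply]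
    exact add_mem (hx v) (hy v)
  zero_mem' := fun v => by
    rw [MonoidAlgebra.coeff_zero, Finsupp.zero_apply]
    exact zero_mem _
  neg_mem' := fun {x} hx v => by
    rw [MonoidAlgebra.coeff_neg, Finsupp.neg_apply]
    exact neg_mem (hx v)

/-- The coefficient. -/
def pcf {hA : Gr A} (x : PP hA) (v : V) : R := x.1.coeff v

theorem pcf_mem {hA : Gr A} (x : PP hA) (v : V) : pcf x v ∈ A v := x.2 v

theorem pp_ext {hA : Gr A} {x y : PP hA} (h : ∀ v, pcf x v = pcf y v) : x = y :=
  Subtype.ext (MonoidAlgebra.ext (Finsupp.ext h))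

/-- The support. -/
def psupp {hA : Gr A} (x : PP hA) : Finset V := x.1.coeff.support

theorem mem_psupp {hA : Gr A} {x : PP hA} {v : V} : v ∈ psupp x ↔ pcf x v ≠ 0 :=
  Finsupp.mem_support_iff

theorem pcf_zero {hA : Gr A} (v : V) : pcf (0 : PP hA) v = 0 := rfl

theorem pcf_add {hA : Gr A} (x y : PP hA) (v : V) : pcf (x + y) v = pcf x v + pcf y v := rfl

theorem pcf_neg {hA : Gr A} (x : PP hA) (v : V) : pcf (-x) v = - pcf x v := rfl

theorem pcf_sub {hA : Gr A} (x y : PP hA) (v : V) : pcf (x - y) v = pcf x v - pcf y v := rfl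

theorem pcf_one {hA : Gr A} : pcf (1 : PP hA) 1 = 1 := by
  show (1 : MonoidAlgebra R V).coeff 1 = 1
  rw [MonoidAlgebra.one_def, MonoidAlgebra.coeff_single, Finsupp.single_eq_same]

theorem pcf_sum {hA : Gr A} {ι : Type} (s : Finset ι) (f : ι → PP hA) (v : V) :
    pcf (∑ i ∈ s, f i) v = ∑ i ∈ s, pcf (f i) v := by
  classical
  induction s using Finset.induction_on with
  | empty => rfl
  | insert a s ha ih => rw [Finset.sum_insert ha, Finset.sum_insert ha, pcf_add, ih]

theorem pcf_two {hA : Gr A} (x : PP hA) (v : V) : pcf (2 * x) v = 2 * pcf x v := by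
  rw [two_mul, two_mul, pcf_add]

theorem pcf_pow {hA : Gr A} (j : ℕ) (x : PP hA) (v : V) : pcf (2 ^ j * x) v = 2 ^ j * pcf x v := by
  induction j with
  | zero => rw [pow_zero, pow_zero, one_mul, one_mul]
  | succ j ih =>
    rw [pow_succ', pow_succ', mul_assoc, mul_assoc, pcf_two, ih]

/-- The product, expanded over a set which contains the support of the first factor. -/
theorem pcf_mul_left {hA : Gr A} (x y : PP hA) (v : V) (s : Finset V) (hs : psupp x ⊆ s) :
    pcf (x * y) v = ∑ a ∈ s, pcf x a * pcf y (a⁻¹ * v) := by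
  show (x.1 * y.1).coeff v = _
  rw [MonoidAlgebra.coeff_mul_apply_left, Finsupp.sum]
  refine Finset.sum_subset hs fun a _ ha => ?_
  have h : x.1.coeff a = 0 := Finsupp.notMem_support_iff.mp ha
  rw [h, zero_mul]

/-- The product, expanded over a set which contains the support of the second factor. -/
theorem pcf_mul_right {hA : Gr A} (x y : PP hA) (v : V) (s : Finset V) (hs : psupp y ⊆ s) :
    pcf (x * y) v = ∑ a ∈ s, pcf x (v * a⁻¹) * pcf y a := by
  show (x.1 * y.1).coeff v = _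
  rw [MonoidAlgebra.coeff_mul_apply_right, Finsupp.sum]
  refine Finset.sum_subset hs fun a _ ha => ?_
  have h : y.1.coeff a = 0 := Finsupp.notMem_support_iff.mp ha
  rw [h, mul_zero]

/-- The homogeneous element `x` of degree `v`. -/
noncomputable def ppS (hA : Gr A) (v : V) (x : R) (hx : x ∈ A v) : PP hA :=
  ⟨MonoidAlgebra.single v x, fun w => by
    classical
    rw [MonoidAlgebra.coeff_single, Finsupp.single_apply]
    split_ifs with h
    · rw [← h]
      exact hx
    · exact zero_mem _⟩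

open scoped Classical in
theorem pcf_ppS (hA : Gr A) (v : V) (x : R) (hx : x ∈ A v) (w : V) :
    pcf (ppS hA v x hx) w = if w = v then x else 0 := by
  show (MonoidAlgebra.single v x).coeff w = _
  rw [MonoidAlgebra.coeff_single, Finsupp.single_apply]
  simp only [eq_comm]

theorem ppS_mul (hA : Gr A) {v w : V} {x y : R} (hx : x ∈ A v) (hy : y ∈ A w) :
    ppS hA v x hx * ppS hA w y hy = ppS hA (v * w) (x * y) (hA.mul _ _ _ _ hx hy) :=
  Subtype.ext (MonoidAlgebra.single_mul_single ..)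

theorem ppS_congr (hA : Gr A) {v w : V} {x y : R} (hv : v = w) (hxy : x = y) (h : x ∈ A v)
    (h' : y ∈ A w) : ppS hA v x h = ppS hA w y h' := by
  subst hv hxy
  rfl

theorem ppS_one (hA : Gr A) : ppS hA (1 : V) 1 hA.one = 1 := rfl

theorem pcf_ppS_mul (hA : Gr A) (v : V) (x : R) (hx : x ∈ A v) (y : PP hA) (w : V) :
    pcf (ppS hA v x hx * y) w = x * pcf y (v⁻¹ * w) :=
  MonoidAlgebra.coeff_single_mul_apply ..

theorem pcf_mul_ppS (hA : Gr A) (v : V) (x : R) (hx : x ∈ A v) (y : PP hA) (w : V) :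
    pcf (y * ppS hA v x hx) w = pcf y (w * v⁻¹) * x :=
  MonoidAlgebra.coeff_mul_single_apply ..

/-- An element with prescribed coefficients. -/
theorem exists_pp (hA : Gr A) (s : Finset V) (c : V → R) (hc : ∀ v ∈ s, c v ∈ A v) :
    ∃ x : PP hA, (∀ v ∈ s, pcf x v = c v) ∧ ∀ v, v ∉ s → pcf x v = 0 := by
  classical
  refine ⟨⟨MonoidAlgebra.ofCoeff (Finsupp.onFinset s (fun v => if v ∈ s then c v else 0)
    (fun v h => by
      by_contra hn
      exact h (if_neg hn))), fun v => ?_⟩, fun v hv => if_pos hv, fun v hv => if_neg hv⟩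
  show (if v ∈ s then c v else 0) ∈ A v
  split_ifs with h
  · exact hc v h
  · exact zero_mem _

/-- The inclusion for a smaller graded family. -/
noncomputable def ppIncl {B : V → AddSubgroup R} (hA : Gr A) (hB : Gr B) (h : ∀ v, B v ≤ A v) :
    PP hB →+* PP hA :=
  Subring.inclusion fun _ hx v => h v (hx v)

theorem pcf_incl {B : V → AddSubgroup R} (hA : Gr A) (hB : Gr B) (h : ∀ v, B v ≤ A v)
    (x : PP hB) (v : V) : pcf (ppIncl hA hB h x) v = pcf x v := rfl

theorem incl_inj {B : V → AddSubgroup R} (hA : Gr A) (hB : Gr B) (h : ∀ v, B v ≤ A v) :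
    Function.Injective (ppIncl hA hB h) := fun x y e => pp_ext fun v => by
  rw [← pcf_incl hA hB h x v, e, pcf_incl]

end

end SingerBO
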