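import Mathlib
import Pool.Agent.Lib_MP_394d50_oc.ADefs

/-!
# Piece OC-A2: Foelner sets in subgroups (about 120 lines)

`SingerRN.Amen` (Lib_MP_394d50_rn/RDefs.lean): for finite `S`, `ε > 0` a finite `F ≠ ∅` with `|{x ∈ F | x * s ∉ F}| ≤ ε |F|` for `s ∈ S`.
* `right`: `S ⊆ P` finite, `ε = 1 / (|S| + 1)`, `F₀`, `D₀ = F₀ ∪ ⋃ s ∈ S, {x * s | x ∈ F₀, x * s ∉ F₀}`: `|D₀| ≤ |F₀| + |S| ε |F₀| < 2 |F₀|`, and
  `x * s ∈ D₀` for `x ∈ F₀`, `s ∈ S`. Split `F₀` and `D₀` by the left coset `x P` (`Finset.card_eq_sum_card_fiberwise` or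
  `Finset.card_biUnion` for the map to `Q ⧸ P`, over the image of `D₀ ∪ F₀`); so there is a coset `q` with
  `|{x ∈ D₀ | x P = q}| < 2 |{x ∈ F₀ | x P = q}|` (`Finset.exists_lt_of_sum_lt`). `c` a representative of `q`; `F`, `D` = the images under
  `x ↦ c⁻¹ * x`.
* `left`: apply `right` to `S⁻¹` and invert `F`, `D` (`Finset.image Inv.inv`, `Finset.card_image_of_injective`).
-/

namespace SingerBO

private theorem fol_right {Q : Type} [Group Q] (h : SingerRN.Amen Q) (P : Subgroup Q) (S : Finset Q)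
    (hS : ∀ s ∈ S, s ∈ P) : ∃ F D : Finset Q, (∀ x ∈ F, x ∈ P) ∧ (∀ x ∈ D, x ∈ P) ∧
      (∀ s ∈ S, ∀ x ∈ F, x * s ∈ D) ∧ D.card < 2 * F.card := by
  classical
  obtain ⟨F₀, hF₀, hb⟩ := h S (1 / ((S.card : ℝ) + 1)) (by positivity)
  obtain ⟨D₀, hD₀⟩ : ∃ D₀, D₀ = F₀ ∪ S.biUnion fun s => (F₀.filter fun x => x * s ∉ F₀).image fun x => x * s :=
    ⟨_, rfl⟩
  have hsub : F₀ ⊆ D₀ := by
    rw [hD₀]
    exact Finset.subset_union_left
  have hmul : ∀ s ∈ S, ∀ x ∈ F₀, x * s ∈ D₀ := by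
    intro s hs x hx
    rw [hD₀]
    by_cases hxs : x * s ∈ F₀
    · exact Finset.mem_union_left _ hxs
    · exact Finset.mem_union_right _ (Finset.mem_biUnion.2 ⟨s, hs,
        Finset.mem_image.2 ⟨x, Finset.mem_filter.2 ⟨hx, hxs⟩, rfl⟩⟩)
  have hpos : (0 : ℝ) < F₀.card := by exact_mod_cast Finset.card_pos.2 hF₀
  have hcard : D₀.card < 2 * F₀.card := by
    have h1 : D₀.card ≤ F₀.card + ∑ s ∈ S, (F₀.filter fun x => x * s ∉ F₀).card := by
      rw [hD₀]
      refine (Finset.card_union_le _ _).trans (Nat.add_le_add_left ?_ _)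
      refine Finset.card_biUnion_le.trans (Finset.sum_le_sum fun s _ => Finset.card_image_le)
    have h2 : (∑ s ∈ S, (F₀.filter fun x => x * s ∉ F₀).card : ℝ) ≤
        ∑ _s ∈ S, (1 / ((S.card : ℝ) + 1) * F₀.card) := Finset.sum_le_sum fun s hs => by
      have h2 := hb s hs
      refine le_trans (le_of_eq ?_) h2
      norm_cast
    rw [Finset.sum_const, nsmul_eq_mul] at h2
    have h3 : (S.card : ℝ) * (1 / ((S.card : ℝ) + 1) * F₀.card) < F₀.card := by
      have h4 : (S.card : ℝ) * (1 / ((S.card : ℝ) + 1)) < 1 := by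
        rw [mul_one_div, div_lt_one (by positivity)]
        linarith
      calc (S.card : ℝ) * (1 / ((S.card : ℝ) + 1) * F₀.card) =
            (S.card : ℝ) * (1 / ((S.card : ℝ) + 1)) * F₀.card := by ring
        _ < 1 * F₀.card := mul_lt_mul_of_pos_right h4 hpos
        _ = F₀.card := one_mul _
    have h5 : (D₀.card : ℝ) < 2 * F₀.card := by
      have h6 : (D₀.card : ℝ) ≤ F₀.card + ∑ s ∈ S, ((F₀.filter fun x => x * s ∉ F₀).card : ℝ) := by
        exact_mod_cast h1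
      linarith
    exact_mod_cast h5
  have hq : ∃ q ∈ D₀.image (fun x : Q => (x : Q ⧸ P)),
      (D₀.filter fun x : Q => (x : Q ⧸ P) = q).card < 2 * (F₀.filter fun x : Q => (x : Q ⧸ P) = q).card := by
    by_contra hc
    push Not at hc
    have h1 : D₀.card = ∑ q ∈ D₀.image (fun x : Q => (x : Q ⧸ P)), (D₀.filter fun x : Q => (x : Q ⧸ P) = q).card :=
      Finset.card_eq_sum_card_fiberwise fun x hx => Finset.mem_image_of_mem _ hx
    have h2 : F₀.card = ∑ q ∈ D₀.image (fun x : Q => (x : Q ⧸ P)), (F₀.filter fun x : Q => (x : Q ⧸ P) = q).card :=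
      Finset.card_eq_sum_card_fiberwise fun x hx => Finset.mem_image_of_mem _ (hsub hx)
    have h3 := Finset.sum_le_sum hc
    rw [← h1, ← Finset.mul_sum, ← h2] at h3
    omega
  obtain ⟨q, _, hqc⟩ := hq
  obtain ⟨c, rfl⟩ := QuotientGroup.mk_surjective q
  have hinj : Function.Injective fun x : Q => c⁻¹ * x := mul_right_injective c⁻¹
  refine ⟨(F₀.filter fun x : Q => (x : Q ⧸ P) = (c : Q ⧸ P)).image fun x => c⁻¹ * x,
    (D₀.filter fun x : Q => (x : Q ⧸ P) = (c : Q ⧸ P)).image fun x => c⁻¹ * x, ?_, ?_, ?_, ?_⟩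
  · intro y hy
    obtain ⟨x, hx, rfl⟩ := Finset.mem_image.1 hy
    exact QuotientGroup.eq.1 (Finset.mem_filter.1 hx).2.symm
  · intro y hy
    obtain ⟨x, hx, rfl⟩ := Finset.mem_image.1 hy
    exact QuotientGroup.eq.1 (Finset.mem_filter.1 hx).2.symm
  · intro s hs y hy
    obtain ⟨x, hx, rfl⟩ := Finset.mem_image.1 hy
    obtain ⟨hx1, hx2⟩ := Finset.mem_filter.1 hx
    refine Finset.mem_image.2 ⟨x * s, Finset.mem_filter.2 ⟨hmul s hs x hx1, ?_⟩, (mul_assoc _ _ _).symm⟩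
    rw [← hx2]
    refine QuotientGroup.eq.2 ?_
    rw [mul_inv_rev, inv_mul_cancel_right]
    exact inv_mem (hS s hs)
  · rw [Finset.card_image_of_injective _ hinj, Finset.card_image_of_injective _ hinj]
    exact hqc

theorem fol2_of_amen {Q : Type} [Group Q] (h : SingerRN.Amen Q) (P : Subgroup Q) : Fol2 P := by
  classical
  refine ⟨?_, fol_right h P⟩
  intro S hS
  obtain ⟨F, D, h1, h2, h3, h4⟩ := fol_right h P (S.image fun x => x⁻¹) (by
    intro s hs
    obtain ⟨t, ht, rfl⟩ := Finset.mem_image.1 hs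
    exact inv_mem (hS t ht))
  refine ⟨F.image fun x => x⁻¹, D.image fun x => x⁻¹, ?_, ?_, ?_, ?_⟩
  · intro y hy
    obtain ⟨x, hx, rfl⟩ := Finset.mem_image.1 hy
    exact inv_mem (h1 x hx)
  · intro y hy
    obtain ⟨x, hx, rfl⟩ := Finset.mem_image.1 hy
    exact inv_mem (h2 x hx)
  · intro s hs y hy
    obtain ⟨x, hx, rfl⟩ := Finset.mem_image.1 hy
    refine Finset.mem_image.2 ⟨x * s⁻¹, h3 _ (Finset.mem_image_of_mem _ hs) x hx, ?_⟩
    rw [mul_inv_rev, inv_inv]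
  · rw [Finset.card_image_of_injective _ inv_injective, Finset.card_image_of_injective _ inv_injective]
    exact h4

end SingerBO
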