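import Mathlib
import Pool.Agent.Lib_MP_394d50_oc.ADefs

/-!
# Piece OC-A5: the coefficients of degree 1 (about 60 lines)

`x = 0` or `y = 0`: clear. Otherwise `x = 2 ^ i * x'`, `y = 2 ^ j * y'` with `x', y' ∈ A 1` not divisible by `2` (`hA.fac`), with inverses in `A 1⁻¹ = A 1` (`hA.unit`).
If `i ≤ j`: `y = x * (x'⁻¹ * (2 ^ (j - i) * y'))` and `y = (2 ^ (j - i) * y' * x'⁻¹) * x` (`2 ^ i` is central, `two_pow_comm'`); the factor is in `A 1`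
(`2 ^ k ∈ A 1`: `B1` is a subring). Otherwise exchange `x` and `y`.
-/

namespace SingerBO

variable {R V : Type} [Ring R] [Group V] {A : V → AddSubgroup R}

/-- The ring of the homogeneous elements of degree `1`. -/
def B1 (hA : Gr A) : Subring R where
  carrier := A 1
  mul_mem' := fun {x y} hx hy => by
    have h := hA.mul _ _ _ _ hx hy
    rwa [mul_one] at h
  one_mem' := hA.one
  add_mem' := fun hx hy => add_mem hx hy
  zero_mem' := zero_mem _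
  neg_mem' := fun hx => neg_mem hx

theorem mem_B1 (hA : Gr A) {x : R} : x ∈ B1 hA ↔ x ∈ A 1 := Iff.rfl

private theorem b1_inv {P : Subgroup V} (hA : GrF A P) {x : R} (hx : x ∈ A 1) (h0 : x ≠ 0) :
    ∃ (i : ℕ) (a b : R), a ∈ A 1 ∧ b ∈ A 1 ∧ a * b = 1 ∧ b * a = 1 ∧ x = 2 ^ i * a := by
  obtain ⟨i, a, ha, hn, hxa⟩ := hA.fac 1 x hx h0
  obtain ⟨b, hb, h1, h2⟩ := hA.unit 1 a ha hn
  rw [inv_one] at hb
  exact ⟨i, a, b, ha, hb, h1, h2, hxa⟩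

private theorem two_pow_mem_b1 (hA : Gr A) (k : ℕ) : (2 : R) ^ k ∈ A 1 := by
  have h : (2 : R) ^ k ∈ B1 hA := pow_mem (by
    have h2 : (1 : R) + 1 ∈ B1 hA := add_mem (one_mem _) (one_mem _)
    rwa [one_add_one_eq_two] at h2) k
  exact h

private theorem mul_mem_b1 (hA : Gr A) {x y : R} (hx : x ∈ A 1) (hy : y ∈ A 1) : x * y ∈ A 1 :=
  (B1 hA).mul_mem (x := x) (y := y) hx hy

private theorem b1_r {P : Subgroup V} (hA : GrF A P) {i j : ℕ} (hij : i ≤ j) {a a' b : R}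
    (ha' : a' ∈ A 1) (hb : b ∈ A 1) (h : a * a' = 1) :
    ∃ c ∈ A 1, 2 ^ j * b = (2 ^ i * a) * c := by
  refine ⟨a' * (2 ^ (j - i) * b), mul_mem_b1 hA.toGr ha' (mul_mem_b1 hA.toGr
    (two_pow_mem_b1 hA.toGr _) hb), ?_⟩
  obtain ⟨k, rfl⟩ := Nat.exists_eq_add_of_le hij
  rw [Nat.add_sub_cancel_left, mul_assoc, ← mul_assoc a, h, one_mul, pow_add, mul_assoc]

private theorem b1_l {P : Subgroup V} (hA : GrF A P) {i j : ℕ} (hij : i ≤ j) {a a' b : R}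
    (ha' : a' ∈ A 1) (hb : b ∈ A 1) (h : a' * a = 1) :
    ∃ c ∈ A 1, 2 ^ j * b = c * (2 ^ i * a) := by
  refine ⟨(2 ^ (j - i) * b) * a', mul_mem_b1 hA.toGr (mul_mem_b1 hA.toGr
    (two_pow_mem_b1 hA.toGr _) hb) ha', ?_⟩
  obtain ⟨k, rfl⟩ := Nat.exists_eq_add_of_le hij
  rw [Nat.add_sub_cancel_left, two_pow_comm' i a, mul_assoc _ a' (a * 2 ^ i), ← mul_assoc a' a,
    h, one_mul, mul_assoc, ← two_pow_comm' i b, ← mul_assoc, add_comm, pow_add]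

theorem b1_right {P : Subgroup V} (hA : GrF A P) (x y : B1 hA.toGr) :
    (∃ c, y = x * c) ∨ ∃ c, x = y * c := by
  obtain ⟨x, hx⟩ := x
  obtain ⟨y, hy⟩ := y
  by_cases hx0 : x = 0
  · subst hx0
    exact Or.inr ⟨0, Subtype.ext (mul_zero _).symm⟩
  by_cases hy0 : y = 0
  · subst hy0
    exact Or.inl ⟨0, Subtype.ext (mul_zero _).symm⟩
  obtain ⟨i, a, a', ha, ha', h1, -, hxa⟩ := b1_inv hA hx hx0
  obtain ⟨j, b, b', hb, hb', h2, -, hyb⟩ := b1_inv hA hy hy0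
  rcases le_total i j with h | h
  · obtain ⟨c, hc, e⟩ := b1_r hA h ha' hb h1
    exact Or.inl ⟨⟨c, hc⟩, Subtype.ext (show y = x * c by rw [hxa, hyb, e])⟩
  · obtain ⟨c, hc, e⟩ := b1_r hA h hb' ha h2
    exact Or.inr ⟨⟨c, hc⟩, Subtype.ext (show x = y * c by rw [hxa, hyb, e])⟩

theorem b1_left {P : Subgroup V} (hA : GrF A P) (x y : B1 hA.toGr) :
    (∃ c, y = c * x) ∨ ∃ c, x = c * y := by
  obtain ⟨x, hx⟩ := x
  obtain ⟨y, hy⟩ := y
  by_cases hx0 : x = 0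
  · subst hx0
    exact Or.inr ⟨0, Subtype.ext (zero_mul _).symm⟩
  by_cases hy0 : y = 0
  · subst hy0
    exact Or.inl ⟨0, Subtype.ext (zero_mul _).symm⟩
  obtain ⟨i, a, a', ha, ha', -, h1, hxa⟩ := b1_inv hA hx hx0
  obtain ⟨j, b, b', hb, hb', -, h2, hyb⟩ := b1_inv hA hy hy0
  rcases le_total i j with h | h
  · obtain ⟨c, hc, e⟩ := b1_l hA h ha' hb h1
    exact Or.inl ⟨⟨c, hc⟩, Subtype.ext (show y = c * x by rw [hxa, hyb, e])⟩
  · obtain ⟨c, hc, e⟩ := b1_l hA h hb' ha h2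
    exact Or.inr ⟨⟨c, hc⟩, Subtype.ext (show x = c * y by rw [hxa, hyb, e])⟩

end SingerBO
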