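import Mathlib

/-!
# Piece OC-A1: homogeneous linear systems over a chain ring (about 100 lines)

`S` is a ring in which of two elements one is a right multiple (`gauss_right`), resp. a left multiple (`gauss_left`), of the other one;
there may be zero divisors. A homogeneous system with more unknowns than equations has a non-zero solution.
* First for `ι = Fin m`, `κ = Fin n`, by induction on `m` (transport along `Fintype.equivFin`, `Equiv.sum_comp`). `m = 0`: `v = 1`. Step
  `m + 1`: in the row `T 0` there is `j₀` such that all `T 0 j` are right multiples `T 0 j = T 0 j₀ * c j` (induction over the finite set of the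
  columns, `n ≥ 1`). Write `n = n' + 1`; the unknowns `j ≠ j₀` are `j₀.succAbove j'`, put
  `v j₀ = - ∑ j', c (j₀.succAbove j') * v' j'` (`Fin.sum_univ_succAbove`): row `0` vanishes, and row `i + 1` becomes
  `∑ j', (T (i + 1) (j₀.succAbove j') - T (i + 1) j₀ * c (j₀.succAbove j')) * v' j' = 0`, `m` equations with `n' > m` unknowns.
* `gauss_left`: the same, or `gauss_right` for `Sᵐᵒᵖ`.
-/

namespace SingerBO

private theorem piv_gauss {S : Type} [Ring S]
    (hS : ∀ x y : S, (∃ c, y = x * c) ∨ ∃ c, x = y * c) {κ : Type} (f : κ → S) (s : Finset κ) :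
    s.Nonempty → ∃ j₀ ∈ s, ∀ j ∈ s, ∃ c, f j = f j₀ * c := by
  classical
  induction s using Finset.induction_on with
  | empty => exact fun h => absurd h Finset.not_nonempty_empty
  | insert a s ha ih =>
    intro _
    rcases s.eq_empty_or_nonempty with hs | hs
    · refine ⟨a, Finset.mem_insert_self a s, fun j hj => ⟨1, ?_⟩⟩
      rw [hs, Finset.mem_insert] at hj
      rcases hj with hj | hj
      · rw [hj, mul_one]
      · exact absurd hj (Finset.notMem_empty j)
    · obtain ⟨j₀, hj₀, h⟩ := ih hs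
      rcases hS (f j₀) (f a) with ⟨c, hc⟩ | ⟨c, hc⟩
      · refine ⟨j₀, Finset.mem_insert_of_mem hj₀, fun j hj => ?_⟩
        rcases Finset.mem_insert.1 hj with hj | hj
        · exact ⟨c, by rw [hj]; exact hc⟩
        · exact h j hj
      · refine ⟨a, Finset.mem_insert_self a s, fun j hj => ?_⟩
        rcases Finset.mem_insert.1 hj with hj | hj
        · exact ⟨1, by rw [hj, mul_one]⟩
        · obtain ⟨c', hc'⟩ := h j hj
          exact ⟨c * c', by rw [hc', hc, mul_assoc]⟩

private theorem fin_gauss {S : Type} [Ring S] [Nontrivial S]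
    (hS : ∀ x y : S, (∃ c, y = x * c) ∨ ∃ c, x = y * c) (m : ℕ) :
    ∀ (n : ℕ) (_ : m < n) (T : Fin m → Fin n → S),
      ∃ v : Fin n → S, v ≠ 0 ∧ ∀ i, ∑ j, T i j * v j = 0 := by
  induction m with
  | zero =>
    intro n hn T
    refine ⟨fun _ => 1, fun h => ?_, fun i => i.elim0⟩
    exact one_ne_zero (congrFun h ⟨0, hn⟩)
  | succ m ih =>
    intro n hn T
    obtain ⟨n', rfl⟩ : ∃ n', n = n' + 1 := ⟨n - 1, by omega⟩
    obtain ⟨j₀, _, hj₀⟩ := piv_gauss hS (T 0) Finset.univ Finset.univ_nonempty
    choose c hc using fun j => hj₀ j (Finset.mem_univ j)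
    obtain ⟨v', hv0, hv⟩ := ih n' (by omega) (fun i j' =>
      T i.succ (j₀.succAbove j') - T i.succ j₀ * c (j₀.succAbove j'))
    obtain ⟨v, hvd⟩ : ∃ v : Fin (n' + 1) → S,
        v = j₀.insertNth (α := fun _ => S) (- ∑ j', c (j₀.succAbove j') * v' j') v' := ⟨_, rfl⟩
    have h1 : v j₀ = - ∑ j', c (j₀.succAbove j') * v' j' := by
      rw [hvd, Fin.insertNth_apply_same]
    have h2 : ∀ j', v (j₀.succAbove j') = v' j' := by
      intro j'
      rw [hvd, Fin.insertNth_apply_succAbove]
    have hsum : ∀ i, ∑ j, T i j * v j =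
        ∑ j', (T i (j₀.succAbove j') - T i j₀ * c (j₀.succAbove j')) * v' j' := by
      intro i
      rw [Fin.sum_univ_succAbove _ j₀, h1, mul_neg, Finset.mul_sum, neg_add_eq_sub,
        ← Finset.sum_sub_distrib]
      refine Finset.sum_congr rfl fun j' _ => ?_
      rw [h2, sub_mul, mul_assoc]
    refine ⟨v, fun h => hv0 ?_, fun i => ?_⟩
    · funext j'
      rw [← h2, h]
      rfl
    · rw [hsum]
      refine Fin.cases ?_ (fun i => ?_) i
      · refine Finset.sum_eq_zero fun j' _ => ?_
        rw [← hc, sub_self, zero_mul]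
      · exact hv i

theorem gauss_right {S : Type} [Ring S] [Nontrivial S]
    (hS : ∀ x y : S, (∃ c, y = x * c) ∨ ∃ c, x = y * c) {ι κ : Type} [Fintype ι] [Fintype κ]
    (h : Fintype.card ι < Fintype.card κ) (T : ι → κ → S) :
    ∃ v : κ → S, v ≠ 0 ∧ ∀ i, ∑ j, T i j * v j = 0 := by
  classical
  obtain ⟨v, hv0, hv⟩ := fin_gauss hS (Fintype.card ι) (Fintype.card κ) h
    (fun i j => T ((Fintype.equivFin ι).symm i) ((Fintype.equivFin κ).symm j))
  refine ⟨fun j => v (Fintype.equivFin κ j), fun h0 => hv0 ?_, fun i => ?_⟩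
  · funext j
    have h1 := congrFun h0 ((Fintype.equivFin κ).symm j)
    simpa using h1
  · have h1 := hv (Fintype.equivFin ι i)
    rw [← h1, ← (Fintype.equivFin κ).sum_comp]
    refine Finset.sum_congr rfl fun j _ => ?_
    rw [Equiv.symm_apply_apply, Equiv.symm_apply_apply]

theorem gauss_left {S : Type} [Ring S] [Nontrivial S]
    (hS : ∀ x y : S, (∃ c, y = c * x) ∨ ∃ c, x = c * y) {ι κ : Type} [Fintype ι] [Fintype κ]
    (h : Fintype.card ι < Fintype.card κ) (T : ι → κ → S) :
    ∃ v : κ → S, v ≠ 0 ∧ ∀ i, ∑ j, v j * T i j = 0 := by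
  have hS' : ∀ x y : Sᵐᵒᵖ, (∃ c, y = x * c) ∨ ∃ c, x = y * c := by
    intro x y
    rcases hS x.unop y.unop with ⟨c, hc⟩ | ⟨c, hc⟩
    · left
      refine ⟨MulOpposite.op c, MulOpposite.unop_injective ?_⟩
      rw [MulOpposite.unop_mul, MulOpposite.unop_op]
      exact hc
    · right
      refine ⟨MulOpposite.op c, MulOpposite.unop_injective ?_⟩
      rw [MulOpposite.unop_mul, MulOpposite.unop_op]
      exact hc
  obtain ⟨v, hv0, hv⟩ := gauss_right hS' h (fun i j => MulOpposite.op (T i j))
  refine ⟨fun j => (v j).unop, fun h0 => hv0 ?_, fun i => ?_⟩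
  · funext j
    exact MulOpposite.unop_injective (congrFun h0 j)
  · have h1 := congrArg MulOpposite.unop (hv i)
    rw [Finset.unop_sum, MulOpposite.unop_zero] at h1
    exact h1

end SingerBO
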