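import Mathlib
import Pool.Agent.Lib_MP_394d50_oc.AChain
import Pool.Agent.Lib_MP_394d50_oc.AGauss

/-!
# Piece OC-A7: the left Ore condition (about 130 lines)

The mirror of AOreR.lean. `S = psupp x ∪ psupp y ⊆ P` (`mem_psupp`, `hA.van`, `pcf_mem`), `F`, `D` from `hP.right S`. For `q ∈ P` choose `τ q ∈ A q` not divisible by `2` (`hA.full`) and its
inverse `τ' q ∈ A q⁻¹` (`hA.unit`). System over `B1 hA.toGr` (`gauss_left`, `b1_left`; `Nontrivial`: `1 ≠ 0` as otherwise `1 = 2 * 0`) with the unknowns `F ⊕ F`, equations `D`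
(`Fintype.card_sum`, `Fintype.card_coe`):
`T r (inl q) = τ q * pcf x (q⁻¹ * r) * τ' r`, `T r (inr q) = - (τ q * pcf y (q⁻¹ * r) * τ' r)`, in `A (q * (q⁻¹ * r) * r⁻¹) = A 1`. Let `(b, b')` be
a non-zero solution; `u`, `w` with the coefficients `b q * τ q`, `b' q * τ q` at `q ∈ F` and `0` elsewhere (`exists_pp`; `A q`: `A (1 * q)`). Some `b q ≠ 0` or `b' q ≠ 0`, so
`b q * τ q ≠ 0` (`τ q * τ' q = 1`), `u ≠ 0` or `w ≠ 0`. `u * x = w * y` (`pp_ext`; `pcf_mul_left` with `s = F`): at `r ∈ D`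
the difference is `(∑ b T ..) * τ r = 0`; at `r ∉ D` all terms vanish, since `q⁻¹ * r ∈ S` would give `r = q * (q⁻¹ r) ∈ D`.
-/

namespace SingerBO

variable {R V : Type} [Ring R] [Group V] {A : V → AddSubgroup R}

/-- An element with the coefficients `b q * τ q`. -/
private theorem exists_el_orel {P : Subgroup V} (hA : GrF A P) (F : Finset V)
    (τ : V → R) (hτ : ∀ q ∈ F, τ q ∈ A q) (b : {q // q ∈ F} → B1 hA.toGr) :
    ∃ u : PP hA.toGr, (∀ q : {q // q ∈ F}, pcf u q = (b q : R) * τ q) ∧ psupp u ⊆ F := by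
  classical
  obtain ⟨u, hu1, hu2⟩ := exists_pp hA.toGr F
    (fun q => (if h : q ∈ F then ((b ⟨q, h⟩ : B1 hA.toGr) : R) else 0) * τ q) (fun q hq => by
      have h1 : (if h : q ∈ F then ((b ⟨q, h⟩ : B1 hA.toGr) : R) else 0) ∈ A 1 := by
        rw [dif_pos hq]
        exact (b ⟨q, hq⟩).2
      have h2 := hA.mul _ _ _ _ h1 (hτ q hq)
      rwa [one_mul] at h2)
  refine ⟨u, fun q => ?_, fun v hv => ?_⟩
  · rw [hu1 q q.2, dif_pos q.2]
  · by_contra hn
    exact (mem_psupp.1 hv) (hu2 v hn)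

/-- The coefficients of the product with this element. -/
private theorem pcf_el_orel {P : Subgroup V} (hA : GrF A P) (F : Finset V) (τ : V → R)
    (b : {q // q ∈ F} → B1 hA.toGr) (u : PP hA.toGr)
    (hu : ∀ q : {q // q ∈ F}, pcf u q = (b q : R) * τ q) (hs : psupp u ⊆ F) (x : PP hA.toGr) (r : V) :
    pcf (u * x) r = ∑ q : {q // q ∈ F}, (b q : R) * (τ q * pcf x ((q : V)⁻¹ * r)) := by
  rw [pcf_mul_left u x r F hs, ← Finset.sum_coe_sort]
  refine Finset.sum_congr rfl fun q _ => ?_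
  rw [hu q, mul_assoc]

theorem pp_oreL {P : Subgroup V} (hA : GrF A P) (hP : Fol2 P) (x y : PP hA.toGr) :
    ∃ u w : PP hA.toGr, (u ≠ 0 ∨ w ≠ 0) ∧ u * x = w * y := by
  classical
  have hSP : ∀ s ∈ psupp x ∪ psupp y, s ∈ P := by
    intro s hs
    by_contra hn
    rcases Finset.mem_union.1 hs with h | h
    · exact (mem_psupp.1 h) (hA.van s hn _ (pcf_mem x s))
    · exact (mem_psupp.1 h) (hA.van s hn _ (pcf_mem y s))
  obtain ⟨F, D, hF, hD, hSD, hcard⟩ := hP.right _ hSP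
  have hex : ∀ q : V, ∃ a b : R, q ∈ P → a ∈ A q ∧ b ∈ A q⁻¹ ∧ a * b = 1 ∧ b * a = 1 := by
    intro q
    by_cases hq : q ∈ P
    · obtain ⟨a, ha, ha2⟩ := hA.full q hq
      obtain ⟨b, hb, h1, h2⟩ := hA.unit q a ha ha2
      exact ⟨a, b, fun _ => ⟨ha, hb, h1, h2⟩⟩
    · exact ⟨0, 0, fun h => absurd h hq⟩
  choose τ τ' hτ using hex
  have hmem : ∀ (z : PP hA.toGr) (r : {r // r ∈ D}) (q : {q // q ∈ F}),
      τ q * pcf z ((q : V)⁻¹ * r) * τ' r ∈ B1 hA.toGr := by
    intro z r q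
    have h1 := (hτ q (hF q q.2)).1
    have h2 := (hτ r (hD r r.2)).2.1
    have h3 := hA.mul _ _ _ _ (hA.mul _ _ _ _ h1 (pcf_mem z ((q : V)⁻¹ * r))) h2
    have e : (q : V) * ((q : V)⁻¹ * r) * (r : V)⁻¹ = 1 := by group
    rw [mem_B1]
    rwa [e] at h3
  let T : {r // r ∈ D} → ({q // q ∈ F} ⊕ {q // q ∈ F}) → B1 hA.toGr := fun r k =>
    Sum.elim (fun q : {q // q ∈ F} =>
        (⟨τ q * pcf x ((q : V)⁻¹ * r) * τ' r, hmem x r q⟩ : B1 hA.toGr))
      (fun q : {q // q ∈ F} =>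
        -(⟨τ q * pcf y ((q : V)⁻¹ * r) * τ' r, hmem y r q⟩ : B1 hA.toGr)) k
  have : Nontrivial (B1 hA.toGr) := ⟨⟨0, 1, fun h => hA.nt ⟨0, by
    have h1 : (0 : R) = 1 := congrArg Subtype.val h
    rw [mul_zero, h1]⟩⟩⟩
  obtain ⟨v, hv, hsys⟩ := gauss_left (b1_left hA) (ι := {r // r ∈ D})
    (κ := {q // q ∈ F} ⊕ {q // q ∈ F}) (by
      rw [Fintype.card_sum, Fintype.card_coe, Fintype.card_coe]
      omega) T
  obtain ⟨u, hu, hus⟩ := exists_el_orel hA F τ (fun q hq => (hτ q (hF q hq)).1)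
    (fun q => v (Sum.inl q))
  obtain ⟨w, hw, hws⟩ := exists_el_orel hA F τ (fun q hq => (hτ q (hF q hq)).1)
    (fun q => v (Sum.inr q))
  have hz : ∀ (c : B1 hA.toGr) (q : {q // q ∈ F}), (c : R) * τ q = 0 → c = 0 := by
    intro c q h
    have h1 := (hτ q (hF q q.2)).2.2.1
    have h2 : (c : R) = 0 := by
      calc (c : R) = (c : R) * τ q * τ' q := by rw [mul_assoc, h1, mul_one]
        _ = 0 := by rw [h, zero_mul]
    exact Subtype.ext h2
  refine ⟨u, w, ?_, ?_⟩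
  · obtain ⟨k, hk⟩ := Function.ne_iff.1 hv
    rcases k with q | q
    · left
      rintro rfl
      have h1 := hu q
      rw [pcf_zero] at h1
      exact hk (hz _ q h1.symm)
    · right
      rintro rfl
      have h1 := hw q
      rw [pcf_zero] at h1
      exact hk (hz _ q h1.symm)
  · refine pp_ext fun r => ?_
    rw [pcf_el_orel hA F τ _ u hu hus x r, pcf_el_orel hA F τ _ w hw hws y r]
    by_cases hr : r ∈ D
    · have h1 := congrArg Subtype.val (hsys ⟨r, hr⟩)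
      rw [Fintype.sum_sum_type] at h1
      have h2 : (∑ q : {q // q ∈ F}, ((v (Sum.inl q) : B1 hA.toGr) : R) *
          (τ q * pcf x ((q : V)⁻¹ * r) * τ' r)) +
          ∑ q : {q // q ∈ F}, ((v (Sum.inr q) : B1 hA.toGr) : R) *
            (-(τ q * pcf y ((q : V)⁻¹ * r) * τ' r)) = 0 := by
        refine Eq.trans ?_ h1
        simp only [T, Sum.elim_inl, Sum.elim_inr, Subring.coe_add, AddSubmonoidClass.coe_finsetSum,
          Subring.coe_mul, Subring.coe_neg]
      have h3 : ∀ (c : {q // q ∈ F} → R) (z : PP hA.toGr),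
          ∑ q : {q // q ∈ F}, c q * (τ q * pcf z ((q : V)⁻¹ * r)) =
            (∑ q : {q // q ∈ F}, c q * (τ q * pcf z ((q : V)⁻¹ * r) * τ' r)) * τ r := by
        intro c z
        rw [Finset.sum_mul]
        refine Finset.sum_congr rfl fun q _ => ?_
        rw [mul_assoc (c q), mul_assoc (τ q * _), (hτ r (hD r hr)).2.2.2, mul_one]
      rw [h3 _ x, h3 _ y]
      congr 1
      have h4 : ∑ q : {q // q ∈ F}, ((v (Sum.inr q) : B1 hA.toGr) : R) *
            (-(τ q * pcf y ((q : V)⁻¹ * r) * τ' r)) =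
          -∑ q : {q // q ∈ F}, ((v (Sum.inr q) : B1 hA.toGr) : R) *
            (τ q * pcf y ((q : V)⁻¹ * r) * τ' r) := by
        rw [← Finset.sum_neg_distrib]
        exact Finset.sum_congr rfl fun q _ => by rw [mul_neg]
      rw [h4, ← sub_eq_add_neg, sub_eq_zero] at h2
      exact h2
    · have h1 : ∀ (z : PP hA.toGr), psupp z ⊆ psupp x ∪ psupp y → ∀ q : {q // q ∈ F},
          pcf z ((q : V)⁻¹ * r) = 0 := by
        intro z hz' q
        by_contra hne
        apply hr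
        have h2 := hSD _ (hz' (mem_psupp.2 hne)) q q.2
        rwa [mul_inv_cancel_left] at h2
      rw [Finset.sum_eq_zero, Finset.sum_eq_zero]
      · intro q _
        rw [h1 y Finset.subset_union_right q, mul_zero, mul_zero]
      · intro q _
        rw [h1 x Finset.subset_union_left q, mul_zero, mul_zero]

end SingerBO
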