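import Mathlib
import Pool.Agent.Lib_MP_394d50_oc.AChain
import Pool.Agent.Lib_MP_394d50_oc.AGauss

/-!
# Piece OC-A6: the right Ore condition (about 130 lines)

`S = psupp x ∪ psupp y ⊆ P` (`mem_psupp`, `hA.van`, `pcf_mem`), `F`, `D` from `hP.left S`. For `q ∈ P` choose `τ q ∈ A q` not divisible by `2` (`hA.full`) and its inverse
`τ' q ∈ A q⁻¹` (`hA.unit`). System over `B1 hA.toGr` (`gauss_right`, `b1_right`; `Nontrivial`: `1 ≠ 0` as otherwise `1 = 2 * 0`) with the unknowns `F ⊕ F`, equations `D`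
(`Fintype.card_sum`, `Fintype.card_coe`):
`T r (inl q) = τ' r * pcf x (r * q⁻¹) * τ q`, `T r (inr q) = - (τ' r * pcf y (r * q⁻¹) * τ q)`, in `A (r⁻¹ * (r * q⁻¹) * q) = A 1`. Let `(b, b')` be
a non-zero solution; `u`, `w` with the coefficients `τ q * b q`, `τ q * b' q` at `q ∈ F` and `0` elsewhere (`exists_pp`; `A q`: `A (q * 1)`). Some `b q ≠ 0` or `b' q ≠ 0`, so
`τ q * b q ≠ 0` (`τ' q * τ q = 1`), `u ≠ 0` or `w ≠ 0`. `x * u = y * w` (`pp_ext`; `pcf_mul_right` with `s = F`): at `r ∈ D`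
the difference is `τ r * (∑ T ..) = 0`; at `r ∉ D` all terms vanish, since `r * q⁻¹ ∈ S` would give `r = (r q⁻¹) * q ∈ D`.
-/

namespace SingerBO

variable {R V : Type} [Ring R] [Group V] {A : V → AddSubgroup R}

private theorem supp_sub_oreR (hA : Gr A) (u : PP hA) (F : Finset V) (h : ∀ v, v ∉ F → pcf u v = 0) :
    psupp u ⊆ F := by
  intro q hq
  by_contra hn
  exact mem_psupp.1 hq (h q hn)

theorem pp_oreR {P : Subgroup V} (hA : GrF A P) (hP : Fol2 P) (x y : PP hA.toGr) :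
    ∃ u w : PP hA.toGr, (u ≠ 0 ∨ w ≠ 0) ∧ x * u = y * w := by
  classical
  have hSx : ∀ s ∈ psupp x, s ∈ P := by
    intro s hs
    by_contra hn
    exact mem_psupp.1 hs (hA.van s hn _ (pcf_mem x s))
  have hSy : ∀ s ∈ psupp y, s ∈ P := by
    intro s hs
    by_contra hn
    exact mem_psupp.1 hs (hA.van s hn _ (pcf_mem y s))
  obtain ⟨F, D, hF, hD, hSF, hcard⟩ := hP.left (psupp x ∪ psupp y) (by
    intro s hs
    rcases Finset.mem_union.1 hs with h | h
    · exact hSx s h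
    · exact hSy s h)
  have hτ : ∀ q : V, ∃ t t' : R, q ∈ P → t ∈ A q ∧ t' ∈ A q⁻¹ ∧ t * t' = 1 ∧ t' * t = 1 := by
    intro q
    by_cases hq : q ∈ P
    · obtain ⟨t, ht, hn⟩ := hA.full q hq
      obtain ⟨t', ht', h1, h2⟩ := hA.unit q t ht hn
      exact ⟨t, t', fun _ => ⟨ht, ht', h1, h2⟩⟩
    · exact ⟨0, 0, fun h => absurd h hq⟩
  choose τ τ' hτ using hτ
  have hnt : Nontrivial (B1 hA.toGr) := by
    refine ⟨⟨1, 0, fun h => hA.nt ⟨0, ?_⟩⟩⟩
    have h1 : ((1 : B1 hA.toGr) : R) = ((0 : B1 hA.toGr) : R) := by rw [h]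
    rw [mul_zero]
    exact h1
  have hmem : ∀ (z : PP hA.toGr) (r q : V), r ∈ P → q ∈ P →
      τ' r * pcf z (r * q⁻¹) * τ q ∈ B1 hA.toGr := by
    intro z r q hr hq
    rw [mem_B1]
    have h1 := hA.mul _ _ _ _ (hA.mul _ _ _ _ (hτ r hr).2.1 (pcf_mem z (r * q⁻¹))) (hτ q hq).1
    have h2 : r⁻¹ * (r * q⁻¹) * q = 1 := by group
    rwa [h2] at h1
  obtain ⟨v, hv0, hv⟩ := gauss_right (S := B1 hA.toGr) (b1_right hA) (ι := {r // r ∈ D})
    (κ := {q // q ∈ F} ⊕ {q // q ∈ F}) (by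
      rw [Fintype.card_sum, Fintype.card_coe, Fintype.card_coe]
      omega)
    (fun r => Sum.elim (fun q => ⟨_, hmem x r.1 q.1 (hD _ r.2) (hF _ q.2)⟩)
      (fun q => -⟨_, hmem y r.1 q.1 (hD _ r.2) (hF _ q.2)⟩))
  obtain ⟨b, hb⟩ : ∃ b : V → R, b = fun q => if h : q ∈ F then ((v (Sum.inl ⟨q, h⟩) : B1 hA.toGr) : R) else 0 :=
    ⟨_, rfl⟩
  obtain ⟨b', hb'⟩ : ∃ b' : V → R, b' = fun q => if h : q ∈ F then ((v (Sum.inr ⟨q, h⟩) : B1 hA.toGr) : R) else 0 :=
    ⟨_, rfl⟩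
  have hbv : ∀ q : {q // q ∈ F}, b q.1 = ((v (Sum.inl q) : B1 hA.toGr) : R) := by
    intro q
    rw [hb]
    exact dif_pos q.2
  have hbv' : ∀ q : {q // q ∈ F}, b' q.1 = ((v (Sum.inr q) : B1 hA.toGr) : R) := by
    intro q
    rw [hb']
    exact dif_pos q.2
  have hc : ∀ q ∈ F, τ q * b q ∈ A q := by
    intro q hq
    have h1 : b q ∈ A 1 := by
      rw [hbv ⟨q, hq⟩]
      exact (v (Sum.inl ⟨q, hq⟩)).2
    have h2 := hA.mul _ _ _ _ (hτ q (hF q hq)).1 h1
    rwa [mul_one] at h2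
  have hc' : ∀ q ∈ F, τ q * b' q ∈ A q := by
    intro q hq
    have h1 : b' q ∈ A 1 := by
      rw [hbv' ⟨q, hq⟩]
      exact (v (Sum.inr ⟨q, hq⟩)).2
    have h2 := hA.mul _ _ _ _ (hτ q (hF q hq)).1 h1
    rwa [mul_one] at h2
  obtain ⟨u, hu1, hu2⟩ := exists_pp hA.toGr F (fun q => τ q * b q) hc
  obtain ⟨w, hw1, hw2⟩ := exists_pp hA.toGr F (fun q => τ q * b' q) hc'
  have hcan : ∀ (q : V) (z : R), q ∈ F → τ q * z = 0 → z = 0 := by
    intro q z hq h
    rw [← one_mul z, ← (hτ q (hF q hq)).2.2.2, mul_assoc, h, mul_zero]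
  refine ⟨u, w, ?_, pp_ext fun r => ?_⟩
  · obtain ⟨j, hj⟩ := Function.ne_iff.1 hv0
    rcases j with q | q
    · left
      intro h0
      apply hj
      apply Subtype.ext
      have h1 : τ q.1 * b q.1 = 0 := by
        rw [← hu1 q.1 q.2, h0]
        rfl
      rw [← hbv q]
      exact hcan q.1 _ q.2 h1
    · right
      intro h0
      apply hj
      apply Subtype.ext
      have h1 : τ q.1 * b' q.1 = 0 := by
        rw [← hw1 q.1 q.2, h0]
        rfl
      rw [← hbv' q]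
      exact hcan q.1 _ q.2 h1
  · rw [pcf_mul_right x u r F (supp_sub_oreR hA.toGr u F hu2),
      pcf_mul_right y w r F (supp_sub_oreR hA.toGr w F hw2)]
    by_cases hr : r ∈ D
    · have h := congrArg (B1 hA.toGr).subtype (hv ⟨r, hr⟩)
      rw [map_sum, map_zero, Fintype.sum_sum_type] at h
      simp only [map_mul, Sum.elim_inl, Sum.elim_inr, map_neg, Subring.subtype_apply, neg_mul,
        Finset.sum_neg_distrib] at h
      have h1 : ∑ q : {q // q ∈ F}, τ' r * pcf x (r * q.1⁻¹) * τ q.1 * ((v (Sum.inl q) : B1 hA.toGr) : R) =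
          ∑ q ∈ F, τ' r * pcf x (r * q⁻¹) * τ q * b q := by
        rw [← Finset.sum_coe_sort F (fun q => τ' r * pcf x (r * q⁻¹) * τ q * b q)]
        exact Finset.sum_congr rfl fun q _ => by rw [hbv q]
      have h2 : ∑ q : {q // q ∈ F}, τ' r * pcf y (r * q.1⁻¹) * τ q.1 * ((v (Sum.inr q) : B1 hA.toGr) : R) =
          ∑ q ∈ F, τ' r * pcf y (r * q⁻¹) * τ q * b' q := by
        rw [← Finset.sum_coe_sort F (fun q => τ' r * pcf y (r * q⁻¹) * τ q * b' q)]
        exact Finset.sum_congr rfl fun q _ => by rw [hbv' q]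
      rw [h1, h2] at h
      have h3 := congrArg (fun z => τ r * z) h
      simp only [mul_add, mul_neg, mul_zero, Finset.mul_sum, ← mul_assoc, (hτ r (hD r hr)).2.2.1, one_mul] at h3
      rw [← sub_eq_add_neg, sub_eq_zero] at h3
      refine Eq.trans ?_ (h3.trans ?_)
      · exact Finset.sum_congr rfl fun q hq => by rw [hu1 q hq, mul_assoc]
      · exact Finset.sum_congr rfl fun q hq => by rw [hw1 q hq, mul_assoc]
    · have hz : ∀ q ∈ F, r * q⁻¹ ∉ psupp x ∪ psupp y := by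
        intro q hq hm
        apply hr
        have h1 := hSF _ hm q hq
        rwa [inv_mul_cancel_right] at h1
      rw [Finset.sum_eq_zero, Finset.sum_eq_zero]
      · intro q hq
        have h1 : pcf y (r * q⁻¹) = 0 := by
          by_contra hn
          exact hz q hq (Finset.mem_union_right _ (mem_psupp.2 hn))
        rw [h1, zero_mul]
      · intro q hq
        have h1 : pcf x (r * q⁻¹) = 0 := by
          by_contra hn
          exact hz q hq (Finset.mem_union_left _ (mem_psupp.2 hn))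
        rw [h1, zero_mul]

end SingerBO
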