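import Mathlib
import Pool.Agent.Lib_MP_394d50_oc.ADefs

/-!
# Piece OC-A3: the graded ring, divisibility by 2 (about 110 lines)

* `pp_half`: (→) `pcf_two`. (←) every coefficient is `2 * (something in A v)` by `hA.div`; `exists_pp` with `s = psupp x`.
* `pp_tf`: `pcf_two`, `hA.tf`. `pp_nt`: `pcf_one`, `hA.nt`.
* `pp_pow`: (→) `pcf_pow`. (←) the same with `2 ^ k`: by induction on `k` (`hA.tf`): if `x = 2 * x'` and all coefficients of `x` are divisible by `2 ^ (k + 1)`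
  then those of `x'` are divisible by `2 ^ k`.
* `pp_fac`: for `v ∈ psupp x` (non-empty) `pcf x v = 2 ^ (j v) * y v`, `y v ∈ A v`, `¬ T2 (y v)` (`hA.fac`). `j` the least of the `j v`
  (`Finset.exists_min_image`), `y` with the coefficients `2 ^ (j v - j) * y v`.
* `incl_pow`: coefficientwise, `pcf_incl`, `pp_pow` (twice).
-/

namespace SingerBO

variable {R V : Type} [Ring R] [Group V] {A : V → AddSubgroup R}

private theorem a2_pow (hA : Gr A) (k : ℕ) : ∀ (v : V) (a : R), a ∈ A v → (∃ z : R, a = 2 ^ k * z) →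
    ∃ y ∈ A v, a = 2 ^ k * y := by
  induction k with
  | zero =>
    intro v a ha _
    exact ⟨a, ha, by rw [pow_zero, one_mul]⟩
  | succ k ih =>
    intro v a ha hz
    obtain ⟨z, hz⟩ := hz
    obtain ⟨y, hy, hay⟩ := hA.div v a ha ⟨2 ^ k * z, by rw [hz, pow_succ', mul_assoc]⟩
    have h0 : y - 2 ^ k * z = 0 := by
      apply hA.tf
      rw [mul_sub, ← hay, hz, pow_succ', mul_assoc, sub_self]
    obtain ⟨y', hy', h'⟩ := ih v y hy ⟨z, sub_eq_zero.mp h0⟩
    exact ⟨y', hy', by rw [hay, h', pow_succ', mul_assoc]⟩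

theorem pp_half (hA : Gr A) (x : PP hA) : T2 x ↔ ∀ v, T2 (pcf x v) := by
  classical
  constructor
  · rintro ⟨z, hz⟩ v
    exact ⟨pcf z v, by rw [hz, pcf_two]⟩
  · intro h
    have h1 : ∀ v, ∃ y ∈ A v, pcf x v = 2 * y := fun v => hA.div v _ (pcf_mem x v) (h v)
    choose c hc hc' using h1
    obtain ⟨y, hy, hy0⟩ := exists_pp hA (psupp x) c fun v _ => hc v
    refine ⟨y, pp_ext fun v => ?_⟩
    rw [pcf_two]
    by_cases hv : v ∈ psupp x
    · rw [hy v hv, ← hc' v]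
    · rw [hy0 v hv, mul_zero]
      by_contra hn
      exact hv (mem_psupp.mpr hn)

theorem pp_tf (hA : Gr A) (x : PP hA) (h : 2 * x = 0) : x = 0 := by
  refine pp_ext fun v => ?_
  rw [pcf_zero]
  apply hA.tf
  rw [← pcf_two, h, pcf_zero]

theorem pp_nt (hA : Gr A) : ¬ T2 (1 : PP hA) := by
  rintro ⟨z, hz⟩
  apply hA.nt
  refine ⟨pcf z 1, ?_⟩
  rw [← pcf_two, ← hz, pcf_one]

theorem pp_pow (hA : Gr A) (k : ℕ) (x : PP hA) :
    (∃ y, x = 2 ^ k * y) ↔ ∀ v, ∃ z : R, pcf x v = 2 ^ k * z := by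
  classical
  constructor
  · rintro ⟨y, hy⟩ v
    exact ⟨pcf y v, by rw [hy, pcf_pow]⟩
  · intro h
    have h1 : ∀ v, ∃ y ∈ A v, pcf x v = 2 ^ k * y := fun v => a2_pow hA k v _ (pcf_mem x v) (h v)
    choose c hc hc' using h1
    obtain ⟨y, hy, hy0⟩ := exists_pp hA (psupp x) c fun v _ => hc v
    refine ⟨y, pp_ext fun v => ?_⟩
    rw [pcf_pow]
    by_cases hv : v ∈ psupp x
    · rw [hy v hv, ← hc' v]
    · rw [hy0 v hv, mul_zero]
      by_contra hn
      exact hv (mem_psupp.mpr hn)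

theorem pp_fac {P : Subgroup V} (hA : GrF A P) (x : PP hA.toGr) (hx : x ≠ 0) :
    ∃ (j : ℕ) (y : PP hA.toGr), ¬ T2 y ∧ x = 2 ^ j * y := by
  classical
  have hne : (psupp x).Nonempty := by
    by_contra hn
    apply hx
    refine pp_ext fun v => ?_
    rw [pcf_zero]
    by_contra h
    exact hn ⟨v, mem_psupp.mpr h⟩
  have h1 : ∀ v, ∃ (j : ℕ) (y : R), pcf x v ≠ 0 → y ∈ A v ∧ ¬ T2 y ∧ pcf x v = 2 ^ j * y := by
    intro v
    by_cases h : pcf x v = 0
    · exact ⟨0, 0, fun h' => absurd h h'⟩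
    · obtain ⟨j, y, h2⟩ := hA.fac v _ (pcf_mem x v) h
      exact ⟨j, y, fun _ => h2⟩
  choose j y h1 using h1
  obtain ⟨w, hw, hmin⟩ := Finset.exists_min_image (psupp x) j hne
  have hmem : ∀ v ∈ psupp x, 2 ^ (j v - j w) * y v ∈ A v := by
    intro v hv
    obtain ⟨h2, -, -⟩ := h1 v (mem_psupp.mp hv)
    have h3 : ∀ k : ℕ, (2 : R) ^ k * y v ∈ A v := by
      intro k
      induction k with
      | zero => rw [pow_zero, one_mul]; exact h2
      | succ k ih =>
        rw [pow_succ', mul_assoc, two_mul]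
        exact add_mem ih ih
    exact h3 _
  obtain ⟨z, hz, hz0⟩ := exists_pp hA.toGr (psupp x) (fun v => 2 ^ (j v - j w) * y v) hmem
  refine ⟨j w, z, ?_, pp_ext fun v => ?_⟩
  · intro h
    have h2 := (pp_half hA.toGr z).mp h w
    rw [hz w hw, Nat.sub_self, pow_zero, one_mul] at h2
    exact (h1 w (mem_psupp.mp hw)).2.1 h2
  · rw [pcf_pow]
    by_cases hv : v ∈ psupp x
    · rw [hz v hv, ← mul_assoc, ← pow_add, Nat.add_sub_cancel' (hmin v hv)]
      exact (h1 v (mem_psupp.mp hv)).2.2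
    · rw [hz0 v hv, mul_zero]
      by_contra hn
      exact hv (mem_psupp.mpr hn)

theorem incl_pow {B : V → AddSubgroup R} (hA : Gr A) (hB : Gr B) (h : ∀ v, B v ≤ A v) (k : ℕ)
    (x : PP hB) (y : PP hA) (e : ppIncl hA hB h x = 2 ^ k * y) : ∃ z : PP hB, x = 2 ^ k * z := by
  rw [pp_pow hB k x]
  intro v
  refine ⟨pcf y v, ?_⟩
  rw [← pcf_incl hA hB h x v, e, pcf_pow]

end SingerBO
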