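import Mathlib
import Pool.Agent.Lib_MP_394d50_oc.ABas

/-!
# Piece OC-A4: the graded ring is prime modulo 2 (about 90 lines)

Suppose `¬ T2 x`, `¬ T2 y`: `sx = {v ∈ psupp x | ¬ T2 (pcf x v)}` and `sy` are non-empty (`pp_half`; `T2 0`). `b₀` the `r`-greatest element of `sy` (a finite non-empty set
has an element `b₀` with `r b b₀` for all other `b`: induction). `a₀ ∈ sx` such that `a₀ * b₀` is the greatest of the `a * b₀`, `a ∈ sx`. Then
`a * b = a₀ * b₀`, `a ∈ sx`, `b ∈ sy` implies `a = a₀`, `b = b₀` (`r (a b) (a b₀)` if `b ≠ b₀`, `r (a b₀) (a₀ b₀)` if `a ≠ a₀`; `irrefl`, `trans`). So in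
`pcf (x * y) (a₀ * b₀) = ∑ a ∈ psupp x, pcf x a * pcf y (a⁻¹ * (a₀ * b₀))` (`pcf_mul_left`) all terms with `a ≠ a₀` are divisible by `2`
(`pcf x a` or `pcf y _` is; `2` is central: `two_pow_comm'`, or `(Commute.ofNat_left 2 _)`), so `pcf x a₀ * pcf y b₀` is. But both factors have
inverses (`hA.unit`), so `1` is divisible by `2`, `hA.nt`.
-/

namespace SingerBO

variable {R V : Type} [Ring R] [Group V] {A : V → AddSubgroup R}

private theorem ap_two_comm (x : R) : 2 * x = x * 2 := (Commute.ofNat_left 2 x).eq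

private theorem ap_T2_zero : T2 (0 : R) := ⟨0, by rw [mul_zero]⟩

private theorem ap_T2_add {x y : R} (hx : T2 x) (hy : T2 y) : T2 (x + y) := by
  obtain ⟨a, rfl⟩ := hx
  obtain ⟨b, rfl⟩ := hy
  exact ⟨a + b, (mul_add _ _ _).symm⟩

private theorem ap_T2_neg {x : R} (hx : T2 x) : T2 (-x) := by
  obtain ⟨a, rfl⟩ := hx
  exact ⟨-a, (mul_neg _ _).symm⟩

private theorem ap_T2_mul_right {x : R} (y : R) (hx : T2 x) : T2 (x * y) := by
  obtain ⟨a, rfl⟩ := hx
  exact ⟨a * y, mul_assoc _ _ _⟩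

private theorem ap_T2_mul_left {x : R} (y : R) (hx : T2 x) : T2 (y * x) := by
  obtain ⟨a, rfl⟩ := hx
  exact ⟨y * a, by rw [← mul_assoc, ← ap_two_comm, mul_assoc]⟩

omit [Group V] in
private theorem ap_T2_sum (s : Finset V) (f : V → R) (h : ∀ a ∈ s, T2 (f a)) :
    T2 (∑ a ∈ s, f a) := by
  classical
  induction s using Finset.induction_on with
  | empty => rw [Finset.sum_empty]; exact ap_T2_zero
  | insert a s ha ih =>
    rw [Finset.sum_insert ha]
    exact ap_T2_add (h a (Finset.mem_insert_self _ _)) (ih fun b hb => h b (Finset.mem_insert_of_mem hb))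

/-- A finite non-empty set has an element whose image is the greatest one. -/
private theorem ap_max {r : V → V → Prop} (hr : LO r) (g : V → V) (s : Finset V) (hs : s.Nonempty) :
    ∃ a₀ ∈ s, ∀ a ∈ s, g a ≠ g a₀ → r (g a) (g a₀) := by
  classical
  induction hs using Finset.Nonempty.cons_induction with
  | singleton a =>
    refine ⟨a, Finset.mem_singleton_self a, fun b hb h => ?_⟩
    rw [Finset.mem_singleton.mp hb] at h
    exact absurd rfl h
  | cons a s ha hs ih =>
    obtain ⟨b, hb, hmax⟩ := ih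
    by_cases h : g a = g b
    · refine ⟨b, Finset.mem_cons_of_mem hb, fun c hc hne => ?_⟩
      rcases Finset.mem_cons.mp hc with rfl | hc
      · exact absurd h hne
      · exact hmax c hc hne
    · rcases hr.total (g a) (g b) h with h1 | h1
      · refine ⟨b, Finset.mem_cons_of_mem hb, fun c hc hne => ?_⟩
        rcases Finset.mem_cons.mp hc with rfl | hc
        · exact h1
        · exact hmax c hc hne
      · refine ⟨a, Finset.mem_cons_self a s, fun c hc hne => ?_⟩
        rcases Finset.mem_cons.mp hc with rfl | hc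
        · exact absurd rfl hne
        · by_cases h2 : g c = g b
          · rw [h2]; exact h1
          · exact hr.trans _ _ _ (hmax c hc h2) h1

theorem pp_prime {r : V → V → Prop} (hr : LO r) (hA : Gr A) (x y : PP hA) (h : T2 (x * y)) :
    T2 x ∨ T2 y := by
  classical
  by_contra hcon
  obtain ⟨hx, hy⟩ := not_or.mp hcon
  rw [pp_half hA] at hx hy
  obtain ⟨vx, hvx⟩ := not_forall.mp hx
  obtain ⟨vy, hvy⟩ := not_forall.mp hy
  have hmem : ∀ (z : PP hA) (v : V), ¬ T2 (pcf z v) → v ∈ (psupp z).filter (fun v => ¬ T2 (pcf z v)) := by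
    intro z v hv
    refine Finset.mem_filter.mpr ⟨mem_psupp.mpr fun h0 => hv ?_, hv⟩
    rw [h0]; exact ap_T2_zero
  obtain ⟨b₀, hb₀, hbmax⟩ := ap_max hr id _ ⟨vy, hmem y vy hvy⟩
  obtain ⟨a₀, ha₀, hamax⟩ := ap_max hr (fun a => a * b₀) _ ⟨vx, hmem x vx hvx⟩
  have hxa := (Finset.mem_filter.mp ha₀).2
  have hyb := (Finset.mem_filter.mp hb₀).2
  have hterm : ∀ a ∈ psupp x, a ≠ a₀ → T2 (pcf x a * pcf y (a⁻¹ * (a₀ * b₀))) := by
    intro a _ hne
    by_contra hcon2
    have h1 : ¬ T2 (pcf x a) := fun h => hcon2 (ap_T2_mul_right _ h)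
    have h2 : ¬ T2 (pcf y (a⁻¹ * (a₀ * b₀))) := fun h => hcon2 (ap_T2_mul_left _ h)
    have h3 : r (a * b₀) (a₀ * b₀) := hamax a (hmem x a h1) (fun e => hne (mul_right_cancel e))
    by_cases h4 : a⁻¹ * (a₀ * b₀) = b₀
    · rw [inv_mul_eq_iff_eq_mul] at h4
      exact hne (mul_right_cancel h4).symm
    · have h5 := hbmax _ (hmem y _ h2) h4
      have h6 : r (a * (a⁻¹ * (a₀ * b₀))) (a * b₀) := hr.left _ _ _ h5
      rw [mul_inv_cancel_left] at h6
      exact hr.irrefl _ (hr.trans _ _ _ h6 h3)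
  have hsum := pcf_mul_left x y (a₀ * b₀) (psupp x) (Finset.Subset.refl _)
  rw [← Finset.add_sum_erase _ _ (Finset.mem_filter.mp ha₀).1, inv_mul_cancel_left] at hsum
  have hT : T2 (pcf x a₀ * pcf y b₀) := by
    have e : pcf x a₀ * pcf y b₀ = pcf (x * y) (a₀ * b₀) +
        -(∑ a ∈ (psupp x).erase a₀, pcf x a * pcf y (a⁻¹ * (a₀ * b₀))) := by
      rw [hsum]; abel
    rw [e]
    refine ap_T2_add ((pp_half hA _).mp h _) (ap_T2_neg (ap_T2_sum _ _ fun a ha => ?_))
    exact hterm a (Finset.mem_of_mem_erase ha) (Finset.ne_of_mem_erase ha)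
  obtain ⟨u, -, -, hu⟩ := hA.unit a₀ _ (pcf_mem x a₀) hxa
  obtain ⟨w, -, hw, -⟩ := hA.unit b₀ _ (pcf_mem y b₀) hyb
  refine hA.nt ?_
  have h1 : T2 (u * (pcf x a₀ * pcf y b₀) * w) := ap_T2_mul_right _ (ap_T2_mul_left _ hT)
  have h2 : u * (pcf x a₀ * pcf y b₀) * w = 1 := by
    rw [← mul_assoc, hu, one_mul, hw]
  rw [h2] at h1
  exact h1

end SingerBO
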