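import Mathlib
import Pool.Agent.Lib_MP_394d50_oc.APrime
import Pool.Agent.Lib_MP_394d50_oc.AOreR
import Pool.Agent.Lib_MP_394d50_oc.AOreL

/-!
# The graded ring is a 2-adic Ore domain
-/

namespace SingerBO

variable {R V : Type} [Ring R] [Group V] {A : V → AddSubgroup R}

theorem od_pp {r : V → V → Prop} (hr : LO r) {P : Subgroup V} (hA : GrF A P) (hP : Fol2 P) :
    OD (PP hA.toGr) where
  tf := pp_tf _
  nt := pp_nt _
  prime := pp_prime hr _
  fac := pp_fac hA
  oreR := pp_oreR hA hP
  oreL := pp_oreL hA hP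

end SingerBO
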