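import Mathlib
import Pool.Agent.Lib_MP_394d50_oc.ADefs
import Pool.Agent.Lib_MP_394d50_pb.EGr

/-!
# Piece OC-A8: the graded families of an extension (about 80 lines)

`gr_GA` gives `Gr`. `fac`: `r = ee a h`, `a ∈ O`, `a ∈ DH t (H ∩ N)`, `h ∈ H`, `f h = v`; `r ≠ 0` gives `a ≠ 0` (`ee_zero`), `a = 2 ^ j * u` with `u, u⁻¹ ∈ O` (`hR.fac`), `j ≥ 0` (`dv_two_unit`,
`dv_iff_mem`), `u = 2 ^ (-j) * a ∈ DH t _`; `ee a h = 2 ^ j * ee u h` (check on `m`, `x`; or by induction with `ee_add`), `¬ T2 (ee u h)` by `ee_two` (`¬ Dv O 1 u`). `full`: `v = f h`, `ee 1 h`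
(`ee_mem_GA`, `ee_two`, `not_dv_one`). `van`: by definition (`mem_GA`).
-/

namespace SingerBO

private theorem two_mem_DH {G E : Type} [Group G] [DivisionRing E] (t : G →* Eˣ) (H : Subgroup G) :
    (2 : E) ∈ DH t H := by
  have h : (1 : E) + 1 ∈ DH t H := add_mem (one_mem _) (one_mem _)
  rwa [one_add_one_eq_two] at h

private theorem two_mem_O {E : Type} [DivisionRing E] (O : Subring E) : (2 : E) ∈ O := by
  have h : (1 : E) + 1 ∈ O := add_mem (one_mem _) (one_mem _)
  rwa [one_add_one_eq_two] at h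

/-- `2 ^ j` times an operator. -/
private theorem ee_pow {G E : Type} [Group G] [DivisionRing E] {N : Subgroup G} [N.Normal]
    {O : Subring E} {t : N →* Eˣ} {α : G → E →+* E} (hT : Tw O t α) (u : O) (g : G) (j : ℕ) :
    ee hT (2 ^ j * u) g = 2 ^ j * ee hT u g := by
  induction j with
  | zero => rw [pow_zero, pow_zero, one_mul, one_mul]
  | succ j ih =>
    rw [pow_succ', pow_succ', mul_assoc, mul_assoc, ← ih, two_mul, two_mul, ee_add]

theorem grf_GA {G V E : Type} [Group G] [Group V] (f : G →* V) [DivisionRing E] {O : Subring E}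
    {t : f.ker →* Eˣ} {α : G → E →+* E} (hR : VR O) (hT : Tw O t α)
    (hm : ∀ n, ((t n : Eˣ) : E) ∈ O) (H : Subgroup G) : GrF (GA f hT hm H) (H.map f) where
  toGr := gr_GA f hR hT hm H
  fac := by
    rintro v x (rfl | ⟨a, ha, h, hh, hv, rfl⟩) hx
    · exact absurd rfl hx
    · have ha0 : (a : E) ≠ 0 := by
        intro h0
        have e : a = 0 := Subtype.ext h0
        exact hx (by rw [e, ee_zero])
      obtain ⟨j, u, hu, hu', hau⟩ := hR.fac (a : E) ha0
      have hu0 : u ≠ 0 := by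
        intro h0
        rw [h0, mul_zero] at hau
        exact ha0 hau
      have hj : 0 ≤ j := by
        have h1 : Dv O 0 (a : E) := (dv_iff_mem _).mpr a.2
        rw [hau] at h1
        exact (dv_two_unit hR hu hu' hu0 j 0).mp h1
      obtain ⟨n, rfl⟩ := Int.eq_ofNat_of_zero_le hj
      have hau' : (a : E) = 2 ^ n * u := by
        rw [hau]
        congr 1
        exact zpow_natCast 2 n
      have h2 : (2 : E) ^ n ≠ 0 := pow_ne_zero _ hR.two_ne
      have huD : u ∈ DH t (H.subgroupOf f.ker) := by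
        have e : u = ((2 : E) ^ n)⁻¹ * (a : E) := by
          rw [hau', ← mul_assoc, inv_mul_cancel₀ h2, one_mul]
        rw [e]
        exact mul_mem (inv_mem (pow_mem (two_mem_DH t _) n)) ha
      have ea : a = 2 ^ n * (⟨u, hu⟩ : O) := Subtype.ext hau'
      refine ⟨n, ee hT ⟨u, hu⟩ h, Or.inr ⟨⟨u, hu⟩, huD, h, hh, hv, rfl⟩, ?_, ?_⟩
      · intro hd
        have h3 : Dv O 1 u := (ee_two hR hT hm ⟨u, hu⟩ h).mp hd
        have e : u = (2 : E) ^ (0 : ℤ) * u := by rw [zpow_zero, one_mul]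
        rw [e] at h3
        have h4 := (dv_two_unit hR hu hu' hu0 0 1).mp h3
        omega
      · rw [← ee_pow, ← ea]
  full := by
    rintro v ⟨h, hh, rfl⟩
    refine ⟨ee hT 1 h, ee_mem_GA f hT hm hh, fun hd => ?_⟩
    exact not_dv_one hR ((ee_two hR hT hm 1 h).mp hd)
  van := by
    rintro v hv x (rfl | ⟨a, ha, h, hh, hv', rfl⟩)
    · rfl
    · exact absurd ⟨h, hh, hv'⟩ hv

end SingerBO
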