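import Mathlib
import Pool.Agent.Lib_MP_394d50_oc.ADefs

/-!
# Piece OC-L1: the division ring of fractions (about 100 lines)

* `OD.domain`: `x = 2 ^ i * x'`, `y = 2 ^ j * y'` (`fac`), `2 ^ (i + j) * (x' * y') = 0` (`2` is central: `two_pow_comm'`), so `x' * y' = 0` (`tf`, induction) `= 2 * 0`, contradiction
  to `prime`.
* `od_frac`: as `gore_loc` in `Lib_MP_394d50_bo/GOre.lean` (read it): `OreLocalization (nonZeroDivisors S) S` is a division ring; `NoZeroDivisors S`, `Nontrivial S` (`nt`: if
  `1 = 0` then `1 = 2 * 0`); the Ore condition from `oreL x y` for `y ≠ 0`: `u * x = w * y`, and `u ≠ 0` since otherwise `w * y = 0`, `w = 0`. Injectivity of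
  `numeratorRingHom`: `OreLocalization.numeratorHom_inj` or `..._injective` (`nonZeroDivisors`), or from the universal property. Every `e` is `s⁻¹ x`, so `ι s * e = ι x`, `s ≠ 0`. For the right
  fractions: `oreR x s`: `x * u = s * w`, `u ≠ 0` since otherwise `s * w = 0`; `e * ι u = (ι s)⁻¹ * ι x * ι u = ι w`.
-/

namespace SingerBO

private theorem two_pow_cc {S : Type} [Ring S] (j : ℕ) (x : S) : x * 2 ^ j = 2 ^ j * x :=
  ((Commute.ofNat_right x 2).pow_right j).eq

private theorem tf_pow {S : Type} [Ring S] (h : OD S) (k : ℕ) {z : S} (e : 2 ^ k * z = 0) : z = 0 := by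
  induction k with
  | zero => rwa [pow_zero, one_mul] at e
  | succ k ih =>
    rw [pow_succ', mul_assoc] at e
    exact ih (h.tf _ e)

theorem OD.domain {S : Type} [Ring S] (h : OD S) {x y : S} (e : x * y = 0) : x = 0 ∨ y = 0 := by
  by_contra hne
  rw [not_or] at hne
  obtain ⟨hx, hy⟩ := hne
  obtain ⟨i, x', hx', rfl⟩ := h.fac x hx
  obtain ⟨j, y', hy', rfl⟩ := h.fac y hy
  have h1 : 2 ^ (i + j) * (x' * y') = 0 := by
    have h2 : 2 ^ i * x' * (2 ^ j * y') = 2 ^ (i + j) * (x' * y') := by
      rw [mul_assoc, ← mul_assoc x', two_pow_cc, pow_add]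
      simp only [mul_assoc]
    rw [← h2]
    exact e
  have h3 : x' * y' = 0 := tf_pow h _ h1
  rcases h.prime x' y' ⟨0, by rw [h3, mul_zero]⟩ with h4 | h4
  · exact hx' h4
  · exact hy' h4

theorem od_frac {S : Type} [Ring S] (h : OD S) : ∃ (E : Type) (_ : DivisionRing E) (ι : S →+* E),
    Function.Injective ι ∧ (∀ e : E, ∃ s x : S, s ≠ 0 ∧ ι s * e = ι x) ∧
      ∀ e : E, ∃ s x : S, s ≠ 0 ∧ e * ι s = ι x := by
  classical
  have hnt : (1 : S) ≠ 0 := fun e => h.nt ⟨0, by rw [e, mul_zero]⟩
  have : Nontrivial S := ⟨⟨1, 0, hnt⟩⟩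
  have : NoZeroDivisors S := ⟨fun e => h.domain e⟩
  have hne : Nonempty (OreLocalization.OreSet (nonZeroDivisors S)) := by
    rw [OreLocalization.nonempty_oreSet_iff_of_noZeroDivisors]
    intro r s
    have hs : (s : S) ≠ 0 := nonZeroDivisors.coe_ne_zero s
    obtain ⟨u, w, huw, e⟩ := h.oreL r (s : S)
    have hu : u ≠ 0 := by
      rintro rfl
      rw [zero_mul] at e
      rcases huw with h1 | h1
      · exact h1 rfl
      · rcases h.domain e.symm with h2 | h2
        · exact h1 h2
        · exact hs h2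
    exact ⟨w, ⟨u, mem_nonZeroDivisors_of_ne_zero hu⟩, e⟩
  obtain ⟨inst⟩ := hne
  have hfr : ∀ e : OreLocalization (nonZeroDivisors S) S, ∃ s x : S, s ≠ 0 ∧
      (OreLocalization.numeratorRingHom : S →+* OreLocalization (nonZeroDivisors S) S) s * e =
        OreLocalization.numeratorRingHom x := by
    intro z
    induction z with
    | _ r s =>
      refine ⟨(s : S), r, nonZeroDivisors.coe_ne_zero s, ?_⟩
      show (((s : S) : S) /ₒ (1 : nonZeroDivisors S)) * (r /ₒ s) = r /ₒ 1
      rw [OreLocalization.mul_cancel]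
  have hinj : Function.Injective
      (OreLocalization.numeratorRingHom : S →+* OreLocalization (nonZeroDivisors S) S) :=
    OreLocalization.numeratorHom_inj inf_le_left
  refine ⟨OreLocalization (nonZeroDivisors S) S, inferInstance,
    OreLocalization.numeratorRingHom, hinj, hfr, fun z => ?_⟩
  obtain ⟨s, x, hs, e⟩ := hfr z
  obtain ⟨u, w, huw, e2⟩ := h.oreR x s
  have hu : u ≠ 0 := by
    rintro rfl
    rw [mul_zero] at e2
    rcases huw with h1 | h1
    · exact h1 rfl
    · rcases h.domain e2.symm with h2 | h2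
      · exact hs h2
      · exact h1 h2
  refine ⟨u, w, hu, ?_⟩
  have hs' : (OreLocalization.numeratorRingHom : S →+* OreLocalization (nonZeroDivisors S) S) s ≠ 0 := by
    intro h1
    rw [← map_zero (OreLocalization.numeratorRingHom : S →+* OreLocalization (nonZeroDivisors S) S)] at h1
    exact hs (hinj h1)
  apply mul_left_cancel₀ hs'
  rw [← mul_assoc, e, ← map_mul, e2, map_mul]

end SingerBO
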