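import Mathlib
import Pool.Agent.Lib_MP_394d50_oc.ALoc1

/-!
# Piece OC-L2: the valuation ring (about 150 lines)

`O = {e | ∃ s x, ¬ T2 s ∧ ι s * e = ι x}`. Key (K): for `r s : S`, `¬ T2 s`, there are `r'`, `s'` with `¬ T2 s'` and `s' * r = r' * s`: `oreL r s` gives `u * r = w * s`, `(u, w) ≠ 0`. `u ≠ 0`
(otherwise `w * s = 0`, `w = 0` by `OD.domain`). If `w = 0` then `u * r = 0`, `r = 0`, take `s' = 1`, `r' = 0`. Otherwise `u = 2 ^ i * u'`, `w = 2 ^ j * w'` (`fac`). If `i ≤ j`: cancel `2 ^ i`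
(`tf`): `u' * r = (2 ^ (j - i) * w') * s`. If `j < i`: `2 ^ (i - j) * (u' * r) = w' * s`, so `T2 (w' * s)`, contradiction to `prime`.
* `O` is closed under sums: `ι s * e = ι x`, `ι s₁ * e₁ = ι x₁`; `s' * s = r' * s₁` with `¬ T2 s'` (K); `m = s' * s`, `¬ T2 m` (`prime`), `ι m * (e + e₁) = ι (s' * x + r' * x₁)`. Products:
  `ι s * e = ι x`, `ι s₁ * e₁ = ι x₁`, (K) `s' * x = x' * s₁`: `ι (s' * s) * (e * e₁) = ι (s' * x) * e₁ = ι (x' * x₁)`. `0`, `1`, `-e`: clear.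
* `VR.half`: `ι s * 2⁻¹ = ι x`, so `s = 2 * x` (`2 ≠ 0` in `E`: otherwise `2⁻¹ = 0`, `x = 0`... note `ι s = ι x * 2`; if `2 = 0` in `E` then `ι 2 = 0`, `(2 : S) = 0`, `1 = 0` by `tf`, contradiction
  to `nt`). `VR.fac`: `e ≠ 0`, `ι s * e = ι x`, `s, x ≠ 0`, `s = 2 ^ i * s'`, `x = 2 ^ j * x'`: `e = 2 ^ (j - i) * ((ι s')⁻¹ * ι x')`, the unit `u = (ι s')⁻¹ * ι x'` and
  `u⁻¹ = (ι x')⁻¹ * ι s'` are in `O`.
* `Dv O k (ι x) ↔ ∃ y, x = 2 ^ k * y`: (←) `2 ^ (-k) * ι x = ι y`. (→) `ι s * (2 ^ (-k) * ι x) = ι y`, so `s * x = 2 ^ k * y`, and `2 ^ k ∣ x` by induction on `k` (`prime`, `¬ T2 s`, `tf`).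
-/

namespace SingerBO

private theorem two_pow_al2 {S : Type} [Ring S] (j : ℕ) (x : S) : x * 2 ^ j = 2 ^ j * x :=
  ((Commute.ofNat_right x 2).pow_right j).eq

private theorem tf_pow_al2 {S : Type} [Ring S] (h : OD S) (k : ℕ) {z z' : S}
    (e : 2 ^ k * z = 2 ^ k * z') : z = z' := by
  induction k with
  | zero => rwa [pow_zero, one_mul, one_mul] at e
  | succ k ih =>
    apply ih
    rw [pow_succ', mul_assoc, mul_assoc] at e
    have h1 : 2 * (2 ^ k * z - 2 ^ k * z') = 0 := by rw [mul_sub, e, sub_self]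
    exact sub_eq_zero.1 (h.tf _ h1)

private theorem key_al2 {S : Type} [Ring S] (h : OD S) (r s : S) (hs : ¬ T2 s) :
    ∃ r' s' : S, ¬ T2 s' ∧ s' * r = r' * s := by
  obtain ⟨u, w, huw, e⟩ := h.oreL r s
  have hs0 : s ≠ 0 := fun h0 => hs ⟨0, by rw [h0, mul_zero]⟩
  have hu : u ≠ 0 := by
    rintro rfl
    rw [zero_mul] at e
    rcases huw with h1 | h1
    · exact h1 rfl
    · rcases h.domain e.symm with h2 | h2
      · exact h1 h2
      · exact hs0 h2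
  by_cases hw : w = 0
  · rw [hw, zero_mul] at e
    have hr : r = 0 := (h.domain e).resolve_left hu
    exact ⟨0, 1, h.nt, by rw [hr, mul_zero, zero_mul]⟩
  · obtain ⟨i, u', hu', rfl⟩ := h.fac u hu
    obtain ⟨j, w', hw', rfl⟩ := h.fac w hw
    rcases le_or_gt i j with hij | hij
    · refine ⟨2 ^ (j - i) * w', u', hu', ?_⟩
      apply tf_pow_al2 h i
      calc 2 ^ i * (u' * r) = 2 ^ i * u' * r := by rw [mul_assoc]
        _ = 2 ^ j * w' * s := e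
        _ = 2 ^ i * (2 ^ (j - i) * w' * s) := by
          rw [← mul_assoc, ← mul_assoc, ← pow_add, Nat.add_sub_cancel' hij]
    · exfalso
      have h1 : 2 ^ (i - j) * (u' * r) = w' * s := by
        apply tf_pow_al2 h j
        calc 2 ^ j * (2 ^ (i - j) * (u' * r)) = 2 ^ i * u' * r := by
              rw [← mul_assoc, ← pow_add, Nat.add_sub_cancel' hij.le, mul_assoc]
          _ = 2 ^ j * w' * s := e
          _ = 2 ^ j * (w' * s) := by rw [mul_assoc]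
      have h2 : T2 (w' * s) := by
        refine ⟨2 ^ (i - j - 1) * (u' * r), ?_⟩
        have h5 : i - j = (i - j - 1) + 1 := by omega
        rw [← h1]
        conv_lhs => rw [h5, pow_succ', mul_assoc]
      rcases h.prime _ _ h2 with h3 | h3
      · exact hw' h3
      · exact hs h3

private theorem not_t2_mul_al2 {S : Type} [Ring S] (h : OD S) {x y : S} (hx : ¬ T2 x) (hy : ¬ T2 y) :
    ¬ T2 (x * y) := fun h1 => by
  rcases h.prime _ _ h1 with h2 | h2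
  · exact hx h2
  · exact hy h2

/-- The valuation ring. -/
private def valr_al2 {S E : Type} [Ring S] [DivisionRing E] (h : OD S) (ι : S →+* E) : Subring E where
  carrier := {e | ∃ s x : S, ¬ T2 s ∧ ι s * e = ι x}
  mul_mem' := by
    rintro e e₁ ⟨s, x, hs, hx⟩ ⟨s₁, x₁, hs₁, hx₁⟩
    obtain ⟨x', s', hs', hk⟩ := key_al2 h x s₁ hs₁
    refine ⟨s' * s, x' * x₁, not_t2_mul_al2 h hs' hs, ?_⟩
    calc ι (s' * s) * (e * e₁) = ι s' * (ι s * e) * e₁ := by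
          rw [map_mul]
          simp only [mul_assoc]
      _ = ι (s' * x) * e₁ := by rw [hx, map_mul]
      _ = ι x' * (ι s₁ * e₁) := by rw [hk, map_mul, mul_assoc]
      _ = ι (x' * x₁) := by rw [hx₁, map_mul]
  one_mem' := ⟨1, 1, h.nt, mul_one _⟩
  add_mem' := by
    rintro e e₁ ⟨s, x, hs, hx⟩ ⟨s₁, x₁, hs₁, hx₁⟩
    obtain ⟨r', s', hs', hk⟩ := key_al2 h s s₁ hs₁
    refine ⟨s' * s, s' * x + r' * x₁, not_t2_mul_al2 h hs' hs, ?_⟩
    have h1 : ι (s' * s) * e = ι (s' * x) := by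
      rw [map_mul, mul_assoc, hx, map_mul]
    have h2 : ι (s' * s) * e₁ = ι (r' * x₁) := by
      rw [hk, map_mul, mul_assoc, hx₁, map_mul]
    rw [mul_add, h1, h2, map_add]
  zero_mem' := ⟨1, 0, h.nt, by rw [mul_zero, map_zero]⟩
  neg_mem' := by
    rintro e ⟨s, x, hs, hx⟩
    exact ⟨s, -x, hs, by rw [mul_neg, hx, map_neg]⟩

private theorem mem_valr_al2 {S E : Type} [Ring S] [DivisionRing E] (h : OD S) (ι : S →+* E) (e : E) :
    e ∈ valr_al2 h ι ↔ ∃ s x : S, ¬ T2 s ∧ ι s * e = ι x := Iff.rfl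

private theorem dvd_al2 {S : Type} [Ring S] (h : OD S) (s : S) (hs : ¬ T2 s) (k : ℕ) :
    ∀ x y : S, s * x = 2 ^ k * y → ∃ z, x = 2 ^ k * z := by
  induction k with
  | zero => exact fun x y _ => ⟨x, by rw [pow_zero, one_mul]⟩
  | succ k ih =>
    intro x y e
    have h1 : T2 (s * x) := ⟨2 ^ k * y, by rw [e, pow_succ', mul_assoc]⟩
    obtain ⟨x₁, rfl⟩ := (h.prime _ _ h1).resolve_left hs
    have h2 : s * x₁ = 2 ^ k * y := by
      have h3 : (2 : S) ^ 1 * (s * x₁) = 2 ^ 1 * (2 ^ k * y) := by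
        rw [← mul_assoc, ← two_pow_al2 1 s, mul_assoc, pow_one, e, pow_succ', mul_assoc]
      exact tf_pow_al2 h 1 h3
    obtain ⟨z, rfl⟩ := ih x₁ y h2
    exact ⟨z, by rw [pow_succ', mul_assoc]⟩

theorem od_val {S E : Type} [Ring S] [DivisionRing E] (h : OD S) (ι : S →+* E)
    (hι : Function.Injective ι) (hl : ∀ e : E, ∃ s x : S, s ≠ 0 ∧ ι s * e = ι x) :
    ∃ O : Subring E, VR O ∧ (∀ x, ι x ∈ O) ∧
      ∀ (k : ℕ) (x : S), Dv O k (ι x) ↔ ∃ y, x = 2 ^ k * y := by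
  have hι0 : ∀ {x : S}, ι x = 0 → x = 0 := fun {x} hx => hι (by rw [hx, map_zero])
  have h2E : (2 : E) ≠ 0 := by
    intro h0
    have h1 : (2 : S) = 0 := hι0 (by rw [map_ofNat]; exact h0)
    have h3 : (1 : S) = 0 := h.tf 1 (by rw [h1, zero_mul])
    exact h.nt ⟨0, by rw [h3, mul_zero]⟩
  have hmem : ∀ x, ι x ∈ valr_al2 h ι := fun x => ⟨1, x, h.nt, by rw [map_one, one_mul]⟩
  have hcom : ∀ (k : ℤ) (x : E), x * (2 : E) ^ k = (2 : E) ^ k * x := fun k x =>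
    ((Commute.ofNat_right x 2).zpow_right₀ k).eq
  have hpow : ∀ k : ℕ, ι (2 ^ k) = (2 : E) ^ (k : ℤ) := fun k => by
    rw [map_pow, map_ofNat, zpow_natCast]
  refine ⟨valr_al2 h ι, ⟨?_, ?_⟩, hmem, ?_⟩
  · rintro ⟨s, x, hs, e⟩
    apply hs
    refine ⟨x, hι ?_⟩
    rw [map_mul, map_ofNat, ← e, ← mul_assoc, ← (Commute.ofNat_right (ι s) 2).eq, mul_assoc,
      mul_inv_cancel₀ h2E, mul_one]
  · intro e he
    obtain ⟨s, x, hs, hx⟩ := hl e
    have hs' : ι s ≠ 0 := fun h0 => hs (hι0 h0)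
    have hx0 : x ≠ 0 := by
      rintro rfl
      rw [map_zero] at hx
      rcases mul_eq_zero.1 hx with h1 | h1
      · exact hs' h1
      · exact he h1
    obtain ⟨i, a, ha, rfl⟩ := h.fac s hs
    obtain ⟨j, b, hb, rfl⟩ := h.fac x hx0
    have ha0 : ι a ≠ 0 := fun h0 => ha ⟨0, by rw [hι0 h0, mul_zero]⟩
    have hb0 : ι b ≠ 0 := fun h0 => hb ⟨0, by rw [hι0 h0, mul_zero]⟩
    refine ⟨(j : ℤ) - i, (ι a)⁻¹ * ι b, ⟨a, b, ha, ?_⟩, ⟨b, a, hb, ?_⟩, ?_⟩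
    · rw [← mul_assoc, mul_inv_cancel₀ ha0, one_mul]
    · rw [mul_inv_rev, inv_inv, ← mul_assoc, mul_inv_cancel₀ hb0, one_mul]
    · apply mul_left_cancel₀ hs'
      rw [hx, map_mul, map_mul, hpow, hpow]
      calc (2 : E) ^ (j : ℤ) * ι b = 2 ^ (i : ℤ) * 2 ^ ((j : ℤ) - i) * ι b := by
            rw [← zpow_add₀ h2E]
            congr 2
            ring
        _ = 2 ^ (i : ℤ) * (ι a * 2 ^ ((j : ℤ) - i)) * ((ι a)⁻¹ * ι b) := by
            rw [hcom _ (ι a)]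
            simp only [mul_assoc]
            rw [← mul_assoc (ι a) (ι a)⁻¹, mul_inv_cancel₀ ha0, one_mul]
        _ = 2 ^ (i : ℤ) * ι a * (2 ^ ((j : ℤ) - i) * ((ι a)⁻¹ * ι b)) := by
            simp only [mul_assoc]
  · intro k x
    unfold Dv
    constructor
    · rintro ⟨s, y, hs, e⟩
      refine dvd_al2 h s hs k x y (hι ?_)
      rw [← mul_assoc, hcom, mul_assoc] at e
      rw [map_mul, map_mul, hpow, ← e, ← mul_assoc, ← zpow_add₀ h2E, add_neg_cancel, zpow_zero, one_mul]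
    · rintro ⟨y, rfl⟩
      rw [map_mul, hpow, ← mul_assoc, ← zpow_add₀ h2E, neg_add_cancel, zpow_zero, one_mul]
      exact hmem y

end SingerBO
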