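import Mathlib
import Pool.Agent.Lib_MP_394d50_oc.AGA
import Pool.Agent.Lib_MP_394d50_oc.ALoc2
import Pool.Agent.Lib_MP_394d50_oc.ABas
import Pool.Agent.Lib_MP_394d50_pb.ELeft
import Pool.Agent.Lib_MP_394d50_pb.ERight

/-!
# MP_394d50_gt: extensions with an amenable quotient, the embedding (definitions)
-/

namespace SingerBO

variable {G V E L : Type} [Group G] [Group V] {f : G →* V} [DivisionRing E] [DivisionRing L]
  {O : Subring E} {t : f.ker →* Eˣ} {α : G → E →+* E}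

theorem ee_one_mul (hT : Tw O t α) (g h : G) : ee hT 1 g * ee hT 1 h = ee hT 1 (g * h) := by
  rw [ee_mul]
  congr 1
  exact Subtype.ext (by
    show (1 : E) * α g 1 = 1
    rw [map_one, one_mul])

/-- The group element `g` in the graded ring. -/
noncomputable def pg (hR : VR O) (hT : Tw O t α) (hm : ∀ n, ((t n : Eˣ) : E) ∈ O) (g : G) :
    PP (gr_GA f hR hT hm ⊤) :=
  ppS _ (f g) (ee hT 1 g) (ee_mem_GA f hT hm (Subgroup.mem_top g))

theorem pg_mul (hR : VR O) (hT : Tw O t α) (hm : ∀ n, ((t n : Eˣ) : E) ∈ O) (g h : G) :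
    pg (f := f) hR hT hm g * pg hR hT hm h = pg hR hT hm (g * h) := by
  unfold pg
  rw [ppS_mul]
  exact ppS_congr _ (map_mul f g h).symm (ee_one_mul hT g h) _ _

theorem pg_one (hR : VR O) (hT : Tw O t α) (hm : ∀ n, ((t n : Eˣ) : E) ∈ O) :
    pg (f := f) hR hT hm 1 = 1 := by
  unfold pg
  rw [← ppS_one]
  exact ppS_congr _ (map_one f) (ee_one hT) _ _

/-- The embedding of the group. -/
noncomputable def TP (hR : VR O) (hT : Tw O t α) (hm : ∀ n, ((t n : Eˣ) : E) ∈ O)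
    (ι : PP (gr_GA f hR hT hm ⊤) →+* L) : G →* Lˣ where
  toFun g := ⟨ι (pg hR hT hm g), ι (pg hR hT hm g⁻¹),
    by rw [← map_mul, pg_mul, mul_inv_cancel, pg_one, map_one],
    by rw [← map_mul, pg_mul, inv_mul_cancel, pg_one, map_one]⟩
  map_one' := Units.ext (by
    show ι (pg hR hT hm 1) = 1
    rw [pg_one, map_one])
  map_mul' g h := Units.ext (by
    show ι (pg hR hT hm (g * h)) = ι (pg hR hT hm g) * ι (pg hR hT hm h)
    rw [← map_mul, pg_mul])

theorem TP_val (hR : VR O) (hT : Tw O t α) (hm : ∀ n, ((t n : Eˣ) : E) ∈ O)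
    (ι : PP (gr_GA f hR hT hm ⊤) →+* L) (g : G) : ((TP hR hT hm ι g : Lˣ) : L) =
      ι (pg hR hT hm g) := rfl

theorem pcf_pg_mul (hR : VR O) (hT : Tw O t α) (hm : ∀ n, ((t n : Eˣ) : E) ∈ O) (g : G)
    (x : PP (gr_GA f hR hT hm ⊤)) (v : V) :
    pcf (pg hR hT hm g * x) v = ee hT 1 g * pcf x ((f g)⁻¹ * v) := pcf_ppS_mul ..

theorem pcf_mul_pg (hR : VR O) (hT : Tw O t α) (hm : ∀ n, ((t n : Eˣ) : E) ∈ O) (g : G)
    (x : PP (gr_GA f hR hT hm ⊤)) (v : V) :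
    pcf (x * pg hR hT hm g) v = pcf x (v * (f g)⁻¹) * ee hT 1 g := pcf_mul_ppS ..

/-- The inclusion of the graded ring of a subgroup. -/
noncomputable def iH (hR : VR O) (hT : Tw O t α) (hm : ∀ n, ((t n : Eˣ) : E) ∈ O)
    (H : Subgroup G) : PP (gr_GA f hR hT hm H) →+* PP (gr_GA f hR hT hm ⊤) :=
  ppIncl (gr_GA f hR hT hm ⊤) (gr_GA f hR hT hm H) (fun v => GA_mono f hT hm le_top v)

theorem iH_inj (hR : VR O) (hT : Tw O t α) (hm : ∀ n, ((t n : Eˣ) : E) ∈ O) (H : Subgroup G) :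
    Function.Injective (iH (f := f) hR hT hm H) := incl_inj _ _ _

theorem pcf_iH (hR : VR O) (hT : Tw O t α) (hm : ∀ n, ((t n : Eˣ) : E) ∈ O) (H : Subgroup G)
    (x : PP (gr_GA f hR hT hm H)) (v : V) : pcf (iH hR hT hm H x) v = pcf x v :=
  pcf_incl (gr_GA f hR hT hm ⊤) (gr_GA f hR hT hm H) (fun v => GA_mono f hT hm le_top v) x v

end SingerBO
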