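import Mathlib
import Pool.Agent.Lib_MP_394d50_oc.TDefs

/-!
# Piece OC-T1: right fractions (about 120 lines)

Let `P x := ∃ s a : PP (gr_GA .. H), s ≠ 0 ∧ x * ι (iH s) = ι (iH a)`. `P (TP h)` for `h ∈ H`: `s = 1`, `a = ppS _ (f h) (ee hT 1 h) (ee_mem_GA f hT hm hh)`; `iH a = pg h` by `pp_ext`, `pcf_iH`, `pcf_ppS`. Sums: `x * ι s = ι a`, `y * ι s' = ι a'`; `oreR s s'`: `s * u = s' * w =: m`, `m ≠ 0` (`OD.domain`: `(u, w) ≠ 0`; if `m = 0` then `u = 0` and `w = 0`); `(x + y) * ι m = ι (a * u + a' * w)`.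
Products `x * y`: `y * ι s' = ι a'`, `x * ι s = ι a`, `oreR a' s`: `a' * u = s * w`, `u ≠ 0` (otherwise `s * w = 0`, `w = 0`); `x * y * ι (s' * u) = x * ι (a' * u) = x * ι (s * w) = ι (a * w)`.
Inverse: `x ≠ 0`: `a ≠ 0` (`ι`, `iH` injective), `x⁻¹ * ι a = ι s`; `0⁻¹ = 0`. Then `Subfield.closure_induction`. (`ι ∘ iH` as one ring homomorphism is convenient.)
* `tp_denR`: induction on `F` (`Finset.induction_on`) gives `s ≠ 0` with `d g * ι (iH s) = ι (iH (a g))` for `g ∈ F` (`oreR` as for sums); `s = 2 ^ j * s'`, `¬ T2 s'` (`fac`): `2 ^ j * (d g * ι s') = ι (a g)`;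
  as `d g * ι s' ∈ OL`, `Dv OL j (ι (iH (a g)))` (`dv_scale`, `dv_iff_mem`), so `iH (a g) = 2 ^ j * y` (`hv`), `a g = 2 ^ j * a' g` (`incl_pow`), and `d g * ι (iH s') = ι (iH (a' g))`.
WARNING: never close a goal between `pcf (iH ..)` and `pcf x` by `rfl`/`show`/`simp` unfolding (it can hang): use `pcf_iH`; always compile with `timeout 300`.
-/

namespace SingerBO

variable {G V E L : Type} [Group G] [Group V] {f : G →* V} [DivisionRing E] [DivisionRing L]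
  {O : Subring E} {t : f.ker →* Eˣ} {α : G → E →+* E}

/-! ### abstract right fractions -/

private theorem od_one_ne {S : Type} [Ring S] (h : OD S) : (1 : S) ≠ 0 := fun e =>
  h.nt ⟨0, by rw [mul_zero, e]⟩

private theorem od_mul_ne {S : Type} [Ring S] (h : OD S) {x y : S} (hx : x ≠ 0) (hy : y ≠ 0) : x * y ≠ 0 := fun e => by
  rcases h.domain e with h1 | h1
  · exact hx h1
  · exact hy h1

private theorem od_common {S : Type} [Ring S] (h : OD S) {x y : S} (hx : x ≠ 0) (hy : y ≠ 0) :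
    ∃ u w : S, x * u = y * w ∧ x * u ≠ 0 := by
  obtain ⟨u, w, h1, h2⟩ := h.oreR x y
  refine ⟨u, w, h2, fun e => ?_⟩
  have h3 : u = 0 := (h.domain e).resolve_left hx
  have h4 : w = 0 := (h.domain (h2 ▸ e)).resolve_left hy
  rcases h1 with h1 | h1
  · exact h1 h3
  · exact h1 h4

private theorem fr_add {S L : Type} [Ring S] [DivisionRing L] (h : OD S) (ρ : S →+* L) {x y : L}
    (hx : ∃ s a : S, s ≠ 0 ∧ x * ρ s = ρ a) (hy : ∃ s a : S, s ≠ 0 ∧ y * ρ s = ρ a) :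
    ∃ s a : S, s ≠ 0 ∧ (x + y) * ρ s = ρ a := by
  obtain ⟨s, a, hs, ha⟩ := hx
  obtain ⟨s', a', hs', ha'⟩ := hy
  obtain ⟨u, w, h1, h2⟩ := od_common h hs hs'
  refine ⟨s * u, a * u + a' * w, h2, ?_⟩
  have h3 : x * ρ (s * u) = ρ (a * u) := by rw [map_mul, map_mul, ← mul_assoc, ha]
  have h4 : y * ρ (s * u) = ρ (a' * w) := by rw [h1, map_mul, map_mul, ← mul_assoc, ha']
  rw [add_mul, h3, h4, map_add]

private theorem fr_mul {S L : Type} [Ring S] [DivisionRing L] (h : OD S) (ρ : S →+* L) {x y : L}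
    (hx : ∃ s a : S, s ≠ 0 ∧ x * ρ s = ρ a) (hy : ∃ s a : S, s ≠ 0 ∧ y * ρ s = ρ a) :
    ∃ s a : S, s ≠ 0 ∧ (x * y) * ρ s = ρ a := by
  obtain ⟨s, a, hs, ha⟩ := hx
  obtain ⟨s', a', hs', ha'⟩ := hy
  obtain ⟨u, w, h1, h2⟩ := h.oreR a' s
  have hu : u ≠ 0 := by
    intro hu
    rw [hu, mul_zero] at h2
    have hw : w = 0 := (h.domain h2.symm).resolve_left hs
    rcases h1 with h1 | h1
    · exact h1 hu
    · exact h1 hw
  refine ⟨s' * u, a * w, od_mul_ne h hs' hu, ?_⟩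
  calc x * y * ρ (s' * u) = x * (y * ρ s' * ρ u) := by rw [map_mul]; simp only [mul_assoc]
    _ = x * ρ (a' * u) := by rw [ha', ← map_mul]
    _ = x * ρ s * ρ w := by rw [h2, map_mul, mul_assoc]
    _ = ρ (a * w) := by rw [ha, ← map_mul]

private theorem fr_inv {S L : Type} [Ring S] [DivisionRing L] (h : OD S) (ρ : S →+* L)
    (hρ : Function.Injective ρ) {x : L}
    (hx : ∃ s a : S, s ≠ 0 ∧ x * ρ s = ρ a) : ∃ s a : S, s ≠ 0 ∧ x⁻¹ * ρ s = ρ a := by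
  by_cases hx0 : x = 0
  · refine ⟨1, 0, od_one_ne h, ?_⟩
    rw [hx0, inv_zero, zero_mul, map_zero]
  · obtain ⟨s, a, hs, ha⟩ := hx
    refine ⟨a, s, ?_, ?_⟩
    · rintro rfl
      rw [map_zero] at ha
      rcases mul_eq_zero.1 ha with h1 | h1
      · exact hx0 h1
      · exact hs (hρ (by rw [h1, map_zero]))
    · rw [← ha, inv_mul_cancel_left₀ hx0]

/-- common denominators -/
private theorem fr_common {S L ι : Type} [Ring S] [DivisionRing L] (h : OD S) (ρ : S →+* L) (F : Finset ι) (d : ι → L)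
    (hd : ∀ g ∈ F, ∃ s a : S, s ≠ 0 ∧ d g * ρ s = ρ a) :
    ∃ s : S, s ≠ 0 ∧ ∀ g ∈ F, ∃ a : S, d g * ρ s = ρ a := by
  classical
  induction F using Finset.induction_on with
  | empty => exact ⟨1, od_one_ne h, fun g hg => absurd hg (Finset.notMem_empty g)⟩
  | insert b F _ ih =>
    obtain ⟨s, hs, h1⟩ := ih fun g hg => hd g (Finset.mem_insert_of_mem hg)
    obtain ⟨s', a', hs', ha'⟩ := hd b (Finset.mem_insert_self b F)
    obtain ⟨u, w, h2, h3⟩ := od_common h hs hs'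
    refine ⟨s * u, h3, fun g hg => ?_⟩
    rcases Finset.mem_insert.1 hg with rfl | hg
    · exact ⟨a' * w, by rw [h2, map_mul, map_mul, ← mul_assoc, ha']⟩
    · obtain ⟨a, ha⟩ := h1 g hg
      exact ⟨a * u, by rw [map_mul, map_mul, ← mul_assoc, ha]⟩

theorem tp_fracR (hR : VR O) (hT : Tw O t α) (hm : ∀ n, ((t n : Eˣ) : E) ∈ O)
    (ι : PP (gr_GA f hR hT hm ⊤) →+* L) (hι : Function.Injective ι) (H : Subgroup G)
    (hH : OD (PP (gr_GA f hR hT hm H))) {x : L} (hx : x ∈ DH (TP hR hT hm ι) H) :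
    ∃ s a : PP (gr_GA f hR hT hm H), s ≠ 0 ∧ x * ι (iH hR hT hm H s) = ι (iH hR hT hm H a) := by
  obtain ⟨ρ, hρ⟩ : ∃ ρ : PP (gr_GA f hR hT hm H) →+* L, ∀ y, ρ y = ι (iH hR hT hm H y) :=
    ⟨ι.comp (iH hR hT hm H), fun _ => rfl⟩
  have hinj : Function.Injective ρ := fun y z e => by
    rw [hρ, hρ] at e
    exact iH_inj hR hT hm H (hι e)
  suffices hs : ∃ s a : PP (gr_GA f hR hT hm H), s ≠ 0 ∧ x * ρ s = ρ a by
    obtain ⟨s, a, h1, h2⟩ := hs
    rw [hρ, hρ] at h2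
    exact ⟨s, a, h1, h2⟩
  unfold DH at hx
  induction hx using Subfield.closure_induction with
  | mem x hx =>
    obtain ⟨h, hh, rfl⟩ := hx
    have e : iH hR hT hm H (ppS _ (f h) (ee hT 1 h) (ee_mem_GA f hT hm hh)) = pg hR hT hm h :=
      pp_ext fun v => by
        rw [pcf_iH, pcf_ppS]
        unfold pg
        rw [pcf_ppS]
    refine ⟨1, ppS _ (f h) (ee hT 1 h) (ee_mem_GA f hT hm hh), od_one_ne hH, ?_⟩
    rw [map_one, mul_one, hρ, TP_val, e]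
  | one => exact ⟨1, 1, od_one_ne hH, by rw [one_mul]⟩
  | add x y _ _ hx hy => exact fr_add hH ρ hx hy
  | neg x _ hx =>
    obtain ⟨s, a, hs, ha⟩ := hx
    exact ⟨s, -a, hs, by rw [neg_mul, ha, map_neg]⟩
  | inv x _ hx => exact fr_inv hH ρ hinj hx
  | mul x y _ _ hx hy => exact fr_mul hH ρ hx hy

theorem tp_denR (hR : VR O) (hT : Tw O t α) (hm : ∀ n, ((t n : Eˣ) : E) ∈ O)
    (ι : PP (gr_GA f hR hT hm ⊤) →+* L) (hι : Function.Injective ι) {OL : Subring L} (hV : VR OL)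
    (hO : ∀ x, ι x ∈ OL)
    (hv : ∀ (k : ℕ) (x : PP (gr_GA f hR hT hm ⊤)), Dv OL k (ι x) ↔ ∃ y, x = 2 ^ k * y)
    (H : Subgroup G) (hH : OD (PP (gr_GA f hR hT hm H))) (F : Finset G) (d : G → L)
    (hd : ∀ g ∈ F, d g ∈ DH (TP hR hT hm ι) H ∧ d g ∈ OL) :
    ∃ (s : PP (gr_GA f hR hT hm H)) (a : G → PP (gr_GA f hR hT hm H)), ¬ T2 s ∧
      ∀ g ∈ F, d g * ι (iH hR hT hm H s) = ι (iH hR hT hm H (a g)) := by
  classical
  obtain ⟨ρ, hρ⟩ : ∃ ρ : PP (gr_GA f hR hT hm H) →+* L, ∀ y, ρ y = ι (iH hR hT hm H y) :=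
    ⟨ι.comp (iH hR hT hm H), fun _ => rfl⟩
  obtain ⟨s, hs, h1⟩ := fr_common hH ρ F d fun g hg => by
    obtain ⟨s, a, h2, h3⟩ := tp_fracR hR hT hm ι hι H hH (hd g hg).1
    exact ⟨s, a, h2, by rw [hρ, hρ]; exact h3⟩
  obtain ⟨j, s', hs', rfl⟩ := hH.fac s hs
  have h2 : ∀ g ∈ F, ∃ a, d g * ρ s' = ρ a := by
    intro g hg
    obtain ⟨a, ha⟩ := h1 g hg
    have h2L : (2 : L) ^ j ≠ 0 := pow_ne_zero j hV.two_ne
    have h3 : (2 : L) ^ j * (d g * ρ s') = ρ a := by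
      rw [← ha, map_mul, map_pow, map_ofNat, ← mul_assoc, ← mul_assoc]
      congr 1
      exact ((Nat.cast_commute 2 (d g)).pow_left j).eq
    have h4 : d g * ρ s' ∈ OL := by
      rw [hρ]
      exact OL.mul_mem (hd g hg).2 (hO _)
    have h5 : Dv OL (0 + (j : ℤ)) (2 ^ (j : ℤ) * (d g * ρ s')) :=
      (dv_scale hV j 0 _).2 ((dv_iff_mem _).2 h4)
    rw [zero_add, zpow_natCast, h3, hρ] at h5
    obtain ⟨y, hy⟩ := (hv j _).1 h5
    obtain ⟨z, hz⟩ := incl_pow _ _ _ j a y hy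
    refine ⟨z, mul_left_cancel₀ h2L ?_⟩
    rw [h3, hz, map_mul, map_pow, map_ofNat]
  choose! a ha using h2
  refine ⟨s', a, hs', fun g hg => ?_⟩
  rw [← hρ, ← hρ]
  exact ha g hg

end SingerBO
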