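import Mathlib
import Pool.Agent.Lib_MP_394d50_oc.TFracR

/-!
# Piece OC-T3: the embedding, left cosets (about 90 lines)

`s`, `a` from `tp_denR`. `h3` times `ι (iH s)` (in `OL`; `Dv.mul` with `k = 1`, `l = 0`, `Finset.sum_mul`): `Dv OL 1 (∑ g ∈ F, TP g * ι (iH (a g)))`, so by `TP_val`, `map_mul`, `map_sum`, `hv 1`:
`∑ g ∈ F, pg g * iH (a g) = 2 ^ 1 * y` in `PP`. Coefficient at `v` (`pcf_sum`, `pcf_pg_mul`, `pcf_iH`, `pcf_pow`): `∑ g ∈ F, ee hT 1 g * pcf (a g) ((f g)⁻¹ * v) = 2 * pcf y v`. `core_left`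
(ELeft.lean) with `c g w = pcf (a g) w` (`pcf_mem`): all `pcf (a g) w`, `g ∈ F`, are divisible by `2`, so `a g` is (`pp_half`), `Dv OL 1 (ι (iH (a g)))` (`hv`), i.e. `Dv OL 1 (d g * ι (iH s))`; `ι (iH s)`
satisfies `¬ Dv OL 1` (`hv`, `incl_pow`: otherwise `T2 s`) and is in `OL`, so its inverse is (`inv_mem_of_not_dv`) and `Dv OL 1 (d g)` (`dv_mul_unit`; `d g * ι (iH s)`).
WARNING: never close a goal between `pcf (iH ..)` and `pcf x` by `rfl`/`show`/`simp` unfolding (it can hang): use `pcf_iH`.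
-/

namespace SingerBO

variable {G V E L : Type} [Group G] [Group V] {f : G →* V} [DivisionRing E] [DivisionRing L]
  {O : Subring E} {t : f.ker →* Eˣ} {α : G → E →+* E}

theorem tp_left (hR : VR O) (hF : VFE O t) (hT : Tw O t α)
    (ι : PP (gr_GA f hR hT hF.mem ⊤) →+* L) (hι : Function.Injective ι) {OL : Subring L}
    (hV : VR OL) (hO : ∀ x, ι x ∈ OL)
    (hv : ∀ (k : ℕ) (x : PP (gr_GA f hR hT hF.mem ⊤)), Dv OL k (ι x) ↔ ∃ y, x = 2 ^ k * y)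
    (H : Subgroup G) (hH : OD (PP (gr_GA f hR hT hF.mem H))) (F : Finset G) (d : G → L)
    (h1 : ∀ g ∈ F, ∀ g' ∈ F, g⁻¹ * g' ∈ H → g = g')
    (h2 : ∀ g ∈ F, d g ∈ DH (TP hR hT hF.mem ι) H ∧ d g ∈ OL)
    (h3 : Dv OL 1 (∑ g ∈ F, ((TP hR hT hF.mem ι g : Lˣ) : L) * d g)) :
    ∀ g ∈ F, Dv OL 1 (d g) := by
  obtain ⟨s, a, hs, ha⟩ := tp_denR hR hT hF.mem ι hι hV hO hv H hH F d h2
  have hv1 : ∀ x : PP (gr_GA f hR hT hF.mem ⊤), Dv OL 1 (ι x) ↔ ∃ y, x = 2 ^ 1 * y := fun x => by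
    have h := hv 1 x
    rwa [Nat.cast_one] at h
  have hs1 : ¬ Dv OL 1 (ι (iH hR hT hF.mem H s)) := by
    intro h
    obtain ⟨y, hy⟩ := (hv1 _).mp h
    obtain ⟨z, hz⟩ := incl_pow _ _ _ 1 s y hy
    exact hs ⟨z, by rw [hz, pow_one]⟩
  have hsum : Dv OL 1 (∑ g ∈ F, ι (pg hR hT hF.mem g * iH hR hT hF.mem H (a g))) := by
    have h4 := Dv.mul hV h3 ((dv_iff_mem _).mpr (hO (iH hR hT hF.mem H s)))
    rw [add_zero, Finset.sum_mul] at h4
    have h5 : ∑ g ∈ F, ι (pg hR hT hF.mem g * iH hR hT hF.mem H (a g)) =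
        ∑ g ∈ F, ((TP hR hT hF.mem ι g : Lˣ) : L) * d g * ι (iH hR hT hF.mem H s) :=
      Finset.sum_congr rfl fun g hg => by rw [mul_assoc, ha g hg, TP_val, map_mul]
    rw [h5]
    exact h4
  rw [← map_sum] at hsum
  obtain ⟨y, hy⟩ := (hv1 _).mp hsum
  have hcore := core_left hR hF hT H F h1 (fun g w => pcf (a g) w) (fun g _ w => pcf_mem (a g) w)
    (by
      intro v
      refine ⟨pcf y v, ?_⟩
      have h6 := congrArg (fun z => pcf z v) hy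
      simp only [pcf_sum] at h6
      rw [pcf_pow, pow_one] at h6
      rw [← h6]
      refine Finset.sum_congr rfl fun g _ => ?_
      rw [pcf_pg_mul, pcf_iH])
  intro g hg
  have hT2 : T2 (a g) := (pp_half _ (a g)).mpr fun v => by
    obtain ⟨z, hz⟩ := hcore g hg v
    exact ⟨z, hz⟩
  obtain ⟨z, hz⟩ := hT2
  have h7 : Dv OL 1 (d g * ι (iH hR hT hF.mem H s)) := by
    rw [ha g hg]
    refine (hv1 _).mpr ⟨iH hR hT hF.mem H z, ?_⟩
    rw [hz, map_mul, map_ofNat, pow_one]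
  have hu0 : ι (iH hR hT hF.mem H s) ≠ 0 := fun h0 => hs1 (by
    rw [h0]
    exact dv_zero 1)
  exact (dv_mul_unit hV (hO _) (inv_mem_of_not_dv hV hs1 (hO _)) hu0 1 (d g)).mp h7

end SingerBO
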