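import Mathlib
import Pool.Agent.Lib_MP_394d50_oc.TDefs

/-!
# Piece OC-T2: left fractions

The mirror of TFracR.lean: `P x := ∃ s a : PP (gr_GA .. H), s ≠ 0 ∧ ι (iH s) * x = ι (iH a)`, with `oreL`. Products `x * y`: `ι s * x = ι a`, `ι s' * y = ι a'`,
`oreL a s'`: `u * a = w * s'`, `u ≠ 0`; `ι (u * s) * (x * y) = ι (u * a) * y = ι (w * s') * y = ι (w * a')`.
WARNING: never close a goal between `pcf (iH ..)` and `pcf x` by `rfl`/`show`/`simp` unfolding (it can hang): use `pcf_iH`; always compile with `timeout 300`.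
-/

namespace SingerBO

section General

variable {S L : Type} [Ring S] [DivisionRing L]

/-- A common left multiple of two non-zero elements. -/
private theorem lcm2 (hS : OD S) {s s' : S} (hs : s ≠ 0) (hs' : s' ≠ 0) :
    ∃ u w m : S, m ≠ 0 ∧ u * s = m ∧ w * s' = m := by
  obtain ⟨u, w, huw, e⟩ := hS.oreL s s'
  refine ⟨u, w, u * s, fun h => ?_, rfl, e.symm⟩
  have h' : w * s' = 0 := by rw [← e, h]
  rcases hS.domain h with hu | h1
  · rcases hS.domain h' with hw | h2
    · rcases huw with h3 | h3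
      · exact h3 hu
      · exact h3 hw
    · exact hs' h2
  · exact hs h1

private theorem frac_aux (hS : OD S) (J : S →+* L) (hJ : Function.Injective J) (X : Set L)
    (hX : ∀ x ∈ X, ∃ s a : S, s ≠ 0 ∧ J s * x = J a) {x : L} (hx : x ∈ Subfield.closure X) :
    ∃ s a : S, s ≠ 0 ∧ J s * x = J a := by
  have h10 : (1 : S) ≠ 0 := by
    intro h
    have h' : (1 : L) = 0 := by rw [← map_one J, h, map_zero]
    exact one_ne_zero h'
  induction hx using Subfield.closure_induction with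
  | mem x hx => exact hX x hx
  | one => exact ⟨1, 1, h10, by rw [map_one, mul_one]⟩
  | add x y _ _ hx hy =>
    obtain ⟨s, a, hs, e⟩ := hx
    obtain ⟨s', a', hs', e'⟩ := hy
    obtain ⟨u, w, m, hm, h1, h2⟩ := lcm2 hS hs hs'
    refine ⟨m, u * a + w * a', hm, ?_⟩
    rw [mul_add]
    have h3 : J m * x = J (u * a) := by rw [← h1, map_mul, mul_assoc, e, ← map_mul]
    have h4 : J m * y = J (w * a') := by rw [← h2, map_mul, mul_assoc, e', ← map_mul]
    rw [h3, h4, map_add]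
  | neg x _ hx =>
    obtain ⟨s, a, hs, e⟩ := hx
    exact ⟨s, -a, hs, by rw [mul_neg, e, map_neg]⟩
  | inv x _ hx =>
    obtain ⟨s, a, hs, e⟩ := hx
    by_cases hx0 : x = 0
    · exact ⟨1, 0, h10, by rw [hx0, inv_zero, mul_zero, map_zero]⟩
    · refine ⟨a, s, fun ha => ?_, ?_⟩
      · rw [ha, map_zero] at e
        rcases mul_eq_zero.mp e with h | h
        · exact hs (hJ (by rw [h, map_zero]))
        · exact hx0 h
      · rw [← e, mul_assoc, mul_inv_cancel₀ hx0, mul_one]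
  | mul x y _ _ hx hy =>
    obtain ⟨s, a, hs, e⟩ := hx
    obtain ⟨s', a', hs', e'⟩ := hy
    obtain ⟨u, w, huw, h1⟩ := hS.oreL a s'
    have hu : u ≠ 0 := by
      intro hu
      rcases huw with h2 | h2
      · exact h2 hu
      · rw [hu, zero_mul] at h1
        rcases hS.domain h1.symm with h3 | h3
        · exact h2 h3
        · exact hs' h3
    refine ⟨u * s, w * a', fun h => ?_, ?_⟩
    · rcases hS.domain h with h3 | h3
      · exact hu h3
      · exact hs h3
    · rw [map_mul, mul_assoc, ← mul_assoc (J s), e, ← mul_assoc, ← map_mul, h1, map_mul, mul_assoc,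
        e', ← map_mul]

private theorem den_aux (hS : OD S) (J : S →+* L) {G : Type} (F : Finset G) (d : G → L)
    (hd : ∀ g ∈ F, ∃ s a : S, s ≠ 0 ∧ J s * d g = J a) :
    ∃ (s : S) (a : G → S), s ≠ 0 ∧ ∀ g ∈ F, J s * d g = J (a g) := by
  classical
  have h10 : (1 : S) ≠ 0 := by
    intro h
    have h' : (1 : L) = 0 := by rw [← map_one J, h, map_zero]
    exact one_ne_zero h'
  induction F using Finset.induction_on with
  | empty => exact ⟨1, fun _ => 0, h10, fun g hg => absurd hg (Finset.notMem_empty g)⟩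
  | insert b F hb ih =>
    obtain ⟨s, a, hs, h⟩ := ih fun g hg => hd g (Finset.mem_insert_of_mem hg)
    obtain ⟨s', a', hs', h'⟩ := hd b (Finset.mem_insert_self b F)
    obtain ⟨u, w, m, hm, h1, h2⟩ := lcm2 hS hs hs'
    refine ⟨m, fun g => if g = b then w * a' else u * a g, hm, fun g hg => ?_⟩
    beta_reduce
    by_cases hgb : g = b
    · rw [if_pos hgb, hgb, ← h2, map_mul, mul_assoc, h', ← map_mul]
    · have hgF : g ∈ F := (Finset.mem_insert.mp hg).resolve_left hgb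
      rw [if_neg hgb, ← h1, map_mul, mul_assoc, h g hgF, ← map_mul]

end General

variable {G V E L : Type} [Group G] [Group V] {f : G →* V} [DivisionRing E] [DivisionRing L]
  {O : Subring E} {t : f.ker →* Eˣ} {α : G → E →+* E}

private theorem comp_inj (hR : VR O) (hT : Tw O t α) (hm : ∀ n, ((t n : Eˣ) : E) ∈ O)
    (ι : PP (gr_GA f hR hT hm ⊤) →+* L) (hι : Function.Injective ι) (H : Subgroup G) :
    Function.Injective (ι.comp (iH hR hT hm H)) := fun _ _ h => iH_inj hR hT hm H (hι h)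

private theorem iH_pg (hR : VR O) (hT : Tw O t α) (hm : ∀ n, ((t n : Eˣ) : E) ∈ O)
    (H : Subgroup G) {h : G} (hh : h ∈ H) :
    iH hR hT hm H (ppS _ (f h) (ee hT 1 h) (ee_mem_GA f hT hm hh)) = pg hR hT hm h := by
  refine pp_ext fun v => ?_
  rw [pcf_iH, pcf_ppS]
  unfold pg
  rw [pcf_ppS]

theorem tp_fracL (hR : VR O) (hT : Tw O t α) (hm : ∀ n, ((t n : Eˣ) : E) ∈ O)
    (ι : PP (gr_GA f hR hT hm ⊤) →+* L) (hι : Function.Injective ι) (H : Subgroup G)
    (hH : OD (PP (gr_GA f hR hT hm H))) {x : L} (hx : x ∈ DH (TP hR hT hm ι) H) :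
    ∃ s a : PP (gr_GA f hR hT hm H), s ≠ 0 ∧ ι (iH hR hT hm H s) * x = ι (iH hR hT hm H a) := by
  refine frac_aux hH (ι.comp (iH hR hT hm H)) (comp_inj hR hT hm ι hι H) _ ?_ hx
  rintro x ⟨h, hh, rfl⟩
  have h10 : (1 : PP (gr_GA f hR hT hm H)) ≠ 0 := by
    intro h1
    refine hH.nt ⟨0, ?_⟩
    rw [mul_zero]
    exact h1
  refine ⟨1, ppS _ (f h) (ee hT 1 h) (ee_mem_GA f hT hm hh), h10, ?_⟩
  rw [map_one, one_mul, TP_val, RingHom.comp_apply, iH_pg hR hT hm H hh]

theorem tp_denL (hR : VR O) (hT : Tw O t α) (hm : ∀ n, ((t n : Eˣ) : E) ∈ O)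
    (ι : PP (gr_GA f hR hT hm ⊤) →+* L) (hι : Function.Injective ι) {OL : Subring L} (hV : VR OL)
    (hO : ∀ x, ι x ∈ OL)
    (hv : ∀ (k : ℕ) (x : PP (gr_GA f hR hT hm ⊤)), Dv OL k (ι x) ↔ ∃ y, x = 2 ^ k * y)
    (H : Subgroup G) (hH : OD (PP (gr_GA f hR hT hm H))) (F : Finset G) (d : G → L)
    (hd : ∀ g ∈ F, d g ∈ DH (TP hR hT hm ι) H ∧ d g ∈ OL) :
    ∃ (s : PP (gr_GA f hR hT hm H)) (a : G → PP (gr_GA f hR hT hm H)), ¬ T2 s ∧
      ∀ g ∈ F, ι (iH hR hT hm H s) * d g = ι (iH hR hT hm H (a g)) := by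
  classical
  obtain ⟨s, a, hs, h⟩ := den_aux hH (ι.comp (iH hR hT hm H)) F d
    fun g hg => tp_fracL hR hT hm ι hι H hH (hd g hg).1
  obtain ⟨j, s', hs', e⟩ := hH.fac s hs
  have h2 : (2 : L) ≠ 0 := hV.two_ne
  have key : ∀ g ∈ F, ∃ z : PP (gr_GA f hR hT hm H),
      ι (iH hR hT hm H s') * d g = ι (iH hR hT hm H z) := by
    intro g hg
    have h3 : (2 : L) ^ j * (ι (iH hR hT hm H s') * d g) = ι (iH hR hT hm H (a g)) := by
      have h4 := h g hg
      rw [RingHom.comp_apply, RingHom.comp_apply, e, map_mul, map_pow, map_ofNat, map_mul, map_pow,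
        map_ofNat, mul_assoc] at h4
      exact h4
    have h5 : Dv OL (j : ℤ) (ι (iH hR hT hm H (a g))) := by
      rw [← h3]
      have h6 : Dv OL 0 (ι (iH hR hT hm H s') * d g) :=
        (dv_iff_mem _).mpr (OL.mul_mem (hO _) (hd g hg).2)
      have h7 := (dv_scale hV (j : ℤ) 0 (ι (iH hR hT hm H s') * d g)).mpr h6
      rw [zero_add, zpow_natCast] at h7
      exact h7
    obtain ⟨y, hy⟩ := (hv j _).mp h5
    obtain ⟨z, hz⟩ := incl_pow (gr_GA f hR hT hm ⊤) (gr_GA f hR hT hm H)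
      (fun v => GA_mono f hT hm le_top v) j (a g) y hy
    refine ⟨z, ?_⟩
    have h8 : (2 : L) ^ j * (ι (iH hR hT hm H s') * d g) =
        (2 : L) ^ j * ι (iH hR hT hm H z) := by
      rw [h3, hz, map_mul, map_pow, map_ofNat, map_mul, map_pow, map_ofNat]
    exact mul_left_cancel₀ (pow_ne_zero j h2) h8
  refine ⟨s', fun g => if hg : g ∈ F then (key g hg).choose else 0, hs', fun g hg => ?_⟩
  beta_reduce
  rw [dif_pos hg]
  exact (key g hg).choose_spec

end SingerBO
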