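import Mathlib
import Pool.Agent.Lib_MP_394d50_oc.TFracL

/-!
# Piece OC-T4: the embedding, right cosets (about 90 lines)

The mirror of TLeft.lean (read the plan there), with `tp_denL`, `pcf_mul_pg`, `core_right` (ERight.lean), `dv_unit_mul`.
WARNING: never close a goal between `pcf (iH ..)` and `pcf x` by `rfl`/`show`/`simp` unfolding (it can hang): use `pcf_iH`.
-/

namespace SingerBO

variable {G V E L : Type} [Group G] [Group V] {f : G →* V} [DivisionRing E] [DivisionRing L]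
  {O : Subring E} {t : f.ker →* Eˣ} {α : G → E →+* E}

theorem tp_right (hR : VR O) (hF : VFE O t) (hT : Tw O t α)
    (ι : PP (gr_GA f hR hT hF.mem ⊤) →+* L) (hι : Function.Injective ι) {OL : Subring L}
    (hV : VR OL) (hO : ∀ x, ι x ∈ OL)
    (hv : ∀ (k : ℕ) (x : PP (gr_GA f hR hT hF.mem ⊤)), Dv OL k (ι x) ↔ ∃ y, x = 2 ^ k * y)
    (H : Subgroup G) (hH : OD (PP (gr_GA f hR hT hF.mem H))) (F : Finset G) (d : G → L)
    (h1 : ∀ g ∈ F, ∀ g' ∈ F, g' * g⁻¹ ∈ H → g = g')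
    (h2 : ∀ g ∈ F, d g ∈ DH (TP hR hT hF.mem ι) H ∧ d g ∈ OL)
    (h3 : Dv OL 1 (∑ g ∈ F, d g * ((TP hR hT hF.mem ι g : Lˣ) : L))) :
    ∀ g ∈ F, Dv OL 1 (d g) := by
  obtain ⟨s, a, hs, ha⟩ := tp_denL hR hT hF.mem ι hι hV hO hv H hH F d h2
  -- the sum in the graded ring
  have h4 : Dv OL 1 (ι (∑ g ∈ F, iH hR hT hF.mem H (a g) * pg hR hT hF.mem g)) := by
    have h5 : Dv OL ((0 : ℤ) + 1) (ι (iH hR hT hF.mem H s) *
        ∑ g ∈ F, d g * ((TP hR hT hF.mem ι g : Lˣ) : L)) :=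
      Dv.mul hV ((dv_iff_mem _).mpr (hO _)) h3
    rw [zero_add, Finset.mul_sum] at h5
    have h6 : ι (∑ g ∈ F, iH hR hT hF.mem H (a g) * pg hR hT hF.mem g) =
        ∑ g ∈ F, ι (iH hR hT hF.mem H s) * (d g * ((TP hR hT hF.mem ι g : Lˣ) : L)) := by
      rw [map_sum]
      refine Finset.sum_congr rfl fun g hg => ?_
      rw [map_mul, ← mul_assoc, ha g hg, TP_val]
    rw [h6]
    exact h5
  obtain ⟨y, hy⟩ := (hv 1 _).mp (by exact_mod_cast h4)
  have h5 : ∀ v : V, ∃ z : AddMonoid.End (MM O t),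
      ∑ g ∈ F, pcf (a g) (v * (f g)⁻¹) * ee hT 1 g = 2 * z := by
    intro v
    refine ⟨pcf y v, ?_⟩
    have h6 : pcf (∑ g ∈ F, iH hR hT hF.mem H (a g) * pg hR hT hF.mem g) v = pcf (2 ^ 1 * y) v := by
      rw [hy]
    rw [pcf_sum, pcf_pow, pow_one] at h6
    rw [← h6]
    refine Finset.sum_congr rfl fun g _ => ?_
    rw [pcf_mul_pg, pcf_iH]
  have h6 := core_right hR hF hT H F h1 (fun g w => pcf (a g) w)
    (fun g _ w => pcf_mem (a g) w) h5
  -- `ι (iH s)` is a unit of `OL`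
  have hsO : ι (iH hR hT hF.mem H s) ∈ OL := hO _
  have hsD : ¬ Dv OL 1 (ι (iH hR hT hF.mem H s)) := by
    intro h7
    obtain ⟨z, hz⟩ := (hv 1 (iH hR hT hF.mem H s)).mp (by exact_mod_cast h7)
    obtain ⟨z', hz'⟩ := incl_pow (gr_GA f hR hT hF.mem ⊤) (gr_GA f hR hT hF.mem H)
      (fun v => GA_mono f hT hF.mem le_top v) 1 s z hz
    exact hs ⟨z', by rw [hz', pow_one]⟩
  have hsI := inv_mem_of_not_dv hV hsD hsO
  have hs0 : ι (iH hR hT hF.mem H s) ≠ 0 := fun h => hsD (by rw [h]; exact dv_zero 1)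
  intro g hg
  rw [← dv_unit_mul hV hsO hsI hs0, ha g hg]
  obtain ⟨z, hz⟩ := (pp_half _ (a g)).mpr (fun w => h6 g hg w)
  have h8 := (hv 1 (iH hR hT hF.mem H (a g))).mpr
    ⟨iH hR hT hF.mem H z, by rw [hz, map_mul, map_ofNat, pow_one]⟩
  exact_mod_cast h8

end SingerBO
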