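import Mathlib
import Pool.Agent.Lib_MP_394d50_oc.TLeft
import Pool.Agent.Lib_MP_394d50_oc.TRight
import Pool.Agent.Lib_MP_394d50_oc.AOD
import Pool.Agent.Lib_MP_394d50_oc.AFol
import Pool.Agent.Lib_MP_394d50_oc.ABH2
import Pool.Agent.Lib_MP_394d50_pb.UTw
import Pool.Agent.Lib_MP_394d50_pb.GLi

/-!
# Extensions of good groups by locally indicable amenable groups
-/

namespace SingerBO

theorem fe_ext_am {G Q : Type} [Group G] [Group Q] (f : G →* Q) (hQ : SingerRN.Amen Q)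
    (hL : LocInd Q) (h : Good f.ker) :
    ∃ (E : Type) (_ : DivisionRing E) (O : Subring E) (t : G →* Eˣ),
      VR O ∧ VFE O t ∧ ∀ x : E, x ∈ DH t ⊤ := by
  obtain ⟨E, iE, O, t, hR, hF, hg⟩ := h.fe
  obtain ⟨α, hT⟩ := exists_tw hR hF h.li hg
  obtain ⟨r, hr⟩ := lo_of_locInd hL
  have hOD : ∀ H : Subgroup G, OD (PP (gr_GA f hR hT hF.mem H)) := fun H =>
    od_pp hr (grf_GA f hR hT hF.mem H) (fol2_of_amen hQ _)
  obtain ⟨L, iL, ι, hι, hl, hr'⟩ := od_frac (hOD ⊤)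
  obtain ⟨OL, hV, hO, hv⟩ := od_val (hOD ⊤) ι hι hl
  refine vfe_sub (t := TP hR hT hF.mem ι) hV ⟨fun g => ?_, fun H F d h1 h2 h3 => ?_,
    fun H F d h1 h2 h3 => ?_⟩
  · rw [TP_val]
    exact hO _
  · exact tp_left hR hF hT ι hι hV hO hv H (hOD H) F d h1 h2 h3
  · exact tp_right hR hF hT ι hι hV hO hv H (hOD H) F d h1 h2 h3

theorem good_ext_am {G Q : Type} [Group G] [Group Q] (f : G →* Q) (hQ : SingerRN.Amen Q)
    (hL : LocInd Q) (h : Good f.ker) : Good G where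
  li := li_ext f h.li hL
  lo := lo_of_locInd (li_ext f h.li hL)
  fe := fe_ext_am f hQ hL h

end SingerBO
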