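import Mathlib
import Pool.Agent.Lib_MP_394d50_oc.DMain
import Pool.Agent.Lib_MP_394d50_oc.TAm
import Pool.Agent.Lib_MP_394d50_pb.PMain

/-!
# The Singer conjecture for the groups in the class generated by the bi-orderable and the locally indicable amenable groups
-/

namespace SingerBO

open SingerVS SingerCub SingerRA SingerRN
open scoped Pointwise

/-- `C` contains the bi-orderable groups and the locally indicable amenable groups, and is closed under extensions and directed unions. -/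
structure ClosedCls (C : ∀ (G : Type) [Group G], Prop) : Prop where
  bo : ∀ (G : Type) [Group G], (∃ r : G → G → Prop, BOrd r) → C G
  am : ∀ (G : Type) [Group G], Amen G → LocInd G → C G
  ext : ∀ (G Q : Type) [Group G] [Group Q] (f : G →* Q), Function.Surjective f → C f.ker → C Q →
    C G
  un : ∀ (G : Type) [Group G] (S : Set (Subgroup G)), DirectedOn (· ≤ ·) S →
    (∀ g : G, ∃ H ∈ S, g ∈ H) → (∀ H ∈ S, C H) → C G

/-- `G` belongs to the smallest such class. -/
def OrdCls (G : Type) [Group G] : Prop :=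
  ∀ C : (∀ (G : Type) [Group G], Prop), ClosedCls C → C G

/-- A finite index subgroup of `Γ` belongs to the smallest such class. -/
def VirtOrdCls (Γ : Type) [Group Γ] : Prop := ∃ K : Subgroup Γ, K.FiniteIndex ∧ OrdCls K

/-- `G` has good preimages. -/
def GoodPre (G : Type) [Group G] : Prop :=
  ∀ (K : Type) [Group K] (j : K →* G), Good j.ker → Good K

theorem goodPre_closed : ClosedCls GoodPre where
  bo := fun G _ ⟨_, hr⟩ K _ j h => good_ext j hr h
  am := fun G _ hA hL K _ j h => good_ext_am j hA hL h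
  ext := by
    intro G Q _ _ f _ h1 h2 K _ j h
    refine h2 K (f.comp j) ?_
    -- `K₁ = ker (f ∘ j) → ker f`
    let j1 : (f.comp j).ker →* f.ker :=
      (j.comp (f.comp j).ker.subtype).codRestrict f.ker (fun x => x.2)
    refine h1 _ j1 ?_
    let i1 : j1.ker →* j.ker :=
      ((f.comp j).ker.subtype.comp j1.ker.subtype).codRestrict j.ker
        (fun x => congrArg Subtype.val x.2)
    refine good_inj h i1 ?_
    intro x y e
    have h3 : (x.1.1 : K) = y.1.1 := congrArg (fun z : j.ker => (z : K)) e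
    exact Subtype.ext (Subtype.ext h3)
  un := by
    intro G _ S hS hc h K _ j hj
    refine good_union (Set.image (fun H : Subgroup G => H.comap j) S) ?_ ?_ ?_
    · rintro _ ⟨H, hH, rfl⟩ _ ⟨H', hH', rfl⟩
      obtain ⟨H'', h1, h2, h3⟩ := hS H hH H' hH'
      exact ⟨_, ⟨H'', h1, rfl⟩, Subgroup.comap_mono h2, Subgroup.comap_mono h3⟩
    · intro g
      obtain ⟨H, hH, hg⟩ := hc (j g)
      exact ⟨_, ⟨H, hH, rfl⟩, hg⟩
    · rintro _ ⟨H, hH, rfl⟩
      let j1 : (H.comap j) →* H := (j.comp (H.comap j).subtype).codRestrict H (fun x => x.2)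
      refine h H hH _ j1 ?_
      let i1 : j1.ker →* j.ker :=
        ((H.comap j).subtype.comp j1.ker.subtype).codRestrict j.ker
          (fun x => congrArg Subtype.val x.2)
      refine good_inj hj i1 ?_
      intro x y e
      have h1 : (x.1.1 : K) = y.1.1 := congrArg (fun z : j.ker => (z : K)) e
      exact Subtype.ext (Subtype.ext h1)

theorem good_of_ordCls {G : Type} [Group G] (h : OrdCls G) : Good G :=
  h GoodPre goodPre_closed G (MonoidHom.id G) (good_triv fun x => Subtype.ext x.2)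

/-- The local dimensions vanish outside the middle dimension. -/
theorem locDim_zero_oc {Γ P : Type} [Group Γ] [inst : DecidableEq P] [MulAction Γ P]
    {X : Set (Finset P)} (hX : FreeCx Γ X) (hA : Acyc X) {n : ℕ} (hM : PdR n X)
    (hΓ : VirtOrdCls Γ) :
    ∃ (K : Subgroup Γ) (r : P → P → Prop), K.FiniteIndex ∧ (∀ σ ∈ X, TotOn r σ) ∧
      (∀ h : K, ∀ σ ∈ X, ∀ x ∈ σ, ∀ y ∈ σ, r x y → r (h • x) (h • y)) ∧
      ∀ c : {σ : Finset P // σ ∈ X}, 2 * (c.1.card - 1) ≠ n →
        locDim (simpCx X r) c = 0 := by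
  obtain ⟨K, hK, hm⟩ := hΓ
  have hG : Good K := good_of_ordCls hm
  obtain ⟨r, hr⟩ := hG.lo
  have hXK : @FreeCx K _ P inst _ X := @FreeCx.of_finiteIndex Γ P _ inst _ X hX K hK
  obtain ⟨lo, hord⟩ := exists_ordInv_lo hXK hr
  have hT : ∀ σ ∈ X, TotOn lo.lt σ := fun σ _ => totOn_lt lo σ
  exact ⟨K, lo.lt, hK, hT, hord, fun c hc => locDim_dec_pbo hXK hM hA hG lo hord c hc⟩

section

variable {Γ P : Type} [Group Γ] [LinearOrder P] [MulAction Γ P] {X : Set (Finset P)}

/-- **The Singer conjecture for the groups which are virtually in the class.** -/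
theorem main_oc (hX : FreeCx Γ X) (hA : Acyc X) {n : ℕ} (hM : HomMfd n X ∨ PdR n X)
    (hΓ : VirtOrdCls Γ) :
    (∀ k, 2 * k ≠ n → bettiX Γ X k = 0) ∧
      (∀ k, 2 * k = n → bettiX Γ X k = (-1 : ℝ) ^ k * chiX Γ X) ∧
      ((∀ k, bettiX Γ X k = 0) ↔ chiX Γ X = 0) ∧
      ∀ k, 2 * k = n → 0 ≤ (-1 : ℤ) ^ k * chiX Γ X := by
  classical
  have hlf : PdR n X := hM.elim (fun h => LfR.pdR (HomMfd.lfR hX hA h)) id
  obtain ⟨K, r, hK, hr, hinv, hz⟩ := locDim_zero_oc hX hA hlf hΓ
  let iA : MulAction Γ {σ : Finset P // σ ∈ X} := simpAct hX.inv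
  have hsm : ∀ (h : Γ) (c : {σ : Finset P // σ ∈ X}), (h • c).1 = h • c.1 := fun _ _ => rfl
  have hXK : FreeCx K X := hX.of_finiteIndex K hK
  have hr0 : ∀ σ ∈ X, TotOn (fun x y : P => x < y) σ := fun σ _ => SingerVS.totOn_lt inferInstance σ
  have hloc := locDim_smul_simp (H := Γ) hX.inv hsm hr0
  have hord := locDim_order hr0 hr
  have hF : FreeCell K (simpCx X r) := freeCell_simp hXK (fun _ _ => rfl) hr hinv
  have hfree : ∀ (g : Γ) (c : {σ : Finset P // σ ∈ X}), g • c = c → g = 1 :=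
    fun g c h => hX.free g c.1 c.2 (congrArg Subtype.val h)
  have hfin : Finite (Orb Γ {σ : Finset P // σ ∈ X}) := by
    obtain ⟨R, hR1, hR2⟩ := hX.fin
    refine Finite.of_surjective (fun x : R =>
      (Quotient.mk (MulAction.orbitRel Γ {σ : Finset P // σ ∈ X}) ⟨x.1, hR1 x.1 x.2⟩ :
        Orb Γ {σ : Finset P // σ ∈ X})) ?_
    intro o
    obtain ⟨c, rfl⟩ := Quotient.exists_rep o
    obtain ⟨h, s, hs, e⟩ := hR2 c.1 c.2
    refine ⟨⟨s, hs⟩, Quotient.sound (MulAction.orbitRel_apply.mpr ⟨h⁻¹, ?_⟩)⟩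
    refine Subtype.ext ?_
    show h⁻¹ • c.1 = s
    rw [e, inv_smul_smul]
  have key := betti_final (Γ := Γ) (I := simpCx X (fun x y : P => x < y)) (I' := simpCx X r) K
    hfree hfin (fun g c => by
      show (g • c.1).card - 1 = c.1.card - 1
      rw [Finset.card_smul_finset]) hloc (fun _ => rfl) hord hF n (fun c hc => by
      rw [← hord c]
      exact hz c hc)
  rw [chiX_eq hX]
  have hb : ∀ k, bettiX Γ X k = l2Betti Γ (simpCx X (fun x y : P => x < y)) k :=
    fun k => bettiX_eq hX (fun g c => hloc g c) k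
  simp only [hb]
  exact key

/-- The topological form. -/
theorem main_top_oc (hX : FreeCx Γ X) (hA : Acyc X ∨ ContractibleSpace (geo X)) {n : ℕ}
    (hM : HomMfd n X ∨ PdR n X ∨ LocEuc n (geo X)) (hΓ : VirtOrdCls Γ) :
    (∀ k, 2 * k ≠ n → bettiX Γ X k = 0) ∧
      (∀ k, 2 * k = n → bettiX Γ X k = (-1 : ℝ) ^ k * chiX Γ X) ∧
      ((∀ k, bettiX Γ X k = 0) ↔ chiX Γ X = 0) ∧
      ∀ k, 2 * k = n → 0 ≤ (-1 : ℤ) ^ k * chiX Γ X := by
  have hD : Dn X := fun σ hσ τ h1 h2 => hX.down σ hσ τ h1 h2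
  have hA' : Acyc X := by
    rcases hA with h | h
    · exact h
    · refine acyc_of_contractible hD hX.ne (fun σ hσ => ?_) h
      have h4 : ((fun p => insert p σ) '' {p | p ∉ σ ∧ insert p σ ∈ X}).Finite := by
        refine (hX.finStar hσ).subset ?_
        rintro _ ⟨p, ⟨_, h2⟩, rfl⟩
        exact ⟨h2, Finset.subset_insert p σ⟩
      refine Set.Finite.of_finite_image h4 ?_
      intro p hp q _ e
      have h3 : p ∈ insert q σ := by
        rw [← show insert p σ = insert q σ from e]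
        exact Finset.mem_insert_self p σ
      exact (Finset.mem_insert.mp h3).resolve_right hp.1
  have hM' : HomMfd n X ∨ PdR n X := by
    rcases hM with h | h | h
    · exact Or.inl h
    · exact Or.inr h
    · exact Or.inl (homMfd_of_locEuc hD hX.ne (fun σ hσ => hX.finStar hσ) h)
  exact main_oc hX hA' hM' hΓ

end

end SingerBO
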